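import Pool.Agent.Helper805.Nuc.Free
set_option autoImplicit false
set_option linter.unusedSimpArgs false

/-! Identities of alternative algebras needed for the Allison-Benkart-Gao Lie algebra. -/

namespace Pool.Agent.W429.ABG
open Pool.Agent.Helper805.Nuc.Tens (IsAlt as)

section
variable {A : Type} [NonUnitalNonAssocRing A] (hA : IsAlt A)
include hA

/-- Teichmüller identity in an alternative algebra -/
lemma T (w x y z : A) :
    w * as x y z - as (w * x) y z - as (x * y) w z - as (y * z) w x + as w x y * z = 0 := by
  have h1 : w * as x y z - as (w * x) y z + as w (x * y) z - as w x (y * z) + as w x y * z = 0 := by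
    unfold as; simp only [mul_sub, sub_mul]; abel
  have h2 : as w (x * y) z = - as (x * y) w z := hA.as_left _ _ _
  have h3 : as w x (y * z) = as (y * z) w x := by
    rw [hA.as_right w x (y * z), hA.as_left w (y * z) x, neg_neg]
  rw [h2, h3] at h1
  rw [← h1]; abel

lemma I1aux (p q x y : A) :
    (2 : ℤ) • (as p q x * y + x * as p q y - as (x * y) p q - as (p * q) x y + as (q * p) x y) = 0 := by
  have e0 : as p x q = - as p q x := hA.as_right p x q
  have e1 : as q p x = - as p q x := hA.as_left q p x
  have e2 : as q x p = as p q x := by rw [hA.as_right q x p, hA.as_left q p x, neg_neg]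
  have e3 : as x p q = as p q x := by rw [hA.as_left x p q, hA.as_right p x q, neg_neg]
  have e4 : as x q p = - as p q x := by rw [hA.as_left x q p, hA.as_right q x p, hA.as_left q p x, neg_neg]
  have e5 : as p y q = - as p q y := hA.as_right p y q
  have e6 : as q p y = - as p q y := hA.as_left q p y
  have e7 : as q y p = as p q y := by rw [hA.as_right q y p, hA.as_left q p y, neg_neg]
  have e8 : as y p q = as p q y := by rw [hA.as_left y p q, hA.as_right p y q, neg_neg]
  have e9 : as y q p = - as p q y := by rw [hA.as_left y q p, hA.as_right q y p, hA.as_left q p y, neg_neg]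
  have e10 : as p y x = - as p x y := hA.as_right p y x
  have e11 : as x p y = - as p x y := hA.as_left x p y
  have e12 : as x y p = as p x y := by rw [hA.as_right x y p, hA.as_left x p y, neg_neg]
  have e13 : as y p x = as p x y := by rw [hA.as_left y p x, hA.as_right p y x, neg_neg]
  have e14 : as y x p = - as p x y := by rw [hA.as_left y x p, hA.as_right x y p, hA.as_left x p y, neg_neg]
  have e15 : as q y x = - as q x y := hA.as_right q y x
  have e16 : as x q y = - as q x y := hA.as_left x q y
  have e17 : as x y q = as q x y := by rw [hA.as_right x y q, hA.as_left x q y, neg_neg]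
  have e18 : as y q x = as q x y := by rw [hA.as_left y q x, hA.as_right q y x, neg_neg]
  have e19 : as y x q = - as q x y := by rw [hA.as_left y x q, hA.as_right x y q, hA.as_left x q y, neg_neg]
  have s0 := hA.as_right (p * q) y x
  have s1 := hA.as_right (p * x) y q
  have s2 := hA.as_right (p * y) x q
  have s3 := hA.as_right (q * p) y x
  have s4 := hA.as_right (q * x) y p
  have s5 := hA.as_right (q * y) x p
  have s6 := hA.as_right (x * p) y q
  have s7 := hA.as_right (x * q) y p
  have s8 := hA.as_right (x * y) q p
  have s9 := hA.as_right (y * p) x q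
  have s10 := hA.as_right (y * q) x p
  have s11 := hA.as_right (y * x) q p
  have t0 := T hA p q x y
  have t1 := T hA p q y x
  have t2 := T hA p x q y
  have t3 := T hA p x y q
  have t4 := T hA p y q x
  have t5 := T hA p y x q
  have t6 := T hA q p x y
  have t7 := T hA q x p y
  have t8 := T hA x p q y
  simp only [e0, e1, e2, e3, e4, e5, e6, e7, e8, e9, e10, e11, e12, e13, e14, e15, e16, e17, e18, e19, s0, s1, s2, s3, s4, s5, s6, s7, s8, s9, s10, s11, mul_neg, neg_mul] at t0 t1 t2 t3 t4 t5 t6 t7 t8 ⊢
  linear_combination (norm := abel) (1 : ℤ) • t0 + (1 : ℤ) • t1 + (1 : ℤ) • t2 + (-1 : ℤ) • t3 + (1 : ℤ) • t4 + (-1 : ℤ) • t5 + (-2 : ℤ) • t6 + (-2 : ℤ) • t7 + (2 : ℤ) • t8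

lemma I2aux (p q r x : A) :
    (2 : ℤ) • (as (p * q) r x + as (q * r) p x + as (r * p) q x - as p q r * x + x * as p q r) = 0 := by
  have e0 : as p r q = - as p q r := hA.as_right p r q
  have e1 : as q p r = - as p q r := hA.as_left q p r
  have e2 : as q r p = as p q r := by rw [hA.as_right q r p, hA.as_left q p r, neg_neg]
  have e3 : as r p q = as p q r := by rw [hA.as_left r p q, hA.as_right p r q, neg_neg]
  have e4 : as r q p = - as p q r := by rw [hA.as_left r q p, hA.as_right q r p, hA.as_left q p r, neg_neg]
  have e5 : as p x q = - as p q x := hA.as_right p x q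
  have e6 : as q p x = - as p q x := hA.as_left q p x
  have e7 : as q x p = as p q x := by rw [hA.as_right q x p, hA.as_left q p x, neg_neg]
  have e8 : as x p q = as p q x := by rw [hA.as_left x p q, hA.as_right p x q, neg_neg]
  have e9 : as x q p = - as p q x := by rw [hA.as_left x q p, hA.as_right q x p, hA.as_left q p x, neg_neg]
  have e10 : as p x r = - as p r x := hA.as_right p x r
  have e11 : as r p x = - as p r x := hA.as_left r p x
  have e12 : as r x p = as p r x := by rw [hA.as_right r x p, hA.as_left r p x, neg_neg]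
  have e13 : as x p r = as p r x := by rw [hA.as_left x p r, hA.as_right p x r, neg_neg]
  have e14 : as x r p = - as p r x := by rw [hA.as_left x r p, hA.as_right r x p, hA.as_left r p x, neg_neg]
  have e15 : as q x r = - as q r x := hA.as_right q x r
  have e16 : as r q x = - as q r x := hA.as_left r q x
  have e17 : as r x q = as q r x := by rw [hA.as_right r x q, hA.as_left r q x, neg_neg]
  have e18 : as x q r = as q r x := by rw [hA.as_left x q r, hA.as_right q x r, neg_neg]
  have e19 : as x r q = - as q r x := by rw [hA.as_left x r q, hA.as_right r x q, hA.as_left r q x, neg_neg]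
  have s0 := hA.as_right (p * q) x r
  have s1 := hA.as_right (p * r) x q
  have s2 := hA.as_right (p * x) r q
  have s3 := hA.as_right (q * p) x r
  have s4 := hA.as_right (q * r) x p
  have s5 := hA.as_right (q * x) r p
  have s6 := hA.as_right (r * p) x q
  have s7 := hA.as_right (r * q) x p
  have s8 := hA.as_right (r * x) q p
  have s9 := hA.as_right (x * p) r q
  have s10 := hA.as_right (x * q) r p
  have s11 := hA.as_right (x * r) q p
  have t0 := T hA p q r x
  have t1 := T hA p q x r
  have t2 := T hA p r q x
  have t3 := T hA p r x q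
  have t4 := T hA p x q r
  have t5 := T hA p x r q
  have t6 := T hA q r p x
  have t7 := T hA q x p r
  have t8 := T hA x p q r
  simp only [e0, e1, e2, e3, e4, e5, e6, e7, e8, e9, e10, e11, e12, e13, e14, e15, e16, e17, e18, e19, s0, s1, s2, s3, s4, s5, s6, s7, s8, s9, s10, s11, mul_neg, neg_mul] at t0 t1 t2 t3 t4 t5 t6 t7 t8 ⊢
  linear_combination (norm := abel) (1 : ℤ) • t0 + (1 : ℤ) • t1 + (1 : ℤ) • t2 + (-1 : ℤ) • t3 + (1 : ℤ) • t4 + (-1 : ℤ) • t5 + (-2 : ℤ) • t6 + (-2 : ℤ) • t7 + (2 : ℤ) • t8


/-- `D_{p,q} x = [[p,q],x] - 3 (p,q,x)` written out -/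
def dd (p q x : A) : A := (p * q - q * p) * x - x * (p * q - q * p) - (3 : ℤ) • as p q x

omit hA in
lemma as_add1 (a a' b c : A) : as (a + a') b c = as a b c + as a' b c := by
  unfold as; simp only [add_mul]; abel
omit hA in
lemma as_add2 (a b b' c : A) : as a (b + b') c = as a b c + as a b' c := by
  unfold as; simp only [add_mul, mul_add]; abel
omit hA in
lemma as_add3 (a b c c' : A) : as a b (c + c') = as a b c + as a b c' := by
  unfold as; simp only [mul_add]; abel
omit hA in
lemma as_sub1 (a a' b c : A) : as (a - a') b c = as a b c - as a' b c := by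
  unfold as; simp only [sub_mul]; abel

lemma as_cyc (a b c : A) : as a b c = as b c a := by
  rw [hA.as_left a b c, hA.as_right b a c, neg_neg]

lemma as_self12 (a b : A) : as a a b = 0 := by
  unfold as; rw [hA.left, sub_self]

lemma as_self13 (a b : A) : as a b a = 0 := by
  rw [as_cyc hA, as_cyc hA]; exact as_self12 hA a b

lemma eq_zero_of_two (h2 : ∀ a : A, (2 : ℤ) • a = 0 → a = 0) {a : A} (h : (2 : ℤ) • a = 0) : a = 0 :=
  h2 a h

/-- `D_{p,q}` is a derivation -/
lemma dd_mul (h2 : ∀ a : A, (2 : ℤ) • a = 0 → a = 0) (p q x y : A) :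
    dd p q (x * y) = dd p q x * y + x * dd p q y := by
  have h := h2 _ (I1aux hA p q x y)
  have c1 : as p q (x * y) = as (x * y) p q := by rw [as_cyc hA p q, as_cyc hA q]
  have c2 : ∀ c : A, c * (x * y) - (c * x) * y = - as c x y := by
    intro c; unfold as; abel
  have c3 : ∀ c : A, (x * c) * y - x * (c * y) = - as c x y := by
    intro c; rw [hA.as_left c x y, neg_neg]; rfl
  have c4 : ∀ c : A, - ((x * y) * c) + x * (y * c) = - as c x y := by
    intro c; rw [as_cyc hA c x y]; unfold as; abel
  have c5 : as (p * q - q * p) x y = as (p * q) x y - as (q * p) x y := as_sub1 _ _ _ _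
  have d2 := c2 (p * q - q * p)
  have d3 := c3 (p * q - q * p)
  have d4 := c4 (p * q - q * p)
  rw [c5] at d2 d3 d4
  unfold dd
  rw [c1]
  simp only [sub_mul (_ - _) _ y, sub_mul (_ * x) _ y, mul_sub x _ (_ • _), mul_sub x (_ * y) _,
    smul_mul_assoc, mul_smul_comm]
  generalize p * q - q * p = c at *
  rw [← sub_eq_zero]
  have e : c * (x * y) - x * y * c - (3 : ℤ) • as (x * y) p q -
      (c * x * y - x * c * y - (3 : ℤ) • (as p q x * y) + (x * (c * y) - x * (y * c) -
        (3 : ℤ) • (x * as p q y))) =
      (c * (x * y) - c * x * y) + (x * c * y - x * (c * y)) + (-(x * y * c) + x * (y * c)) +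
      (3 : ℤ) • (as p q x * y + x * as p q y - as (x * y) p q) := by
    simp only [smul_add, smul_sub]; abel
  rw [e, d2, d3, d4]
  have e2 : -(as (p * q) x y - as (q * p) x y) + -(as (p * q) x y - as (q * p) x y) +
      -(as (p * q) x y - as (q * p) x y) + (3 : ℤ) • (as p q x * y + x * as p q y - as (x * y) p q) =
      (3 : ℤ) • (as p q x * y + x * as p q y - as (x * y) p q - as (p * q) x y + as (q * p) x y) := by
    simp only [smul_add, smul_sub]; abel
  rw [e2, h, smul_zero]

/-- the cyclic identity -/
lemma dd_cyc (h2 : ∀ a : A, (2 : ℤ) • a = 0 → a = 0) (p q r x : A) :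
    dd (p * q) r x + dd (q * r) p x + dd (r * p) q x = 0 := by
  have h := h2 _ (I2aux hA p q r x)
  have e1 : ((p * q) * r - r * (p * q)) + ((q * r) * p - p * (q * r)) + ((r * p) * q - q * (r * p)) =
      (3 : ℤ) • as p q r := by
    have a1 : as q r p = as p q r := (as_cyc hA p q r).symm
    have a2 : as r p q = as p q r := by rw [as_cyc hA r p q]
    have : ((p * q) * r - r * (p * q)) + ((q * r) * p - p * (q * r)) + ((r * p) * q - q * (r * p)) =
      as p q r + as q r p + as r p q := by unfold as; abel
    rw [this, a1, a2]; abel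
  unfold dd
  generalize (p * q) * r - r * (p * q) = u at *
  generalize (q * r) * p - p * (q * r) = v at *
  generalize (r * p) * q - q * (r * p) = w at *
  have e2 : u * x - x * u - (3 : ℤ) • as (p * q) r x + (v * x - x * v - (3 : ℤ) • as (q * r) p x) +
      (w * x - x * w - (3 : ℤ) • as (r * p) q x) =
      (u + v + w) * x - x * (u + v + w) - (3 : ℤ) • (as (p * q) r x + as (q * r) p x + as (r * p) q x) := by
    simp only [smul_add, add_mul, mul_add]; abel
  rw [e2, e1]
  simp only [smul_mul_assoc, mul_smul_comm]
  have e3 : (3 : ℤ) • (as p q r * x) - (3 : ℤ) • (x * as p q r) -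
      (3 : ℤ) • (as (p * q) r x + as (q * r) p x + as (r * p) q x) =
      - ((3 : ℤ) • (as (p * q) r x + as (q * r) p x + as (r * p) q x - as p q r * x + x * as p q r)) := by
    simp only [smul_add, smul_sub]; abel
  rw [e3, h, smul_zero, neg_zero]

end
end Pool.Agent.W429.ABG
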