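import Pool.Agent.W429.ABG.Stmts2
set_option autoImplicit false
set_option linter.unusedSimpArgs false
set_option linter.unusedSectionVars false

/-! Joint eigenspaces; diagonal derivations on the exterior algebra. -/

namespace Pool.Agent.W429.ABG
open Module
attribute [local instance 100] LieRing.ofAssociativeRing

theorem wb : S_WB := by
  classical
  intro k _ _ M ι J _ _ T b c hT γ
  have h1 : (⨅ i, (T i).eigenspace ((γ i : ℤ) : k)) = Submodule.span k (b '' {j | c j = γ}) := by
    apply le_antisymm
    · intro x hx
      rw [Submodule.mem_iInf] at hx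
      rw [Basis.mem_span_image]
      intro j hj
      have hj' : b.repr x j ≠ 0 := by
        intro h
        exact (Finsupp.mem_support_iff.mp hj) h
      show c j = γ
      funext i
      have h2 := Module.End.mem_eigenspace_iff.mp (hx i)
      have h3 : b.repr (T i x) j = ((c j i : ℤ) : k) * b.repr x j := by
        have : (b.coord j) ∘ₗ (T i) = ((c j i : ℤ) : k) • b.coord j := by
          apply b.ext
          intro j'
          rw [LinearMap.comp_apply, hT, map_smul, LinearMap.smul_apply, Basis.coord_apply,
            Basis.repr_self, Finsupp.single_apply]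
          split_ifs with h
          · subst h; rfl
          · simp
        have := LinearMap.congr_fun this x
        simpa using this
      rw [h2, map_smul] at h3
      have h4 : ((γ i : ℤ) : k) * b.repr x j = ((c j i : ℤ) : k) * b.repr x j := h3
      have h5 := mul_right_cancel₀ hj' h4
      exact (Int.cast_injective h5).symm
    · rw [Submodule.span_le]
      rintro x ⟨j, hj, rfl⟩
      rw [SetLike.mem_coe, Submodule.mem_iInf]
      intro i
      rw [Module.End.mem_eigenspace_iff, hT]
      have : c j = γ := hj
      rw [this]
  refine ⟨h1, fun hfin => ?_⟩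
  rw [h1]
  have hli : LinearIndependent k (fun j : {j | c j = γ} => b j) :=
    b.linearIndependent.comp _ Subtype.val_injective
  have hr : b '' {j | c j = γ} = Set.range (fun j : {j | c j = γ} => b j) := by
    ext x; simp
  rw [hr]
  have := hfin.fintype
  rw [finrank_span_eq_card hli, Set.ncard_eq_toFinset_card', Set.toFinset_card]

section
variable {k : Type} [Field k] [CharZero k] {L : Type} [AddCommGroup L] [Module k L]

lemma der_ιMulti (D : Module.End k L) (n : ℕ) (v : Fin n → L) (c : Fin n → k)
    (h : ∀ i, D (v i) = c i • v i) :
    der D (ExteriorAlgebra.ιMulti k n v) = (∑ i, c i) • ExteriorAlgebra.ιMulti k n v := by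
  induction n with
  | zero => rw [ExteriorAlgebra.ιMulti_zero_apply, der_one]; simp
  | succ n ih =>
    rw [ExteriorAlgebra.ιMulti_succ_apply, der_ι_mul, h 0,
      ih (Matrix.vecTail v) (fun i => c i.succ) (fun i => h i.succ), Fin.sum_univ_succ, map_smul,
      smul_mul_assoc, mul_smul_comm, ← add_smul]

end

theorem ext' : S_Ext := by
  intro k _ _ L J _ _ _ b
  refine ⟨?_, ?_, ?_⟩
  · intro D c hD T
    have hT : b.ExteriorAlgebra T = ExteriorAlgebra.ιMulti k T.card
        (fun i => b (T.orderEmbOfFin rfl i)) := by
      rw [ExteriorAlgebra.basis_apply_ofCard b (rfl : T.card = T.card)]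
      rfl
    rw [hT, der_ιMulti D T.card _ (fun i => c (T.orderEmbOfFin rfl i)) (fun i => hD _)]
    congr 1
    have := Finset.sum_map Finset.univ (T.orderEmbOfFin rfl).toEmbedding c
    rw [Finset.map_orderEmbOfFin_univ] at this
    rw [this]
    rfl
  · intro T
    have := ExteriorAlgebra.basis_eq_coe_basis b ⟨T, (Set.powersetCard.mem_iff).mpr rfl⟩
    rw [this]
    exact Subtype.property _
  · intro n
    apply le_antisymm
    · intro x hx
      have h := (b.exteriorPower n).mem_span ⟨x, hx⟩
      have h2 := Submodule.mem_map_of_mem (f := (⋀[k]^n L).subtype) h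
      rw [Submodule.map_span] at h2
      refine Submodule.span_mono ?_ h2
      rintro _ ⟨_, ⟨s, rfl⟩, rfl⟩
      refine ⟨s.1, ?_, ?_⟩
      · exact (Set.powersetCard.mem_iff).mp s.2
      · exact ExteriorAlgebra.basis_eq_coe_basis b s
    · rw [Submodule.span_le]
      rintro _ ⟨T, hT, rfl⟩
      have := ExteriorAlgebra.basis_eq_coe_basis b ⟨T, (Set.powersetCard.mem_iff).mpr hT⟩
      rw [this]
      exact Subtype.property _

end Pool.Agent.W429.ABG
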