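import Pool.Agent.W429.ABG.Der
import Pool.Agent.W429.ABG.Ext
set_option autoImplicit false
set_option linter.unusedSimpArgs false
set_option linter.unusedSectionVars false

/-! Homogeneous bases of `ABG(A)` and of its exterior algebra. -/

namespace Pool.Agent.W429.ABG
open Module TensorProduct
open Pool.Agent.W708.ABG (bas B B_apply wts h1_bas h2_bas)
attribute [local instance 100] LieRing.ofAssociativeRing

/-- homogeneous bases of `A` and `B(A)` -/
structure Dat (k : Type) [Field k] [CharZero k] (A : Type) [NonUnitalNonAssocRing A] [Module k A]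
    [IsScalarTower k A A] [SMulCommClass k A A] where
  δ : Fin 9 → Module.End k A
  hδ : ∀ i a b, δ i (a * b) = δ i a * b + a * δ i b
  JA : Type
  bA : Basis JA k A
  dA : JA → Fin 9 → ℕ
  JB : Type
  bB : Basis JB k (BA k A)
  pB : JB → JA × JA
  hA : ∀ i j, δ i (bA j) = ((dA j i : ℕ) : k) • bA j
  hne : ∀ j, dA j ≠ 0
  hfin : ∀ γ, {j | dA j = γ}.Finite
  hprod : ∀ j, 2 ≤ ∑ i, dA j i → bA j ∈ Submodule.span k {x | ∃ a b : A, x = a * b}
  hB : ∀ j, bB j = wdg k (bA (pB j).1) (bA (pB j).2)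
  hinj : Function.Injective pB

/-- the permutation relating two orderings of the basis of `sl₃` -/
def tau : Equiv.Perm (Fin 8) :=
  ⟨![6, 7, 0, 3, 1, 4, 2, 5], ![2, 4, 6, 3, 5, 7, 0, 1], by decide, by decide⟩

lemma wts_tau : ∀ i, wts (tau i) = w8 i := by decide

lemma span_inter {k M J : Type} [Field k] [AddCommGroup M] [Module k M] (b : Basis J k M)
    (s t : Set J) : Submodule.span k (b '' s) ⊓ Submodule.span k (b '' t) =
      Submodule.span k (b '' (s ∩ t)) := by
  ext x
  rw [Submodule.mem_inf, Basis.mem_span_image, Basis.mem_span_image, Basis.mem_span_image,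
    Set.subset_inter_iff]

lemma finrank_span_image {k M J : Type} [Field k] [AddCommGroup M] [Module k M] (b : Basis J k M)
    (s : Set J) (hs : s.Finite) : finrank k (Submodule.span k (b '' s)) = s.ncard := by
  have hli : LinearIndependent k (fun j : s => b j) :=
    b.linearIndependent.comp _ Subtype.val_injective
  have hr : b '' s = Set.range (fun j : s => b j) := by
    ext x; simp
  rw [hr]
  have := hs.fintype
  rw [finrank_span_eq_card hli, Set.ncard_eq_toFinset_card', Set.toFinset_card]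

namespace Dat
variable {k : Type} [Field k] [CharZero k]
variable {A : Type} [NonUnitalNonAssocRing A] [Module k A] [IsScalarTower k A A] [SMulCommClass k A A]
variable [hAlt : AltAlg A] (D : Dat k A)

/-- index type of the basis of `ABG(A)` -/
abbrev J : Type := (Fin 8 × D.JA) ⊕ D.JB

/-- the basis of `sl₃` -/
noncomputable def bs (k : Type) [Field k] : Basis (Fin 8) k (sl3 k) := (B k).reindex tau.symm

omit [CharZero k] in
lemma bs_apply (i : Fin 8) : bs k i = bas k (tau i) := by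
  rw [bs, Basis.reindex_apply, Equiv.symm_symm, B_apply]

/-- the basis of `ABG(A)` -/
noncomputable def bL : Basis D.J k (ABG k A) :=
  (((bs k).tensorProduct D.bA).prod D.bB : Basis D.J k ((sl3 k ⊗[k] A) × BA k A))

lemma bL_inl (i : Fin 8) (j : D.JA) : D.bL (Sum.inl (i, j)) = inS k (bas k (tau i) ⊗ₜ[k] D.bA j) := by
  show (((bs k).tensorProduct D.bA).prod D.bB : Basis D.J k ((sl3 k ⊗[k] A) × BA k A))
    (Sum.inl (i, j)) = _
  rw [Basis.prod_apply]
  simp only [Sum.elim_inl, Function.comp_apply, LinearMap.inl_apply, Basis.tensorProduct_apply,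
    bs_apply]
  rfl

lemma bL_inr (j : D.JB) : D.bL (Sum.inr j) = inB k (D.bB j) := by
  show (((bs k).tensorProduct D.bA).prod D.bB : Basis D.J k ((sl3 k ⊗[k] A) × BA k A))
    (Sum.inr j) = _
  rw [Basis.prod_apply]
  simp only [Sum.elim_inr, Function.comp_apply, LinearMap.inr_apply]
  rfl

/-- multidegree -/
def mdeg : D.J → Fin 9 → ℕ := Sum.elim (fun p => D.dA p.2) (fun j => D.dA (D.pB j).1 + D.dA (D.pB j).2)

/-- weight -/
def wtJ : D.J → ℤ × ℤ := Sum.elim (fun p => w8 p.1) (fun _ => 0)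

/-- the derivation `Δ_i` of `ABG(A)` -/
noncomputable def Del (i : Fin 9) : Module.End k (ABG k A) := Delta k (D.δ i) (D.hδ i)

lemma Del_bL (i : Fin 9) (j : D.J) : D.Del i (D.bL j) = ((D.mdeg j i : ℕ) : k) • D.bL j := by
  rcases j with ⟨a, j⟩ | j
  · rw [bL_inl]
    apply abg_ext
    · rw [Del, Delta_fst]
      show lT k (D.δ i) (bas k (tau a) ⊗ₜ[k] D.bA j) = ((D.dA j i : ℕ) : k) • (bas k (tau a) ⊗ₜ[k] D.bA j)
      rw [lT_tmul, D.hA, TensorProduct.tmul_smul]
    · rw [Del, Delta_snd]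
      show derB k (D.δ i) (D.hδ i) 0 = ((D.dA j i : ℕ) : k) • (0 : BA k A)
      rw [map_zero, smul_zero]
  · rw [bL_inr]
    apply abg_ext
    · rw [Del, Delta_fst]
      show lT k (D.δ i) 0 = _ • (0 : sl3 k ⊗[k] A)
      rw [map_zero, smul_zero]
    · rw [Del, Delta_snd]
      show derB k (D.δ i) (D.hδ i) (D.bB j) =
        ((D.dA (D.pB j).1 i + D.dA (D.pB j).2 i : ℕ) : k) • D.bB j
      rw [D.hB, derB_wdg, D.hA, D.hA, wdg_smul_left, wdg_smul_right, ← add_smul, Nat.cast_add]

lemma sig_bL (h : sl3 k) (f : Fin 8 → k) (hf : ∀ i, ⁅h, bas k i⁆ = f i • bas k i) (j : D.J) :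
    sigma k A h (D.bL j) = (Sum.elim (fun p : Fin 8 × D.JA => f (tau p.1)) (fun _ => 0) j : k) • D.bL j := by
  rcases j with ⟨a, j⟩ | j
  · rw [bL_inl]
    apply abg_ext
    · show adT k A h (bas k (tau a) ⊗ₜ[k] D.bA j) = f (tau a) • (bas k (tau a) ⊗ₜ[k] D.bA j)
      rw [adT_tmul, hf, TensorProduct.smul_tmul']
    · show (0 : BA k A) = _ • (0 : BA k A)
      rw [smul_zero]
  · rw [bL_inr]
    apply abg_ext
    · show adT k A h 0 = _ • (0 : sl3 k ⊗[k] A)
      rw [map_zero, smul_zero]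
    · show (0 : BA k A) = (0 : k) • D.bB j
      rw [zero_smul]

lemma sig1_bL (j : D.J) : sigma k A (h1 k) (D.bL j) = (((D.wtJ j).1 : ℤ) : k) • D.bL j := by
  rw [D.sig_bL (h1 k) _ (h1_bas k)]
  congr 1
  rcases j with ⟨a, j⟩ | j
  · simp only [Sum.elim_inl, wts_tau, wtJ]
  · simp [wtJ]

lemma sig2_bL (j : D.J) : sigma k A (h2 k) (D.bL j) = (((D.wtJ j).2 : ℤ) : k) • D.bL j := by
  rw [D.sig_bL (h2 k) _ (h2_bas k)]
  congr 1
  rcases j with ⟨a, j⟩ | j
  · simp only [Sum.elim_inl, wts_tau, wtJ]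
  · simp [wtJ]

/-- a linear order on the index type (needed for the basis of the exterior algebra) -/
noncomputable instance : LinearOrder D.J := by
  classical
  exact linearOrderOfSTO WellOrderingRel

/-- the basis of the exterior algebra -/
noncomputable def bE : Basis (Finset D.J) k (Lam k A) := D.bL.ExteriorAlgebra

/-- multidegree of a finite set of basis vectors -/
def mdegS (T : Finset D.J) : Fin 9 → ℤ := fun i => ∑ j ∈ T, (D.mdeg j i : ℤ)

/-- weight of a finite set of basis vectors -/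
def wtS (T : Finset D.J) : ℤ × ℤ := ∑ j ∈ T, D.wtJ j

lemma Del_bE (i : Fin 9) (T : Finset D.J) :
    der (D.Del i) (D.bE T) = ((D.mdegS T i : ℤ) : k) • D.bE T := by
  have h := (ext' k (ABG k A) D.J D.bL).1 (D.Del i) (fun j => ((D.mdeg j i : ℕ) : k)) (D.Del_bL i) T
  rw [bE, h]
  congr 1
  unfold mdegS
  push_cast
  rfl

lemma sig1_bE (T : Finset D.J) :
    der (sigma k A (h1 k)) (D.bE T) = (((D.wtS T).1 : ℤ) : k) • D.bE T := by
  have h := (ext' k (ABG k A) D.J D.bL).1 (sigma k A (h1 k)) _ (D.sig1_bL) T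
  rw [bE, h]
  congr 1
  unfold wtS
  rw [Prod.fst_sum]
  push_cast
  rfl

lemma sig2_bE (T : Finset D.J) :
    der (sigma k A (h2 k)) (D.bE T) = (((D.wtS T).2 : ℤ) : k) • D.bE T := by
  have h := (ext' k (ABG k A) D.J D.bL).1 (sigma k A (h2 k)) _ (D.sig2_bL) T
  rw [bE, h]
  congr 1
  unfold wtS
  rw [Prod.snd_sum]
  push_cast
  rfl

lemma ext_eq (n : ℕ) : (⋀[k]^n (ABG k A) : Submodule k (Lam k A)) =
    Submodule.span k (D.bE '' {T | T.card = n}) := (ext' k (ABG k A) D.J D.bL).2.2 n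

/-- multigraded pieces of the exterior algebra -/
noncomputable def EE (γ : Fin 9 → ℤ) : Submodule k (Lam k A) :=
  ⨅ i, (der (D.Del i)).eigenspace ((γ i : ℤ) : k)

lemma EE_eq (γ : Fin 9 → ℤ) : D.EE γ = Submodule.span k (D.bE '' {T | D.mdegS T = γ}) :=
  (wb k (Lam k A) (Fin 9) (Finset D.J) (fun i => der (D.Del i)) D.bE D.mdegS D.Del_bE γ).1

lemma mem_EE {γ : Fin 9 → ℤ} {w : Lam k A} :
    w ∈ D.EE γ ↔ ∀ i, der (D.Del i) w = ((γ i : ℤ) : k) • w := by
  unfold EE
  rw [Submodule.mem_iInf]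
  exact forall_congr' fun i => Module.End.mem_eigenspace_iff

/-- weight spaces of the exterior algebra -/
lemma wt_eq (μ : ℤ × ℤ) : wt k (Lam k A) μ = Submodule.span k (D.bE '' {T | D.wtS T = μ}) := by
  have h := (wb k (Lam k A) (Fin 2) (Finset D.J)
    ![der (sigma k A (h1 k)), der (sigma k A (h2 k))] D.bE (fun T => ![(D.wtS T).1, (D.wtS T).2])
    (by
      intro i T
      fin_cases i
      · exact D.sig1_bE T
      · exact D.sig2_bE T) ![μ.1, μ.2]).1
  have e1 : (⨅ i : Fin 2, ((![der (sigma k A (h1 k)), der (sigma k A (h2 k))] : Fin 2 → _) i).eigenspace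
      ((((![μ.1, μ.2] : Fin 2 → ℤ) i : ℤ)) : k)) = wt k (Lam k A) μ := by
    ext w
    rw [Submodule.mem_iInf, Fin.forall_fin_two]
    rfl
  rw [← e1, h]
  congr 2
  ext T
  constructor
  · intro hT
    have h0 := congrFun hT 0
    have h1 := congrFun hT 1
    exact Prod.ext h0 h1
  · intro hT
    have : D.wtS T = μ := hT
    show ![(D.wtS T).1, (D.wtS T).2] = ![μ.1, μ.2]
    rw [this]

lemma dCE_EE {γ : Fin 9 → ℤ} {w : Lam k A} (hw : w ∈ D.EE γ) : dCE w ∈ D.EE γ := by
  rw [mem_EE] at *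
  intro i
  have h := der_dCE (D.Del i) (Delta_der k (D.δ i) (D.hδ i)) w
  rw [h, hw i, map_smul]

lemma lie_EE {γ : Fin 9 → ℤ} {w : Lam k A} (hw : w ∈ D.EE γ) (X : sl3 k) :
    der (sigma k A X) w ∈ D.EE γ := by
  rw [mem_EE] at *
  intro i
  have h : der (D.Del i * sigma k A X - sigma k A X * D.Del i) = 0 := by
    have : D.Del i * sigma k A X - sigma k A X * D.Del i = 0 := by
      refine LinearMap.ext fun x => ?_
      rw [LinearMap.sub_apply, Module.End.mul_apply, Module.End.mul_apply, LinearMap.zero_apply,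
        sub_eq_zero]
      exact Delta_sigma k (D.δ i) (D.hδ i) X x
    rw [this, map_zero]
  rw [der_comm] at h
  have h2 := LinearMap.congr_fun h w
  rw [LinearMap.sub_apply, Module.End.mul_apply, Module.End.mul_apply, LinearMap.zero_apply,
    sub_eq_zero] at h2
  rw [h2, hw i, map_smul]

end Dat

end Pool.Agent.W429.ABG
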