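import Pool.Agent.W429.ABG.Asm1
set_option autoImplicit false
set_option linter.unusedSimpArgs false
set_option linter.unusedSectionVars false

/-! The multigraded pieces of the Chevalley-Eilenberg complex of `ABG(A)` and their homology. -/

namespace Pool.Agent.W429.ABG
open Module TensorProduct
attribute [local instance 100] LieRing.ofAssociativeRing

section quot
variable {k : Type} [Field k] [CharZero k] {M : Type} [AddCommGroup M] [Module k M]
  [LieRingModule (sl3 k) M] [LieModule k (sl3 k) M]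
  (Z Z' B B' : LieSubmodule k (sl3 k) M) (hZ : Z' ≤ Z) (hB : B' ≤ B)

/-- the map of subquotients -/
noncomputable def qmap : (↥Z' ⧸ B'.comap Z'.incl) →ₗ⁅k, sl3 k⁆ (↥Z ⧸ B.comap Z.incl) :=
  { Submodule.mapQ (B'.comap Z'.incl).toSubmodule (B.comap Z.incl).toSubmodule
      (Submodule.inclusion (show Z'.toSubmodule ≤ Z.toSubmodule from hZ)) (by
        intro x hx
        exact hB hx) with
    map_lie' := by
      intro X x
      obtain ⟨x, rfl⟩ := LieSubmodule.Quotient.surjective_mk' _ x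
      rfl }

lemma qmap_mk (x : Z') : qmap Z Z' B B' hZ hB (LieSubmodule.Quotient.mk' _ x) =
    LieSubmodule.Quotient.mk' (B.comap Z.incl) ⟨x.1, hZ x.2⟩ := rfl

lemma qmap_inj (h : ∀ x ∈ Z', x ∈ B → x ∈ B') : Function.Injective (qmap Z Z' B B' hZ hB) := by
  rw [injective_iff_map_eq_zero]
  intro x hx
  obtain ⟨x, rfl⟩ := LieSubmodule.Quotient.surjective_mk' _ x
  rw [qmap_mk, LieSubmodule.Quotient.mk_eq_zero] at hx
  rw [LieSubmodule.Quotient.mk_eq_zero]
  exact h x.1 x.2 hx

include hZ hB in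
lemma quot_transfer (h : ∀ x ∈ Z', x ∈ B → x ∈ B')
    (hN : NoTrivial k (↥Z ⧸ B.comap Z.incl) ∧ NoAdjoint k (↥Z ⧸ B.comap Z.incl)) :
    NoTrivial k (↥Z' ⧸ B'.comap Z'.incl) ∧ NoAdjoint k (↥Z' ⧸ B'.comap Z'.incl) := by
  have hi := qmap_inj Z Z' B B' hZ hB h
  constructor
  · intro x hx
    apply hi
    rw [map_zero]
    apply hN.1
    intro X
    rw [← LieModuleHom.map_lie, hx X, map_zero]
  · intro φ
    have h2 := hN.2 ((qmap Z Z' B B' hZ hB).comp φ)
    apply LieModuleHom.ext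
    intro X
    apply hi
    have := congrArg (fun ψ : sl3 k →ₗ⁅k, sl3 k⁆ (↥Z ⧸ B.comap Z.incl) => ψ X) h2
    simpa using this

end quot

namespace Dat
variable {k : Type} [Field k] [CharZero k]
variable {A : Type} [NonUnitalNonAssocRing A] [Module k A] [IsScalarTower k A A] [SMulCommClass k A A]
variable [hAlt : AltAlg A] (D : Dat k A)

/-- indicator function of a subset -/
def ind (S : Finset (Fin 9)) : Fin 9 → ℤ := fun i => if i ∈ S then 1 else 0

/-- the piece of exterior degree `n` and multidegree `S` -/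
noncomputable def CC (S : Finset (Fin 9)) (n : ℕ) : LieSubmodule k (sl3 k) (Lam k A) where
  __ := (⋀[k]^n (ABG k A) ⊓ D.EE (ind S) : Submodule k (Lam k A))
  lie_mem := by
    rintro X w ⟨h1, h2⟩
    exact ⟨der_mem _ h1, D.lie_EE h2 X⟩

lemma mem_CC {S : Finset (Fin 9)} {n : ℕ} {w : Lam k A} :
    w ∈ D.CC S n ↔ w ∈ (⋀[k]^n (ABG k A) : Submodule k (Lam k A)) ∧ w ∈ D.EE (ind S) := Iff.rfl

/-- the index set of the basis of `CC S n` -/
def idx (S : Finset (Fin 9)) (n : ℕ) : Set (Finset D.J) := {T | T.card = n} ∩ {T | D.mdegS T = ind S}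

lemma CC_eq (S : Finset (Fin 9)) (n : ℕ) :
    (D.CC S n).toSubmodule = Submodule.span k (D.bE '' (D.idx S n)) := by
  show (⋀[k]^n (ABG k A) ⊓ D.EE (ind S) : Submodule k (Lam k A)) = _
  rw [D.ext_eq, D.EE_eq, span_inter]
  rfl

lemma bE_mem {S : Finset (Fin 9)} {n : ℕ} {T : Finset D.J} (hT : T ∈ D.idx S n) :
    D.bE T ∈ D.CC S n := by
  show D.bE T ∈ (D.CC S n).toSubmodule
  rw [CC_eq]
  exact Submodule.subset_span ⟨T, hT, rfl⟩

variable (k A) in
/-- the differential as a homomorphism of `sl₃`-modules -/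
noncomputable def dHom : Lam k A →ₗ⁅k, sl3 k⁆ Lam k A :=
  { (dCE : Module.End k (Lam k A)) with
    map_lie' := by
      intro X w
      exact (der_dCE _ (sigma_der k A X) w).symm }

lemma dHom_apply (w : Lam k A) : dHom k A w = dCE w := rfl

/-- cycles -/
noncomputable def ZZ (S : Finset (Fin 9)) (n : ℕ) : LieSubmodule k (sl3 k) (Lam k A) :=
  D.CC S n ⊓ (dHom k A).ker

lemma mem_ZZ {S : Finset (Fin 9)} {n : ℕ} {w : Lam k A} :
    w ∈ D.ZZ S n ↔ w ∈ D.CC S n ∧ dHom k A w = 0 := by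
  rw [ZZ, LieSubmodule.mem_inf, LieModuleHom.mem_ker]

/-- boundaries -/
noncomputable def BB (S : Finset (Fin 9)) (n : ℕ) : LieSubmodule k (sl3 k) (Lam k A) :=
  (D.CC S (n + 1)).map (dHom k A)

lemma mem_BB {S : Finset (Fin 9)} {n : ℕ} {w : Lam k A} :
    w ∈ D.BB S n ↔ ∃ y ∈ D.CC S (n + 1), dHom k A y = w := by
  rw [BB, LieSubmodule.mem_map]

lemma dCE_ext {n : ℕ} {w : Lam k A} (hw : w ∈ (⋀[k]^n (ABG k A) : Submodule k (Lam k A))) :
    dCE w ∈ (⋀[k]^(n - 1) (ABG k A) : Submodule k (Lam k A)) ∧ (n = 0 → dCE w = 0) :=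
  dCE_mem hw

lemma d_CC0 (S : Finset (Fin 9)) : ∀ w ∈ D.CC S 0, dHom k A w = 0 := by
  intro w hw
  exact (dCE_ext hw.1).2 rfl

lemma d_CC (S : Finset (Fin 9)) (n : ℕ) : ∀ w ∈ D.CC S (n + 1), dHom k A w ∈ D.CC S n := by
  intro w hw
  exact ⟨(dCE_ext hw.1).1, D.dCE_EE hw.2⟩

/-- projection to a multigraded piece -/
noncomputable def proj (γ : Fin 9 → ℤ) : Module.End k (Lam k A) := by
  classical
  exact D.bE.constr k (fun T => if D.mdegS T = γ then D.bE T else 0)

lemma proj_bE (γ : Fin 9 → ℤ) [Decidable (D.mdegS ∅ = γ)] (T : Finset D.J) [Decidable (D.mdegS T = γ)] :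
    D.proj γ (D.bE T) = if D.mdegS T = γ then D.bE T else 0 := by
  unfold proj
  rw [Basis.constr_basis]
  split_ifs <;> rfl

lemma proj_EE {γ γ' : Fin 9 → ℤ} {w : Lam k A} (hw : w ∈ D.EE γ') (h : γ' = γ) :
    D.proj γ w = w := by
  classical
  subst h
  rw [EE_eq] at hw
  induction hw using Submodule.span_induction with
  | mem x hx =>
    obtain ⟨T, hT, rfl⟩ := hx
    rw [proj_bE]
    exact if_pos hT
  | zero => rw [map_zero]
  | add x y _ _ hx hy => rw [map_add, hx, hy]
  | smul c x _ hx => rw [map_smul, hx]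

lemma proj_EE' {γ γ' : Fin 9 → ℤ} {w : Lam k A} (hw : w ∈ D.EE γ') (h : γ' ≠ γ) :
    D.proj γ w = 0 := by
  classical
  rw [EE_eq] at hw
  induction hw using Submodule.span_induction with
  | mem x hx =>
    obtain ⟨T, hT, rfl⟩ := hx
    rw [proj_bE]
    refine if_neg ?_
    intro h2
    exact h (hT.symm.trans h2)
  | zero => rw [map_zero]
  | add x y _ _ hx hy => rw [map_add, hx, hy, add_zero]
  | smul c x _ hx => rw [map_smul, hx, smul_zero]

lemma proj_mem {γ : Fin 9 → ℤ} (w : Lam k A) : D.proj γ w ∈ D.EE γ := by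
  classical
  have h : w ∈ Submodule.span k (Set.range D.bE) := by rw [D.bE.span_eq]; trivial
  induction h using Submodule.span_induction with
  | mem x hx =>
    obtain ⟨T, rfl⟩ := hx
    rw [proj_bE]
    by_cases h : D.mdegS T = γ
    · rw [if_pos h, EE_eq]; exact Submodule.subset_span ⟨T, h, rfl⟩
    · rw [if_neg h]; exact Submodule.zero_mem _
  | zero => rw [map_zero]; exact Submodule.zero_mem _
  | add x y _ _ hx hy => rw [map_add]; exact Submodule.add_mem _ hx hy
  | smul c x _ hx => rw [map_smul]; exact Submodule.smul_mem _ _ hx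

lemma proj_ext {γ : Fin 9 → ℤ} {n : ℕ} {w : Lam k A}
    (hw : w ∈ (⋀[k]^n (ABG k A) : Submodule k (Lam k A))) :
    D.proj γ w ∈ (⋀[k]^n (ABG k A) : Submodule k (Lam k A)) := by
  classical
  rw [D.ext_eq] at hw ⊢
  induction hw using Submodule.span_induction with
  | mem x hx =>
    obtain ⟨T, hT, rfl⟩ := hx
    rw [proj_bE]
    split_ifs with h
    · exact Submodule.subset_span ⟨T, hT, rfl⟩
    · exact Submodule.zero_mem _
  | zero => rw [map_zero]; exact Submodule.zero_mem _
  | add x y _ _ hx hy => rw [map_add]; exact Submodule.add_mem _ hx hy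
  | smul c x _ hx => rw [map_smul]; exact Submodule.smul_mem _ _ hx

lemma bE_EE (T : Finset D.J) : D.bE T ∈ D.EE (D.mdegS T) := by
  rw [EE_eq]; exact Submodule.subset_span ⟨T, rfl, rfl⟩

lemma proj_dCE {γ : Fin 9 → ℤ} (w : Lam k A) : D.proj γ (dCE w) = dCE (D.proj γ w) := by
  classical
  have h : w ∈ Submodule.span k (Set.range D.bE) := by rw [D.bE.span_eq]; trivial
  induction h using Submodule.span_induction with
  | mem x hx =>
    obtain ⟨T, rfl⟩ := hx
    rw [proj_bE]
    split_ifs with h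
    · exact D.proj_EE (D.dCE_EE (D.bE_EE T)) h
    · rw [map_zero]; exact D.proj_EE' (D.dCE_EE (D.bE_EE T)) h
  | zero => rw [map_zero, map_zero, map_zero]
  | add x y _ _ hx hy => rw [map_add, map_add, hx, hy, map_add, map_add]
  | smul c x _ hx => rw [map_smul, map_smul, hx, map_smul, map_smul]

/-- a boundary in a multigraded piece bounds inside the piece -/
lemma bdy_CC {S : Finset (Fin 9)} {n : ℕ} {w : Lam k A} (hw : w ∈ D.CC S n)
    (hb : w ∈ Bn k A n) : w ∈ D.BB S n := by
  obtain ⟨v, hv, hvw⟩ := hb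
  have hvw' : dCE v = w := hvw
  rw [mem_BB]
  refine ⟨D.proj (ind S) v, ⟨D.proj_ext hv, D.proj_mem v⟩, ?_⟩
  rw [dHom_apply, ← proj_dCE, hvw', D.proj_EE hw.2 rfl]

lemma ZZ_le (S : Finset (Fin 9)) (n : ℕ) : D.ZZ S n ≤ Zn k A n := by
  intro w hw
  rw [mem_ZZ] at hw
  exact ⟨hw.1.1, hw.2⟩

lemma BB_le (S : Finset (Fin 9)) (n : ℕ) : D.BB S n ≤ Bn k A n := by
  intro w hw
  rw [mem_BB] at hw
  obtain ⟨y, hy, rfl⟩ := hw
  exact ⟨y, hy.1, rfl⟩

lemma transfer {n : ℕ} (S : Finset (Fin 9))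
    (h : NoTrivial k (Hn k A n) ∧ NoAdjoint k (Hn k A n)) :
    NoTrivial k (↥(D.ZZ S n) ⧸ (D.BB S n).comap (D.ZZ S n).incl) ∧
      NoAdjoint k (↥(D.ZZ S n) ⧸ (D.BB S n).comap (D.ZZ S n).incl) :=
  quot_transfer (Zn k A n) (D.ZZ S n) (Bn k A n) (D.BB S n) (D.ZZ_le S n) (D.BB_le S n)
    (fun _ hx hb => D.bdy_CC (D.mem_ZZ.mp hx).1 hb) h

/-! ### combinatorics of the index sets -/

/-- the support of the multidegree -/
def UJ (j : D.J) : Finset (Fin 9) := Finset.univ.filter (fun i => D.mdeg j i ≠ 0)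

lemma mdeg_ne (j : D.J) : D.mdeg j ≠ 0 := by
  rcases j with ⟨a, j⟩ | j
  · exact D.hne j
  · intro h
    apply D.hne (D.pB j).1
    funext i
    have h2 : D.dA (D.pB j).1 i + D.dA (D.pB j).2 i = 0 := congrFun h i
    have : D.dA (D.pB j).1 i = 0 := by omega
    exact this

lemma UJ_nonempty (j : D.J) : (D.UJ j).Nonempty := by
  by_contra h
  rw [Finset.not_nonempty_iff_eq_empty] at h
  apply D.mdeg_ne j
  funext i
  by_contra hi
  have : i ∈ D.UJ j := Finset.mem_filter.mpr ⟨Finset.mem_univ _, hi⟩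
  rw [h] at this
  exact absurd this (Finset.notMem_empty _)

lemma mdegS_iff {T : Finset D.J} {S : Finset (Fin 9)} :
    D.mdegS T = ind S ↔ (∀ j ∈ T, ∀ i, D.mdeg j i ≤ 1) ∧ (T : Set D.J).PairwiseDisjoint D.UJ ∧
      T.biUnion D.UJ = S := by
  classical
  constructor
  · intro h
    have hi : ∀ i, ∑ j ∈ T, D.mdeg j i = if i ∈ S then 1 else 0 := by
      intro i
      have := congrFun h i
      unfold mdegS ind at this
      have h2 : ((∑ j ∈ T, D.mdeg j i : ℕ) : ℤ) = ((if i ∈ S then 1 else 0 : ℕ) : ℤ) := by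
        push_cast
        rw [this]
      exact_mod_cast h2
    have hle : ∀ i, ∑ j ∈ T, D.mdeg j i ≤ 1 := by
      intro i; rw [hi]; split_ifs <;> omega
    refine ⟨fun j hj i => ?_, ?_, ?_⟩
    · exact (Finset.single_le_sum (f := fun j => D.mdeg j i) (fun _ _ => Nat.zero_le _) hj).trans (hle i)
    · intro j hj j' hj' hne
      rw [Function.onFun, Finset.disjoint_left]
      intro i h1 h2
      have h1' : D.mdeg j i ≠ 0 := (Finset.mem_filter.mp h1).2
      have h2' : D.mdeg j' i ≠ 0 := (Finset.mem_filter.mp h2).2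
      have h3 : D.mdeg j i + D.mdeg j' i ≤ ∑ j ∈ T, D.mdeg j i := by
        rw [← Finset.sum_pair (f := fun j => D.mdeg j i) hne]
        apply Finset.sum_le_sum_of_subset
        intro x hx
        rw [Finset.mem_insert, Finset.mem_singleton] at hx
        rcases hx with rfl | rfl
        · exact hj
        · exact hj'
      have := hle i
      omega
    · ext i
      rw [Finset.mem_biUnion]
      constructor
      · rintro ⟨j, hj, hji⟩
        by_contra hS
        have h1 := hi i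
        rw [if_neg hS, Finset.sum_eq_zero_iff] at h1
        exact (Finset.mem_filter.mp hji).2 (h1 j hj)
      · intro hS
        by_contra hcon
        push Not at hcon
        have h1 := hi i
        rw [if_pos hS, Finset.sum_eq_zero] at h1
        · exact absurd h1 (by norm_num)
        · intro j hj
          by_contra h2
          exact hcon j hj (Finset.mem_filter.mpr ⟨Finset.mem_univ _, h2⟩)
  · rintro ⟨h1, h2, rfl⟩
    funext i
    unfold mdegS ind
    by_cases hi : i ∈ T.biUnion D.UJ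
    · rw [if_pos hi]
      obtain ⟨j, hj, hji⟩ := Finset.mem_biUnion.mp hi
      have hz : ∀ j' ∈ T, j' ≠ j → ((D.mdeg j' i : ℕ) : ℤ) = 0 := by
        intro j' hj' hne
        by_contra h3
        have h4 : i ∈ D.UJ j' := Finset.mem_filter.mpr ⟨Finset.mem_univ _, fun h => h3 (by rw [h]; rfl)⟩
        exact Finset.disjoint_left.mp (h2 hj' hj hne) h4 hji
      rw [Finset.sum_eq_single_of_mem j hj hz]
      have h3 := (Finset.mem_filter.mp hji).2
      have h4 := h1 j hj i
      have : D.mdeg j i = 1 := by omega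
      rw [this]; rfl
    · rw [if_neg hi]
      apply Finset.sum_eq_zero
      intro j hj
      by_contra h3
      exact hi (Finset.mem_biUnion.mpr ⟨j, hj, Finset.mem_filter.mpr
        ⟨Finset.mem_univ _, fun h => h3 (by rw [h]; rfl)⟩⟩)

lemma card_le {T : Finset D.J} {S : Finset (Fin 9)} (h : D.mdegS T = ind S) : T.card ≤ S.card := by
  classical
  obtain ⟨_, h2, h3⟩ := D.mdegS_iff.mp h
  rw [← h3, Finset.card_biUnion h2, Finset.card_eq_sum_ones]
  exact Finset.sum_le_sum fun j _ => Finset.card_pos.mpr (D.UJ_nonempty j)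

end Dat

end Pool.Agent.W429.ABG
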