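import Pool.Agent.W429.ABG.Stmts2
import Pool.Agent.W327.ABG.Cnt
import Pool.Agent.W345.ABG.N
set_option autoImplicit false
set_option linter.unusedSimpArgs false

/-! Combination of the counting recursion and the numerics. -/

namespace Pool.Agent.W429.ABG

lemma sum_group {J : Type} (𝒥 : Finset J) (U : J → Finset (Fin 9)) (S : Finset (Fin 9)) (s : Fin 9)
    [DecidableEq (Finset (Fin 9))] (g : Finset (Fin 9) → ℤ) :
    ∑ j ∈ 𝒥, (if s ∈ U j ∧ U j ⊆ S then g (U j) else 0) =
      ∑ V ∈ S.powerset.filter (fun V => s ∈ V), (((𝒥.filter (fun j => U j = V)).card : ℕ) : ℤ) * g V := by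
  classical
  have h1 : ∀ V, (((𝒥.filter (fun j => U j = V)).card : ℕ) : ℤ) * g V =
      ∑ j ∈ 𝒥, if U j = V then g V else 0 := by
    intro V
    rw [← Finset.sum_filter, Finset.sum_const, nsmul_eq_mul]
  simp_rw [h1]
  rw [Finset.sum_comm]
  refine Finset.sum_congr rfl fun j _ => ?_
  rw [Finset.sum_ite_eq]
  simp only [Finset.mem_filter, Finset.mem_powerset]
  congr 1
  rw [and_comm]

theorem rec' : S_Rec := by
  classical
  intro JA JB 𝒥A 𝒥B UA UB hA hB h1A h1B hS
  have hC := Pool.Agent.W327.ABG.c (Fin 8 × JA ⊕ JB) 9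
    (((Finset.univ : Finset (Fin 8)) ×ˢ 𝒥A).disjSum 𝒥B)
        (Sum.elim (fun p => UA p.2) UB) (Sum.elim (fun p => w8 p.1) (fun _ => 0)) (by
      intro j hj
      rw [Finset.mem_disjSum] at hj
      rcases hj with ⟨p, hp, rfl⟩ | ⟨p, hp, rfl⟩
      · exact hA _ (Finset.mem_product.mp hp).2
      · exact hB _ hp)
  have key := Pool.Agent.W345.ABG.n (fun V => ((𝒥A.filter (fun j => UA j = V)).card : ℤ))
    (fun V => ((𝒥B.filter (fun j => UB j = V)).card : ℤ))
    (fun S μ => cnt (((Finset.univ : Finset (Fin 8)) ×ˢ 𝒥A).disjSum 𝒥B)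
        (Sum.elim (fun p => UA p.2) UB) (Sum.elim (fun p => w8 p.1) (fun _ => 0)) S μ)
    hC.1 ?_ ?_ ?_
  · have key2 : ((𝒥A.filter (fun j => UA j = Finset.univ)).card : ℤ) = 336364 := by
      convert key using 3
    exact_mod_cast key2
  · intro S s hs μ
    have h := hC.2 S s hs μ
    beta_reduce
    generalize hF : cnt (((Finset.univ : Finset (Fin 8)) ×ˢ 𝒥A).disjSum 𝒥B)
        (Sum.elim (fun p => UA p.2) UB) (Sum.elim (fun p => w8 p.1) (fun _ => 0)) = F at *
    rw [h]
    congr 1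
    rw [Finset.sum_filter, Finset.sum_disjSum, Finset.sum_product_right]
    have e1 : ∀ j, ∑ x : Fin 8, (if s ∈ Sum.elim (fun p : Fin 8 × JA => UA p.2) UB (Sum.inl (x, j)) ∧
        Sum.elim (fun p : Fin 8 × JA => UA p.2) UB (Sum.inl (x, j)) ⊆ S then
        F (S \ Sum.elim (fun p : Fin 8 × JA => UA p.2) UB (Sum.inl (x, j)))
          (μ - Sum.elim (fun p : Fin 8 × JA => w8 p.1) (fun _ => 0) (Sum.inl (x, j) : Fin 8 × JA ⊕ JB)) else 0) =
        if s ∈ UA j ∧ UA j ⊆ S then chiConv (F (S \ UA j)) μ else 0 := by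
      intro j
      simp only [Sum.elim_inl]
      split_ifs
      · rw [Fin.sum_univ_eight]
        unfold chiConv
        simp [w8, sub_eq_add_neg]
        rw [show μ + ((0 : ℤ), (0 : ℤ)) = μ from add_zero μ]
        ring
      · simp
    have e2 : ∀ j, (if s ∈ Sum.elim (fun p : Fin 8 × JA => UA p.2) UB (Sum.inr j) ∧
        Sum.elim (fun p : Fin 8 × JA => UA p.2) UB (Sum.inr j) ⊆ S then
        F (S \ Sum.elim (fun p : Fin 8 × JA => UA p.2) UB (Sum.inr j))
          (μ - Sum.elim (fun p : Fin 8 × JA => w8 p.1) (fun _ => 0) (Sum.inr j : Fin 8 × JA ⊕ JB)) else 0) =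
        if s ∈ UB j ∧ UB j ⊆ S then F (S \ UB j) μ else 0 := by
      intro j
      simp only [Sum.elim_inr, sub_zero]
    simp_rw [e1, e2]
    rw [Finset.sum_add_distrib]
    congr 1
    · exact sum_group 𝒥A UA S s (fun V => chiConv (F (S \ V)) μ)
    · exact sum_group 𝒥B UB S s (fun V => F (S \ V) μ)
  · intro i
    constructor
    · have := h1A i
      beta_reduce
      exact_mod_cast this
    · have := h1B i
      beta_reduce
      exact_mod_cast this
  · intro S hSc
    exact hS S hSc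

end Pool.Agent.W429.ABG
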