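import Pool.Agent.W429.ABG.Asm2
import Pool.Agent.W429.ABG.Rec
set_option autoImplicit false
set_option linter.unusedSimpArgs false
set_option linter.unusedSectionVars false

/-! Assembly: Shang's conjecture fails for a vector space of dimension nine. -/

namespace Pool.Agent.W429.ABG
open Module TensorProduct
open Pool.Agent.Helper805.Nuc.Free (FreeAlt)
open Pool.Agent.W708.ABG (bas)
attribute [local instance 100] LieRing.ofAssociativeRing

namespace Dat
variable {k : Type} [Field k] [CharZero k]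
variable {A : Type} [NonUnitalNonAssocRing A] [Module k A] [IsScalarTower k A A] [SMulCommClass k A A]
variable [hAlt : AltAlg A] (D : Dat k A)

omit hAlt in
lemma finA : {j : D.JA | ∀ i, D.dA j i ≤ 1}.Finite := by
  have h : {j : D.JA | ∀ i, D.dA j i ≤ 1} ⊆ ⋃ γ ∈ Set.Iic (fun _ : Fin 9 => 1), {j | D.dA j = γ} := by
    intro j hj
    rw [Set.mem_iUnion₂]
    exact ⟨D.dA j, fun i => hj i, rfl⟩
  exact Set.Finite.subset (Set.Finite.biUnion (Set.finite_Iic _) fun γ _ => D.hfin γ) h

omit hAlt in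
lemma finB : {j : D.JB | ∀ i, D.dA (D.pB j).1 i + D.dA (D.pB j).2 i ≤ 1}.Finite := by
  have h := (D.finA.prod D.finA).preimage (f := D.pB) D.hinj.injOn
  refine Set.Finite.subset h ?_
  intro j hj
  exact ⟨fun i => by have := hj i; omega, fun i => by have := hj i; omega⟩

/-- basis vectors of `A` of squarefree degree -/
noncomputable def JJA : Finset D.JA := D.finA.toFinset
/-- basis vectors of `B(A)` of squarefree degree -/
noncomputable def JJB : Finset D.JB := D.finB.toFinset
/-- degree of a basis vector of `A` -/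
def UA (j : D.JA) : Finset (Fin 9) := Finset.univ.filter (fun i => D.dA j i ≠ 0)
/-- degree of a basis vector of `B(A)` -/
def UB (j : D.JB) : Finset (Fin 9) :=
  Finset.univ.filter (fun i => D.dA (D.pB j).1 i + D.dA (D.pB j).2 i ≠ 0)
/-- basis vectors of `ABG(A)` of squarefree degree -/
noncomputable def JJ : Finset D.J := ((Finset.univ : Finset (Fin 8)) ×ˢ D.JJA).disjSum D.JJB

omit hAlt in
lemma mem_JJ (j : D.J) : j ∈ D.JJ ↔ ∀ i, D.mdeg j i ≤ 1 := by
  rcases j with ⟨a, j⟩ | j
  · simp [JJ, JJA, mdeg]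
  · simp [JJ, JJB, mdeg]

omit hAlt in
lemma UJ_eq : D.UJ = Sum.elim (fun p => D.UA p.2) D.UB := by
  funext j
  rcases j with ⟨a, j⟩ | j <;> rfl

omit hAlt in
lemma wtJ_eq : D.wtJ = Sum.elim (fun p => w8 p.1) (fun _ => 0) := rfl

lemma idx_sub (S : Finset (Fin 9)) (n : ℕ) : D.idx S n ⊆ ↑(D.JJ.powerset) := by
  rintro T ⟨_, h2⟩
  rw [Finset.mem_coe, Finset.mem_powerset]
  intro j hj
  rw [mem_JJ]
  exact (D.mdegS_iff.mp h2).1 j hj

lemma idx_fin (S : Finset (Fin 9)) (n : ℕ) : (D.idx S n).Finite :=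
  Set.Finite.subset (Finset.finite_toSet _) (D.idx_sub S n)

instance fd_CC (S : Finset (Fin 9)) (n : ℕ) : FiniteDimensional k ↥(D.CC S n) := by
  have h : FiniteDimensional k ↥(D.CC S n).toSubmodule := by
    rw [D.CC_eq]
    exact FiniteDimensional.span_of_finite k ((D.idx_fin S n).image _)
  exact h

lemma idx_empty (S : Finset (Fin 9)) (n : ℕ) (hn : 9 < n) : D.CC S n = ⊥ := by
  rw [← LieSubmodule.toSubmodule_inj, D.CC_eq]
  have : D.idx S n = ∅ := by
    rw [Set.eq_empty_iff_forall_notMem]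
    rintro T ⟨h1, h2⟩
    have h3 := D.card_le h2
    have h4 : S.card ≤ 9 := by simpa using Finset.card_le_univ S
    have h1' : T.card = n := h1
    omega
  rw [this, Set.image_empty, Submodule.span_empty]
  rfl

lemma wt_map (S : Finset (Fin 9)) (n : ℕ) (μ : ℤ × ℤ) :
    (wt k ↥(D.CC S n) μ).map ((D.CC S n).incl : ↥(D.CC S n) →ₗ[k] Lam k A) =
      Submodule.span k (D.bE '' (D.idx S n ∩ {T | D.wtS T = μ})) := by
  rw [← span_inter, ← D.CC_eq, ← D.wt_eq]
  ext w
  constructor
  · rintro ⟨x, hx, rfl⟩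
    refine ⟨x.2, ?_, ?_⟩
    · have h1 := Module.End.mem_eigenspace_iff.mp hx.1
      exact Module.End.mem_eigenspace_iff.mpr (congrArg Subtype.val h1)
    · have h1 := Module.End.mem_eigenspace_iff.mp hx.2
      exact Module.End.mem_eigenspace_iff.mpr (congrArg Subtype.val h1)
  · rintro ⟨h1, h2, h3⟩
    refine ⟨⟨w, h1⟩, ⟨?_, ?_⟩, rfl⟩
    · exact Module.End.mem_eigenspace_iff.mpr (Subtype.ext (Module.End.mem_eigenspace_iff.mp h2))
    · exact Module.End.mem_eigenspace_iff.mpr (Subtype.ext (Module.End.mem_eigenspace_iff.mp h3))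

lemma finrank_wt (S : Finset (Fin 9)) (n : ℕ) (μ : ℤ × ℤ) :
    finrank k (wt k ↥(D.CC S n) μ) = (D.idx S n ∩ {T | D.wtS T = μ}).ncard := by
  have h := (Submodule.equivMapOfInjective ((D.CC S n).incl : ↥(D.CC S n) →ₗ[k] Lam k A)
    Subtype.val_injective (wt k ↥(D.CC S n) μ)).finrank_eq
  rw [h, D.wt_map, finrank_span_image D.bE _ ((D.idx_fin S n).subset Set.inter_subset_left)]

lemma wt_top (S : Finset (Fin 9)) (n : ℕ) : (⨆ μ : ℤ × ℤ, wt k ↥(D.CC S n) μ) = ⊤ := by
  rw [eq_top_iff]
  have key : (D.CC S n).toSubmodule ≤ (⨆ μ : ℤ × ℤ, wt k ↥(D.CC S n) μ).map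
      ((D.CC S n).incl : ↥(D.CC S n) →ₗ[k] Lam k A) := by
    rw [D.CC_eq, Submodule.span_le]
    rintro _ ⟨T, hT, rfl⟩
    have h1 : D.bE T ∈ (wt k ↥(D.CC S n) (D.wtS T)).map
        ((D.CC S n).incl : ↥(D.CC S n) →ₗ[k] Lam k A) := by
      rw [D.wt_map]
      exact Submodule.subset_span ⟨T, ⟨hT, rfl⟩, rfl⟩
    exact Submodule.map_mono (le_iSup (fun μ : ℤ × ℤ => wt k ↥(D.CC S n) μ) (D.wtS T)) h1
  intro x _
  obtain ⟨y, hy, hxy⟩ := key x.2
  have : y = x := Subtype.ext hxy
  rw [← this]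
  exact hy

lemma cnt_eq (S : Finset (Fin 9)) (μ : ℤ × ℤ) :
    ∑ n ∈ Finset.range (9 + 1), (-1) ^ n * (finrank k (wt k ↥(D.CC S n) μ) : ℤ) =
      cnt D.JJ D.UJ D.wtJ S μ := by
  classical
  unfold cnt
  set F : Finset (Finset D.J) := D.JJ.powerset.filter
    (fun T : Finset D.J => (T : Set D.J).PairwiseDisjoint D.UJ ∧ T.biUnion D.UJ = S ∧
      ∑ j ∈ T, D.wtJ j = μ) with hF
  have hmem : ∀ T : Finset D.J, T ∈ F ↔ D.mdegS T = ind S ∧ D.wtS T = μ := by
    intro T
    rw [hF, Finset.mem_filter, Finset.mem_powerset, D.mdegS_iff]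
    constructor
    · rintro ⟨h1, h2, h3, h4⟩
      exact ⟨⟨fun j hj => (D.mem_JJ j).mp (h1 hj), h2, h3⟩, h4⟩
    · rintro ⟨⟨h1, h2, h3⟩, h4⟩
      exact ⟨fun j hj => (D.mem_JJ j).mpr (h1 j hj), h2, h3, h4⟩
  have h1 : ∀ n, (finrank k (wt k ↥(D.CC S n) μ) : ℤ) = ((F.filter (fun T => T.card = n)).card : ℤ) := by
    intro n
    rw [D.finrank_wt]
    have : D.idx S n ∩ {T | D.wtS T = μ} = ↑(F.filter (fun T => T.card = n)) := by
      ext T
      rw [Finset.mem_coe, Finset.mem_filter, hmem]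
      constructor
      · rintro ⟨⟨a, b⟩, c⟩; exact ⟨⟨b, c⟩, a⟩
      · rintro ⟨⟨b, c⟩, a⟩; exact ⟨⟨a, b⟩, c⟩
    rw [this, Set.ncard_coe_finset]
  simp_rw [h1]
  have hmaps : ∀ T ∈ F, T.card ∈ Finset.range (9 + 1) := by
    intro T hT
    have h3 := D.card_le ((hmem T).mp hT).1
    have h4 : S.card ≤ 9 := by simpa using Finset.card_le_univ S
    rw [Finset.mem_range]
    omega
  have h2 := Finset.sum_fiberwise_of_maps_to hmaps (fun T : Finset D.J => (-1 : ℤ) ^ T.card)
  have h5 : ∑ T ∈ F, (-1 : ℤ) ^ T.card = ∑ n ∈ Finset.range (9 + 1),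
      (-1 : ℤ) ^ n * ((F.filter (fun T => T.card = n)).card : ℤ) := by
    rw [← h2]
    refine Finset.sum_congr rfl fun n _ => ?_
    rw [Finset.sum_congr rfl (g := fun _ => (-1 : ℤ) ^ n)
      (fun T hT => by rw [(Finset.mem_filter.mp hT).2]), Finset.sum_const, nsmul_eq_mul, mul_comm]
  rw [← h5]

/-- the degree of a basis vector in `idx S 1` -/
lemma sum_mdeg {S : Finset (Fin 9)} {T : Finset D.J} (h : D.mdegS T = ind S) :
    ∑ i, D.mdegS T i = S.card := by
  rw [h]
  unfold ind
  rw [Finset.sum_ite_mem, Finset.univ_inter, Finset.sum_const, nsmul_eq_mul, mul_one]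

lemma bE_card (T : Finset D.J) (n : ℕ) (h : T.card = n) :
    D.bE T = ExteriorAlgebra.ιMulti k n (fun i => D.bL (T.orderEmbOfFin h i)) := by
  subst h
  unfold bE
  rw [ExteriorAlgebra.basis_apply_ofCard D.bL (rfl : T.card = T.card)]
  rfl

lemma bE_one (T : Finset D.J) (h : T.card = 1) : ∃ j, T = {j} ∧ D.bE T = ExteriorAlgebra.ι k (D.bL j) := by
  obtain ⟨j, hj⟩ := Finset.card_eq_one.mp h
  refine ⟨j, hj, ?_⟩
  rw [D.bE_card T 1 h, ExteriorAlgebra.ιMulti_succ_apply, ExteriorAlgebra.ιMulti_zero_apply, mul_one]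
  have h2 : T.orderEmbOfFin h 0 = j := by
    have h3 : ∀ x ∈ T, x = j := by
      intro x hx
      rw [hj] at hx
      exact Finset.mem_singleton.mp hx
    exact h3 _ (Finset.orderEmbOfFin_mem T h 0)
  rw [h2]

lemma bL_mem_LL {S : Finset (Fin 9)} (hS : 2 ≤ S.card) {j : D.J} (h : D.mdegS {j} = ind S) :
    D.bL j ∈ LL k A := by
  rcases j with ⟨a, j⟩ | j
  · rw [D.bL_inl]
    apply tmul_mem_LL
    apply D.hprod
    have h1 := D.sum_mdeg h
    have h2 : ∑ i, D.mdegS {(Sum.inl (a, j) : D.J)} i = ((∑ i, D.dA j i : ℕ) : ℤ) := by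
      unfold mdegS
      push_cast
      refine Finset.sum_congr rfl fun i _ => ?_
      rw [Finset.sum_singleton]
      rfl
    rw [h2] at h1
    have h3 : ∑ i, D.dA j i = S.card := by exact_mod_cast h1
    omega
  · rw [D.bL_inr, D.hB]
    exact wdg_mem_LL k _ _

lemma h01 (S : Finset (Fin 9)) (hS : 2 ≤ S.card) : ∀ n < 2, ∀ x ∈ D.ZZ S n, x ∈ D.BB S n := by
  intro n hn x hx
  have hx1 : x ∈ (D.CC S n).toSubmodule := (D.mem_ZZ.mp hx).1
  rw [D.CC_eq] at hx1
  have key : ∀ T ∈ D.idx S n, D.bE T ∈ D.BB S n := by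
    rintro T ⟨h1, h2⟩
    have h1' : T.card = n := h1
    have hn' : n = 0 ∨ n = 1 := by omega
    rcases hn' with rfl | rfl
    · exfalso
      rw [Finset.card_eq_zero] at h1'
      subst h1'
      have h3 := D.sum_mdeg h2
      have h4 : ∑ i, D.mdegS ∅ i = 0 := by
        apply Finset.sum_eq_zero
        intro i _
        unfold mdegS
        rw [Finset.sum_empty]
      rw [h4] at h3
      have : S.card = 0 := by exact_mod_cast h3.symm
      omega
    · apply D.bdy_CC
      · exact D.bE_mem ⟨h1, h2⟩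
      · obtain ⟨j, hj, hbj⟩ := D.bE_one T h1'
        rw [hbj]
        rw [hj] at h2
        exact LL_ι (D.bL_mem_LL hS h2)
  have h2 : Submodule.span k (D.bE '' D.idx S n) ≤ (D.BB S n).toSubmodule := by
    rw [Submodule.span_le]
    rintro _ ⟨T, hT, rfl⟩
    exact key T hT
  exact h2 hx1

/-- the two Euler characteristic identities -/
lemma main (hE : S_E) (hH : ∀ n, 1 < n → n ≤ 9 → NoTrivial k (Hn k A n) ∧ NoAdjoint k (Hn k A n))
    (S : Finset (Fin 9)) (hS : 2 ≤ S.card) :
    altsum (cnt D.JJ D.UJ D.wtJ S) = 0 ∧ altsum (chiConv (cnt D.JJ D.UJ D.wtJ S)) = 0 := by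
  have h := hE k (Lam k A) (dHom k A) (D.CC S) (D.ZZ S) (D.BB S) 9 (D.d_CC0 S) (D.d_CC S)
    (fun x => dCE_dCE x) (D.idx_empty S) (fun n => D.fd_CC S n) (D.wt_top S)
    (fun n x => D.mem_ZZ) (fun n x => D.mem_BB) (D.h01 S hS)
    (fun n hn => by
      by_cases h9 : n ≤ 9
      · exact D.transfer S (hH n hn h9)
      · have hs : Subsingleton (↥(D.ZZ S n) ⧸ (D.BB S n).comap (D.ZZ S n).incl) := by
          constructor
          intro x y
          obtain ⟨x, rfl⟩ := LieSubmodule.Quotient.surjective_mk' _ x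
          obtain ⟨y, rfl⟩ := LieSubmodule.Quotient.surjective_mk' _ y
          have hx : ∀ z : ↥(D.ZZ S n), z = 0 := by
            intro z
            have h1 := (D.mem_ZZ.mp z.2).1
            rw [D.idx_empty S n (by omega), LieSubmodule.mem_bot] at h1
            exact Subtype.ext h1
          rw [hx x, hx y]
        exact ⟨fun x _ => Subsingleton.elim _ _, fun φ => LieModuleHom.ext fun X => Subsingleton.elim _ _⟩)
  have e : (fun μ => ∑ n ∈ Finset.range (9 + 1), (-1) ^ n * (finrank k (wt k ↥(D.CC S n) μ) : ℤ)) =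
      cnt D.JJ D.UJ D.wtJ S := funext fun μ => D.cnt_eq S μ
  rw [e] at h
  exact h

end Dat

/-- Shang's conjecture fails, for `V` of dimension nine. -/
theorem not_conj (hE : S_E) (hBas : S_Bas) (k : Type) [Field k] [CharZero k] :
    ¬ ∀ n, 1 < n → n ≤ 9 → NoTrivial k (Hn k (FreeAlt k (Fin 9)) n) ∧
      NoAdjoint k (Hn k (FreeAlt k (Fin 9)) n) := by
  classical
  intro hH
  obtain ⟨δ, hδ, JA, bA, dA, JB, bB, pB, hA, hne, hfin, h1, hfac, hprod, hB, hinj⟩ := hBas k 9
  let D : Dat k (FreeAlt k (Fin 9)) :=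
    { δ := δ, hδ := hδ, JA := JA, bA := bA, dA := dA, JB := JB, bB := bB, pB := pB, hA := hA,
      hne := hne, hfin := hfin, hprod := hprod, hB := hB, hinj := hinj }
  have hm := D.main hE hH
  have e1 : ∀ i, (D.JJA.filter (fun j => D.UA j = {i})).card = 1 := by
    intro i
    rw [← h1 i, ← Set.ncard_coe_finset]
    congr 1
    ext j
    rw [Finset.mem_coe, Finset.mem_filter, Dat.JJA, Set.Finite.mem_toFinset]
    constructor
    · rintro ⟨h2, h3⟩
      show dA j = Pi.single i 1
      have h2' : ∀ i, dA j i ≤ 1 := h2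
      funext i'
      by_cases hi : i' = i
      · subst hi
        rw [Pi.single_eq_same]
        have h4 : i' ∈ D.UA j := by rw [h3]; exact Finset.mem_singleton_self _
        have h5 : dA j i' ≠ 0 := (Finset.mem_filter.mp h4).2
        have := h2' i'
        omega
      · rw [Pi.single_eq_of_ne hi]
        by_contra h4
        have h5 : i' ∈ D.UA j := Finset.mem_filter.mpr ⟨Finset.mem_univ _, h4⟩
        rw [h3, Finset.mem_singleton] at h5
        exact hi h5
    · intro h2
      have h2' : dA j = Pi.single i 1 := h2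
      constructor
      · intro i'
        show dA j i' ≤ 1
        rw [h2']
        by_cases hi : i' = i
        · subst hi; rw [Pi.single_eq_same]
        · rw [Pi.single_eq_of_ne hi]; omega
      · ext i'
        show i' ∈ Finset.univ.filter (fun i => dA j i ≠ 0) ↔ _
        rw [Finset.mem_filter, Finset.mem_singleton, h2']
        by_cases hi : i' = i
        · subst hi; simp
        · simp [Pi.single_eq_of_ne hi, hi]
  have e2 : ∀ i, (D.JJB.filter (fun j => D.UB j = {i})).card = 0 := by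
    intro i
    rw [Finset.card_eq_zero, Finset.filter_eq_empty_iff]
    intro j hj h3
    rw [Dat.JJB, Set.Finite.mem_toFinset] at hj
    have hj' : ∀ i, dA (pB j).1 i + dA (pB j).2 i ≤ 1 := hj
    have hz : ∀ i', i' ≠ i → dA (pB j).1 i' + dA (pB j).2 i' = 0 := by
      intro i' hi
      by_contra h4
      have h5 : i' ∈ D.UB j := Finset.mem_filter.mpr ⟨Finset.mem_univ _, h4⟩
      rw [h3, Finset.mem_singleton] at h5
      exact hi h5
    have ha : dA (pB j).1 i ≠ 0 := by
      intro h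
      apply hne (pB j).1
      funext i'
      by_cases hi : i' = i
      · rw [hi]; exact h
      · have := hz i' hi
        show dA (pB j).1 i' = 0
        omega
    have hb : dA (pB j).2 i ≠ 0 := by
      intro h
      apply hne (pB j).2
      funext i'
      by_cases hi : i' = i
      · rw [hi]; exact h
      · have := hz i' hi
        show dA (pB j).2 i' = 0
        omega
    have := hj' i
    omega
  have hrec := rec' JA JB D.JJA D.JJB D.UA D.UB (by
      intro j _
      have := D.UJ_nonempty (Sum.inl (0, j))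
      exact this) (by
      intro j _
      have := D.UJ_nonempty (Sum.inr j)
      exact this) (by intro i; convert e1 i using 3) (by intro i; convert e2 i using 3) (by
      intro S hS
      have := hm S hS
      rw [D.UJ_eq, D.wtJ_eq] at this
      exact this)
  have hf := hfac (by norm_num)
  have e3 : (D.JJA.filter (fun j => D.UA j = Finset.univ)).card = {j | dA j = fun _ => 1}.ncard := by
    rw [← Set.ncard_coe_finset]
    congr 1
    ext j
    rw [Finset.mem_coe, Finset.mem_filter, Dat.JJA, Set.Finite.mem_toFinset]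
    constructor
    · rintro ⟨h2, h3⟩
      show dA j = fun _ => 1
      have h2' : ∀ i, dA j i ≤ 1 := h2
      funext i'
      have h4 : i' ∈ D.UA j := by rw [h3]; exact Finset.mem_univ _
      have h5 : dA j i' ≠ 0 := (Finset.mem_filter.mp h4).2
      have := h2' i'
      omega
    · intro h2
      have h2' : dA j = fun _ => 1 := h2
      constructor
      · intro i'
        show dA j i' ≤ 1
        rw [h2']
      · ext i'
        show i' ∈ Finset.univ.filter (fun i => dA j i ≠ 0) ↔ _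
        rw [Finset.mem_filter, h2']
        simp
  rw [← e3] at hf
  have hrec' : (D.JJA.filter (fun j => D.UA j = Finset.univ)).card = 336364 := by
    convert hrec using 3
  rw [hrec'] at hf
  norm_num [Nat.factorial] at hf

end Pool.Agent.W429.ABG
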