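import Pool.Agent.W429.ABG.Stmts2
import Pool.Agent.W708.ABG.R2
set_option autoImplicit false
set_option linter.unusedSimpArgs false
set_option linter.unusedSectionVars false

/-! Euler characteristic of a finite complex of weight modules over `sl₃`. -/

namespace Pool.Agent.W429.ABG
open Module
attribute [local instance 100] LieRing.ofAssociativeRing

section
variable {k : Type} [Field k] [CharZero k] {M N : Type} [AddCommGroup M] [Module k M]
  [LieRingModule (sl3 k) M] [LieModule k (sl3 k) M] [AddCommGroup N] [Module k N]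
  [LieRingModule (sl3 k) N] [LieModule k (sl3 k) N]

lemma mem_wt' {μ : ℤ × ℤ} {x : N} : x ∈ wt k N μ ↔
    ⁅h1 k, x⁆ = ((μ.1 : ℤ) : k) • x ∧ ⁅h2 k, x⁆ = ((μ.2 : ℤ) : k) • x := by
  unfold wt
  rw [Submodule.mem_inf, Module.End.mem_eigenspace_iff, Module.End.mem_eigenspace_iff]
  rfl

variable (k N) in
lemma wt_indep : iSupIndep (fun μ : ℤ × ℤ => wt k N μ) := by
  have hc : Commute (LieModule.toEnd k (sl3 k) N (h1 k)) (LieModule.toEnd k (sl3 k) N (h2 k)) := by
    have h12 : ⁅h1 k, h2 k⁆ = 0 := Pool.Agent.W708.ABG.h1h2 k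
    show _ * _ = _ * _
    have h := (LieModule.toEnd k (sl3 k) N).map_lie (h1 k) (h2 k)
    rw [h12, map_zero] at h
    exact (sub_eq_zero.mp h.symm)
  have h := Module.End.independent_iInf_maxGenEigenspace_of_forall_mapsTo
    (![LieModule.toEnd k (sl3 k) N (h1 k), LieModule.toEnd k (sl3 k) N (h2 k)] : Fin 2 → Module.End k N)
    (by
      intro i j φ
      apply Module.End.mapsTo_maxGenEigenspace_of_comm
      fin_cases i <;> fin_cases j
      · exact Commute.refl _
      · exact hc.symm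
      · exact hc
      · exact Commute.refl _)
  have hinj : Function.Injective (fun μ : ℤ × ℤ => (![((μ.1 : ℤ) : k), ((μ.2 : ℤ) : k)] : Fin 2 → k)) := by
    intro μ ν hμν
    have a := congrFun hμν 0
    have b := congrFun hμν 1
    exact Prod.ext (Int.cast_injective a) (Int.cast_injective b)
  refine (h.comp hinj).mono ?_
  intro μ x hx
  rw [Function.comp_apply, Submodule.mem_iInf]
  intro i
  fin_cases i
  · exact Module.End.mem_maxGenEigenspace _ _ _ |>.mpr ⟨1, by
      have := Module.End.mem_eigenspace_iff.mp hx.1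
      simp only [pow_one, LinearMap.sub_apply, Module.algebraMap_end_apply]
      simp [this]⟩
  · exact Module.End.mem_maxGenEigenspace _ _ _ |>.mpr ⟨1, by
      have := Module.End.mem_eigenspace_iff.mp hx.2
      simp only [pow_one, LinearMap.sub_apply, Module.algebraMap_end_apply]
      simp [this]⟩

/-- a family of subspaces of the weight spaces which spans everything consists of the weight spaces -/
lemma wt_unique (W : ℤ × ℤ → Submodule k N) (h1 : ∀ μ, W μ ≤ wt k N μ) (h2 : (⨆ μ, W μ) = ⊤)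
    (μ : ℤ × ℤ) : W μ = wt k N μ := by
  apply le_antisymm (h1 μ)
  intro x hx
  have hx' : x ∈ ⨆ μ, W μ := by rw [h2]; trivial
  obtain ⟨f, hf, hfx⟩ := (Submodule.mem_iSup_iff_exists_finsupp _ _).mp hx'
  have hi := (iSupIndep_iff_finsetSum_eq_zero_imp_eq_zero _).mp (wt_indep k N)
  classical
  have key := hi (insert μ f.support) (fun ν => if ν = μ then f ν - x else f ν) (by
    intro ν _
    show (if ν = μ then f ν - x else f ν) ∈ wt k N ν
    split_ifs with h
    · subst h; exact Submodule.sub_mem _ (h1 _ (hf _)) hx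
    · exact h1 _ (hf _)) (by
    have e : ∀ ν, (if ν = μ then f ν - x else f ν) = f ν - (if ν = μ then x else 0) := by
      intro ν; split_ifs <;> simp
    simp_rw [e]
    rw [Finset.sum_sub_distrib, Finset.sum_ite_eq', if_pos (Finset.mem_insert_self _ _)]
    rw [sub_eq_zero, ← hfx, Finsupp.sum]
    symm
    apply Finset.sum_subset (Finset.subset_insert _ _)
    intro ν _ hν
    exact Finsupp.notMem_support_iff.mp hν) μ (Finset.mem_insert_self _ _)
  have key' : f μ - x = 0 := by simpa using key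
  rw [← sub_eq_zero.mp key']
  exact hf μ

/-- weight spaces of a quotient -/
lemma wt_surj (f : M →ₗ⁅k, sl3 k⁆ N) (hf : Function.Surjective f) (hM : (⨆ μ : ℤ × ℤ, wt k M μ) = ⊤) :
    (⨆ μ : ℤ × ℤ, wt k N μ) = ⊤ ∧ ∀ μ, (wt k M μ).map (f : M →ₗ[k] N) = wt k N μ := by
  have h1 : ∀ μ, (wt k M μ).map (f : M →ₗ[k] N) ≤ wt k N μ := by
    rintro μ _ ⟨x, hx, rfl⟩
    rw [SetLike.mem_coe, mem_wt'] at hx
    rw [mem_wt']
    constructor
    · show ⁅h1 k, f x⁆ = _ • f x
      rw [← LieModuleHom.map_lie, hx.1, map_smul]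
    · show ⁅h2 k, f x⁆ = _ • f x
      rw [← LieModuleHom.map_lie, hx.2, map_smul]
  have h2 : (⨆ μ : ℤ × ℤ, (wt k M μ).map (f : M →ₗ[k] N)) = ⊤ := by
    rw [← Submodule.map_iSup, hM, Submodule.map_top, LinearMap.range_eq_top]
    exact hf
  exact ⟨by rw [eq_top_iff, ← h2]; exact iSup_mono h1, wt_unique _ h1 h2⟩

/-- submodules of weight modules are weight modules -/
lemma wt_sub (P : LieSubmodule k (sl3 k) M) (hM : (⨆ μ : ℤ × ℤ, wt k M μ) = ⊤) :
    (⨆ μ : ℤ × ℤ, wt k ↥P μ) = ⊤ := by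
  rw [eq_top_iff]
  intro x _
  have hx' : x.1 ∈ ⨆ μ : ℤ × ℤ, wt k M μ := by rw [hM]; trivial
  obtain ⟨f, hf, hfx⟩ := (Submodule.mem_iSup_iff_exists_finsupp _ _).mp hx'
  have hi := (iSupIndep_iff_finsetSum_eq_zero_imp_eq_zero _).mp (wt_indep k (M ⧸ P))
  have hq := (wt_surj (LieSubmodule.Quotient.mk' P) (LieSubmodule.Quotient.surjective_mk' P) hM).2
  have key := hi f.support (fun ν => LieSubmodule.Quotient.mk' P (f ν)) (by
    intro ν _
    rw [← hq ν]
    exact ⟨f ν, hf ν, rfl⟩) (by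
    rw [← map_sum]
    have : ∑ ν ∈ f.support, f ν = x.1 := hfx
    rw [this, LieSubmodule.Quotient.mk_eq_zero]
    exact x.2)
  have hP : ∀ ν, f ν ∈ P := by
    intro ν
    by_cases h : ν ∈ f.support
    · exact (LieSubmodule.Quotient.mk_eq_zero P).mp (key ν h)
    · rw [Finsupp.notMem_support_iff.mp h]; exact P.zero_mem
  have e : x = ∑ ν ∈ f.support, (⟨f ν, hP ν⟩ : P) := by
    apply Subtype.ext
    rw [← hfx, Finsupp.sum]
    have : ((∑ ν ∈ f.support, (⟨f ν, hP ν⟩ : P) : P) : M) = P.incl (∑ ν ∈ f.support, (⟨f ν, hP ν⟩ : P)) := rfl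
    rw [this, map_sum]
    rfl
  rw [e]
  refine Submodule.sum_mem _ fun ν _ => ?_
  refine Submodule.mem_iSup_of_mem ν ?_
  rw [mem_wt']
  have h3 := mem_wt'.mp (hf ν)
  exact ⟨Subtype.ext h3.1, Subtype.ext h3.2⟩

/-- rank-nullity on weight spaces -/
lemma wt_rank [FiniteDimensional k M] (f : M →ₗ⁅k, sl3 k⁆ N) (hf : Function.Surjective f)
    (hM : (⨆ μ : ℤ × ℤ, wt k M μ) = ⊤) (μ : ℤ × ℤ) :
    finrank k (wt k M μ) = finrank k (wt k ↥f.ker μ) + finrank k (wt k N μ) := by
  have h1 := (wt_surj f hf hM).2 μ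
  have h2 := LinearMap.finrank_range_add_finrank_ker ((f : M →ₗ[k] N).domRestrict (wt k M μ))
  have h3 : LinearMap.range ((f : M →ₗ[k] N).domRestrict (wt k M μ)) = wt k N μ := by
    rw [← h1, LinearMap.range_domRestrict]
  rw [h3] at h2
  rw [← h2, add_comm]
  congr 1
  have e : ↥(LinearMap.ker ((f : M →ₗ[k] N).domRestrict (wt k M μ))) ≃ₗ[k] ↥(wt k ↥f.ker μ) :=
    { toFun := fun x => ⟨⟨x.1.1, by
        have := x.2
        rw [LinearMap.mem_ker] at this
        exact (LieModuleHom.mem_ker).mpr this⟩, by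
        rw [mem_wt']
        have h3 := mem_wt'.mp x.1.2
        exact ⟨Subtype.ext h3.1, Subtype.ext h3.2⟩⟩
      map_add' := fun _ _ => rfl
      map_smul' := fun _ _ => rfl
      invFun := fun y => ⟨⟨y.1.1, by
        have h3 := mem_wt'.mp y.2
        rw [mem_wt']
        exact ⟨congrArg Subtype.val h3.1, congrArg Subtype.val h3.2⟩⟩, by
        rw [LinearMap.mem_ker]
        exact (LieModuleHom.mem_ker).mp y.1.2⟩
      left_inv := fun _ => rfl
      right_inv := fun _ => rfl }
  exact e.finrank_eq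

/-- equivalent modules have the same weight multiplicities -/
lemma wt_equiv (f : M →ₗ⁅k, sl3 k⁆ N) (hi : Function.Injective f) (hf : Function.Surjective f)
    (μ : ℤ × ℤ) : finrank k (wt k M μ) = finrank k (wt k N μ) := by
  have e : ↥(wt k M μ) ≃ₗ[k] ↥(wt k N μ) :=
    LinearEquiv.ofBijective
      (((f : M →ₗ[k] N).restrict (p := wt k M μ) (q := wt k N μ) (by
        intro x hx
        rw [mem_wt'] at *
        constructor
        · show ⁅h1 k, f x⁆ = _ • f x
          rw [← LieModuleHom.map_lie, hx.1, map_smul]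
        · show ⁅h2 k, f x⁆ = _ • f x
          rw [← LieModuleHom.map_lie, hx.2, map_smul]))) (by
      constructor
      · intro x y hxy
        have := congrArg Subtype.val hxy
        exact Subtype.ext (hi this)
      · rintro ⟨y, hy⟩
        obtain ⟨x, rfl⟩ := hf y
        rw [mem_wt'] at hy
        refine ⟨⟨x, ?_⟩, rfl⟩
        rw [mem_wt']
        constructor
        · apply hi; rw [LieModuleHom.map_lie, hy.1, map_smul]
        · apply hi; rw [LieModuleHom.map_lie, hy.2, map_smul])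
  exact e.finrank_eq

end

lemma altsum_lin (s : Finset ℕ) (c : ℕ → ℤ) (f : ℕ → ℤ × ℤ → ℤ) :
    altsum (fun μ => ∑ n ∈ s, c n * f n μ) = ∑ n ∈ s, c n * altsum (f n) := by
  unfold altsum
  simp only [mul_add, mul_sub, Finset.sum_add_distrib, Finset.sum_sub_distrib]

lemma chiConv_lin (s : Finset ℕ) (c : ℕ → ℤ) (f : ℕ → ℤ × ℤ → ℤ) :
    chiConv (fun μ => ∑ n ∈ s, c n * f n μ) = fun μ => ∑ n ∈ s, c n * chiConv (f n) μ := by
  funext μ
  unfold chiConv
  simp only [mul_add, Finset.sum_add_distrib, Finset.mul_sum]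
  congr 7
  funext n
  ring

theorem euler : S_E := by
  intro k _ _ Λ _ _ _ _ d C Z B m hd0 hdC hdd hCm hfin hwt hZ hB h01 hH
  have hZC : ∀ n, Z n ≤ C n := fun n x hx => ((hZ n x).mp hx).1
  have hBC : ∀ n, B n ≤ C n := by
    intro n x hx
    obtain ⟨y, hy, rfl⟩ := (hB n x).mp hx
    exact hdC n y hy
  have hBZ : ∀ n, B n ≤ Z n := by
    intro n x hx
    obtain ⟨y, hy, rfl⟩ := (hB n x).mp hx
    exact (hZ n _).mpr ⟨hdC n y hy, hdd y⟩
  have fC := hfin
  have fZ : ∀ n, FiniteDimensional k ↥(Z n) := fun n =>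
    Submodule.finiteDimensional_of_le (show (Z n).toSubmodule ≤ (C n).toSubmodule from hZC n)
  -- weights of Z n
  have wZ : ∀ n, (⨆ μ : ℤ × ℤ, wt k ↥(Z n) μ) = ⊤ := by
    intro n
    have h1 := wt_sub ((Z n).comap (C n).incl) (hwt n)
    let f : ↥((Z n).comap (C n).incl) →ₗ⁅k, sl3 k⁆ ↥(Z n) :=
      { toFun := fun x => ⟨x.1.1, x.2⟩
        map_add' := fun _ _ => rfl
        map_smul' := fun _ _ => rfl
        map_lie' := rfl }
    exact (wt_surj f (by rintro ⟨y, hy⟩; exact ⟨⟨⟨y, hZC n hy⟩, hy⟩, rfl⟩) h1).1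
  -- the homology
  let H : ℕ → ℤ × ℤ → ℤ := fun n μ => (finrank k (wt k (↥(Z n) ⧸ (B n).comap (Z n).incl) μ) : ℤ)
  have hz : ∀ n μ, (finrank k (wt k ↥(Z n) μ) : ℤ) = finrank k (wt k ↥(B n) μ) + H n μ := by
    intro n μ
    have h1 := wt_rank (LieSubmodule.Quotient.mk' ((B n).comap (Z n).incl))
      (LieSubmodule.Quotient.surjective_mk' _) (wZ n) μ
    let f : ↥(LieSubmodule.Quotient.mk' ((B n).comap (Z n).incl)).ker →ₗ⁅k, sl3 k⁆ ↥(B n) :=
      { toFun := fun x => ⟨x.1.1, by
          have := x.2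
          rw [LieModuleHom.mem_ker, LieSubmodule.Quotient.mk_eq_zero] at this
          exact this⟩
        map_add' := fun _ _ => rfl
        map_smul' := fun _ _ => rfl
        map_lie' := rfl }
    have h2 := wt_equiv f (by
      intro x y hxy
      have := congrArg Subtype.val hxy
      exact Subtype.ext (Subtype.ext this)) (by
      rintro ⟨y, hy⟩
      refine ⟨⟨⟨y, hBZ n hy⟩, ?_⟩, rfl⟩
      rw [LieModuleHom.mem_ker, LieSubmodule.Quotient.mk_eq_zero]
      exact hy) μ
    rw [h1, h2]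
    push_cast
    rfl
  have hc : ∀ n μ, (finrank k (wt k ↥(C (n + 1)) μ) : ℤ) =
      finrank k (wt k ↥(Z (n + 1)) μ) + finrank k (wt k ↥(B n) μ) := by
    intro n μ
    let g : ↥(C (n + 1)) →ₗ⁅k, sl3 k⁆ ↥(B n) :=
      { toFun := fun x => ⟨d x.1, (hB n _).mpr ⟨x.1, x.2, rfl⟩⟩
        map_add' := fun x y => Subtype.ext (map_add d x.1 y.1)
        map_smul' := fun c x => Subtype.ext (map_smul d c x.1)
        map_lie' := fun {X x} => Subtype.ext (LieModuleHom.map_lie d X x.1) }
    have hg : Function.Surjective g := by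
      rintro ⟨y, hy⟩
      obtain ⟨x, hx, rfl⟩ := (hB n y).mp hy
      exact ⟨⟨x, hx⟩, rfl⟩
    have h1 := wt_rank g hg (hwt (n + 1)) μ
    let f : ↥g.ker →ₗ⁅k, sl3 k⁆ ↥(Z (n + 1)) :=
      { toFun := fun x => ⟨x.1.1, by
          have := x.2
          rw [LieModuleHom.mem_ker] at this
          exact (hZ (n + 1) _).mpr ⟨x.1.2, congrArg Subtype.val this⟩⟩
        map_add' := fun _ _ => rfl
        map_smul' := fun _ _ => rfl
        map_lie' := rfl }
    have h2 := wt_equiv f (by
      intro x y hxy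
      have := congrArg Subtype.val hxy
      exact Subtype.ext (Subtype.ext this)) (by
      rintro ⟨y, hy⟩
      have hy' := (hZ (n + 1) y).mp hy
      refine ⟨⟨⟨y, hy'.1⟩, ?_⟩, rfl⟩
      rw [LieModuleHom.mem_ker]
      exact Subtype.ext hy'.2) μ
    rw [h1, h2]
    push_cast
    rfl
  have hc0 : ∀ μ, (finrank k (wt k ↥(C 0) μ) : ℤ) = finrank k (wt k ↥(Z 0) μ) := by
    intro μ
    have : C 0 = Z 0 := by
      apply le_antisymm _ (hZC 0)
      intro x hx
      exact (hZ 0 x).mpr ⟨hx, hd0 x hx⟩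
    rw [this]
  have hsum : ∀ M μ, ∑ n ∈ Finset.range (M + 1), (-1) ^ n * (finrank k (wt k ↥(C n) μ) : ℤ) =
      (∑ n ∈ Finset.range (M + 1), (-1) ^ n * H n μ) + (-1) ^ M * (finrank k (wt k ↥(B M) μ) : ℤ) := by
    intro M μ
    induction M with
    | zero =>
      rw [Finset.sum_range_one, Finset.sum_range_one, hc0, hz]
      ring
    | succ M ih =>
      rw [Finset.sum_range_succ, ih, Finset.sum_range_succ _ (M + 1), hc, hz, pow_succ]
      ring
  have hBm : ∀ μ, (finrank k (wt k ↥(B m) μ) : ℤ) = 0 := by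
    intro μ
    have h1 : B m = ⊥ := by
      rw [eq_bot_iff]
      intro x hx
      obtain ⟨y, hy, rfl⟩ := (hB m x).mp hx
      rw [hCm (m + 1) (Nat.lt_succ_self m)] at hy
      rw [(LieSubmodule.mem_bot y).mp hy, map_zero]
      exact LieSubmodule.zero_mem _
    have h2 : Subsingleton ↥(B m) := by
      rw [h1]
      constructor
      rintro ⟨x, hx⟩ ⟨y, hy⟩
      apply Subtype.ext
      exact ((LieSubmodule.mem_bot x).mp hx).trans ((LieSubmodule.mem_bot y).mp hy).symm
    have h3 : Subsingleton ↥(wt k ↥(B m) μ) := inferInstance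
    rw [finrank_zero_of_subsingleton]
    rfl
  have e : (fun μ => ∑ n ∈ Finset.range (m + 1), (-1) ^ n * (finrank k (wt k ↥(C n) μ) : ℤ)) =
      fun μ => ∑ n ∈ Finset.range (m + 1), (-1) ^ n * H n μ := by
    funext μ
    rw [hsum, hBm, mul_zero, add_zero]
  rw [e]
  have hHn : ∀ n, altsum (H n) = 0 ∧ altsum (chiConv (H n)) = 0 := by
    intro n
    have hfin' : FiniteDimensional k (↥(Z n) ⧸ (B n).comap (Z n).incl) :=
      Module.Finite.of_surjective
        ((LieSubmodule.Quotient.mk' ((B n).comap (Z n).incl) : ↥(Z n) →ₗ⁅k, sl3 k⁆ _) : ↥(Z n) →ₗ[k] _)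
        (LieSubmodule.Quotient.surjective_mk' _)
    have hwt' := (wt_surj (LieSubmodule.Quotient.mk' ((B n).comap (Z n).incl))
      (LieSubmodule.Quotient.surjective_mk' _) (wZ n)).1
    by_cases hn : 2 ≤ n
    · exact ⟨Pool.Agent.W708.ABG.r1 k _ hwt' (hH n hn).1, Pool.Agent.W708.ABG.r2 k _ hwt' (hH n hn).2⟩
    · have h3 : ∀ μ, H n μ = 0 := by
        intro μ
        have hs : Subsingleton (↥(Z n) ⧸ (B n).comap (Z n).incl) := by
          constructor
          intro x y
          obtain ⟨x, rfl⟩ := LieSubmodule.Quotient.surjective_mk' _ x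
          obtain ⟨y, rfl⟩ := LieSubmodule.Quotient.surjective_mk' _ y
          rw [← sub_eq_zero, ← map_sub, LieSubmodule.Quotient.mk_eq_zero]
          exact h01 n (by omega) _ (x - y).2
        have h4 : Subsingleton ↥(wt k (↥(Z n) ⧸ (B n).comap (Z n).incl) μ) := inferInstance
        show ((finrank k (wt k (↥(Z n) ⧸ (B n).comap (Z n).incl) μ) : ℕ) : ℤ) = 0
        rw [finrank_zero_of_subsingleton]
        rfl
      constructor
      · unfold altsum; simp only [h3]; ring
      · unfold altsum chiConv; simp only [h3]; ring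
  constructor
  · rw [altsum_lin]
    apply Finset.sum_eq_zero
    intro n _
    rw [(hHn n).1, mul_zero]
  · rw [chiConv_lin, altsum_lin (f := fun n => chiConv (H n))]
    apply Finset.sum_eq_zero
    intro n _
    rw [(hHn n).2, mul_zero]

end Pool.Agent.W429.ABG
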