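import Pool.Agent.W429.ABG.Pub
import Pool.Agent.W429.ABG.Asm3
import Pool.Agent.W429.ABG.Euler
import Pool.Agent.W378.AbgBas
set_option autoImplicit false
set_option linter.unusedSimpArgs false
set_option linter.unusedSectionVars false

/-! From the internal form of the result to the form over the definitions of `Pub`. -/

namespace Pool.Agent.W429.ABG.Bridge
open Pool.Agent.W429.ABG
open Pool.Agent.Helper805.Nuc.Tens (IsAlt)
open Pool.Agent.Helper805.Nuc.Free (FreeAlt)
open TensorProduct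
attribute [local instance 100] LieRing.ofAssociativeRing

theorem free (k : Type) [Field k] (ι : Type) :
    Pub.IsFreeAlternative k (FreeAlt.gen : ι → FreeAlt k ι) := by
  refine ⟨⟨fun c p q => ⟨smul_mul_assoc c p q, mul_smul_comm c p q⟩,
    fun p q => ⟨FreeAlt.isAlt.left p q, FreeAlt.isAlt.right p q⟩⟩, ?_⟩
  intro C _ _ hC c
  haveI : IsScalarTower k C C := ⟨fun c p q => (hC.1 c p q).1⟩
  haveI : SMulCommClass k C C := ⟨fun c p q => (hC.1 c p q).2.symm⟩
  have hC' : IsAlt C := ⟨fun p q => (hC.2 p q).1, fun p q => (hC.2 p q).2⟩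
  refine ⟨FreeAlt.lift hC' c, fun i => FreeAlt.lift_gen hC' c i, ?_⟩
  intro g hg
  apply FreeAlt.hom_ext
  intro i
  rw [hg i, FreeAlt.lift_gen]

section
variable (k : Type) [Field k]

/-- the two models of `sl₃` -/
def eS : Pub.S3 k ≃ₗ[k] sl3 k where
  toFun X := ⟨X.1, X.2⟩
  invFun X := ⟨X.1, X.2⟩
  map_add' _ _ := rfl
  map_smul' _ _ := rfl
  left_inv _ := rfl
  right_inv _ := rfl

lemma eS_brS (X Y : Pub.S3 k) : eS k (Pub.brS X Y) = ⁅eS k X, eS k Y⁆ := rfl

lemma eS_symS [CharZero k] (X Y : Pub.S3 k) : eS k (Pub.symS X Y) = sym3 k (eS k X) (eS k Y) := rfl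

variable (A : Type) [NonUnitalNonAssocRing A] [Module k A]

/-- the two models of `B(A)` -/
noncomputable def eB : Pub.B k A ≃ₗ[k] BA k A :=
  (Submodule.quotEquivOfEq (Pub.relB k A) (relB k A) rfl : _ ≃ₗ[k] ((A ⊗[k] A) ⧸ relB k A))

variable {A} in
lemma eB_w (p q : A) : eB k A (Submodule.Quotient.mk (p ⊗ₜ[k] q)) = wdg k p q := rfl

/-- the two models of `ABG(A)` -/
noncomputable def eL : ((Pub.S3 k ⊗[k] A) × Pub.B k A) ≃ₗ[k] ABG k A :=
  ((TensorProduct.congr (eS k) (LinearEquiv.refl k A)).prodCongr (eB k A) :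
    _ ≃ₗ[k] ((sl3 k ⊗[k] A) × BA k A))

variable {A} in
lemma eL_fst (X : Pub.S3 k) (p : A) : eL k A (X ⊗ₜ[k] p, 0) = inS k (eS k X ⊗ₜ[k] p) := by
  apply abg_ext
  · show (TensorProduct.congr (eS k) (LinearEquiv.refl k A)) (X ⊗ₜ[k] p) = _
    rw [TensorProduct.congr_tmul]
    rfl
  · show eB k A 0 = 0
    rw [map_zero]

variable {A} in
lemma eL_snd (b : Pub.B k A) : eL k A (0, b) = inB k (eB k A b) := by
  apply abg_ext
  · show (TensorProduct.congr (eS k) (LinearEquiv.refl k A)) 0 = _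
    rw [map_zero]
    rfl
  · rfl

/-- `X ⊗ p` -/
noncomputable def s (X : Pub.S3 k) (p : A) : ABG k A := inS k (eS k X ⊗ₜ[k] p)

/-- `p ∧ q` -/
noncomputable def w (p q : A) : ABG k A := inB k (wdg k p q)

lemma isSpace : Pub.IsSpace (s k A) (w k A) :=
  ⟨eL k A, fun X p => eL_fst k X p, fun p q => (eL_snd k _).trans (by rw [eB_w]; rfl)⟩

end

section
variable (k : Type) [Field k] [CharZero k]
variable (A : Type) [NonUnitalNonAssocRing A] [Module k A] [IsScalarTower k A A] [SMulCommClass k A A]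
variable [hA : AltAlg A]

omit hA [CharZero k] [IsScalarTower k A A] [SMulCommClass k A A] in
lemma inS_add (u v : sl3 k ⊗[k] A) : inS k (u + v) = inS k u + inS k v := by
  apply abg_ext
  · rfl
  · show (0 : BA k A) = 0 + 0
    rw [add_zero]

omit hA [CharZero k] [IsScalarTower k A A] [SMulCommClass k A A] in
lemma inB_add (u v : BA k A) : inB k (u + v) = inB k u + inB k v := by
  apply abg_ext
  · show (0 : sl3 k ⊗[k] A) = 0 + 0
    rw [add_zero]
  · rfl

omit hA [CharZero k] [IsScalarTower k A A] [SMulCommClass k A A] in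
lemma inB_smul (c : k) (u : BA k A) : inB k (c • u) = c • inB k u := by
  apply abg_ext
  · show (0 : sl3 k ⊗[k] A) = c • 0
    rw [smul_zero]
  · rfl

lemma isABG : Pub.IsABG (s k A) (w k A) where
  space := isSpace k A
  rule1 := by
    intro X Y p q
    show ⁅inS k (eS k X ⊗ₜ[k] p), inS k (eS k Y ⊗ₜ[k] q)⁆ =
      inS k (eS k (Pub.brS X Y) ⊗ₜ[k] ((1 / 2 : k) • (p * q + q * p))) +
      inS k (eS k (Pub.symS X Y) ⊗ₜ[k] (p * q - q * p)) +
      ((1 / 3 : k) * (X.1 * Y.1).trace) • inB k (wdg k p q)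
    rw [lie_tmul_tmul, eS_brS, eS_symS, ← inS_add, ← inB_smul]
    rfl
  rule2 := by
    intro p q X r
    exact lie_wdg_tmul k p q r (eS k X)
  rule3 := by
    intro p q r t
    show ⁅inB k (wdg k p q), inB k (wdg k r t)⁆ = inB k (wdg k (Pub.D p q r) t) +
      inB k (wdg k r (Pub.D p q t))
    rw [lie_wdg_wdg, ← inB_add]
    rfl

omit hA in
lemma isAction : Pub.IsAction (s k A) (w k A) (fun X => sigma k A (eS k X)) := by
  intro X
  constructor
  · intro Y p
    show sigma k A (eS k X) (inS k (eS k Y ⊗ₜ[k] p)) = inS k (eS k (Pub.brS X Y) ⊗ₜ[k] p)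
    rw [eS_brS, sigma_apply]
    apply abg_ext
    · show adT k A (eS k X) (eS k Y ⊗ₜ[k] p) = _
      rw [adT_tmul]
      rfl
    · rfl
  · intro p q
    show sigma k A (eS k X) (inB k (wdg k p q)) = 0
    rw [sigma_apply]
    apply abg_ext
    · show adT k A (eS k X) 0 = 0
      rw [map_zero]
    · rfl

omit [CharZero k] in
lemma isDer {L : Type} [AddCommGroup L] [Module k L] (D : Module.End k L) :
    Pub.IsDer (fun y => D y) (der D) := ⟨der_one D, fun y w => der_ι_mul D y w⟩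

omit [CharZero k] in
lemma isCE {L : Type} [LieRing L] [LieAlgebra k L] :
    Pub.IsCE (dCE : Module.End k (ExteriorAlgebra k L)) :=
  ⟨dCE_one, fun x => ⟨der (adL x), isDer k (adL x), fun w => dCE_ι_mul x w⟩⟩

lemma trivial_of (n : ℕ) (x : Hn k A n) (hx : x ≠ 0) (h : ∀ X : sl3 k, ⁅X, x⁆ = 0) :
    Pub.HasTrivial (dCE : Module.End k (ExteriorAlgebra k (ABG k A)))
      (fun X => der (sigma k A (eS k X))) n := by
  obtain ⟨z, rfl⟩ := LieSubmodule.Quotient.surjective_mk' _ x
  refine ⟨z.1, z.2, ?_, ?_⟩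
  · intro hz
    apply hx
    rw [LieSubmodule.Quotient.mk'_apply, LieSubmodule.Quotient.mk_eq_zero']
    exact hz
  · intro X
    have := h (eS k X)
    rw [← LieModuleHom.map_lie, LieSubmodule.Quotient.mk'_apply,
      LieSubmodule.Quotient.mk_eq_zero'] at this
    exact this

lemma adjoint_of (n : ℕ) (φ : sl3 k →ₗ⁅k, sl3 k⁆ Hn k A n) (hφ : φ ≠ 0) :
    Pub.HasAdjoint (dCE : Module.End k (ExteriorAlgebra k (ABG k A)))
      (fun X => der (sigma k A (eS k X))) n := by
  have hs : Function.Surjective (LieSubmodule.Quotient.mk' ((Bn k A n).comap (Zn k A n).incl)) :=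
    LieSubmodule.Quotient.surjective_mk' _
  obtain ⟨ψ, hψ⟩ := Module.projective_lifting_property
    ((LieSubmodule.Quotient.mk' ((Bn k A n).comap (Zn k A n).incl)) : ↥(Zn k A n) →ₗ[k] Hn k A n)
    (φ : sl3 k →ₗ[k] Hn k A n) hs
  have hψ' : ∀ X : sl3 k, LieSubmodule.Quotient.mk' ((Bn k A n).comap (Zn k A n).incl) (ψ X) = φ X :=
    fun X => LinearMap.congr_fun hψ X
  refine ⟨((Zn k A n).toSubmodule.subtype ∘ₗ ψ) ∘ₗ (eS k).toLinearMap, ?_, ?_, ?_⟩
  · intro Y
    exact (ψ (eS k Y)).2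
  · by_contra hcon
    push Not at hcon
    apply hφ
    ext X
    rw [← hψ' X, LieModuleHom.zero_apply, LieSubmodule.Quotient.mk'_apply,
      LieSubmodule.Quotient.mk_eq_zero']
    exact hcon ((eS k).symm X)
  · intro X Y
    have h1 : LieSubmodule.Quotient.mk' ((Bn k A n).comap (Zn k A n).incl)
        (⁅eS k X, ψ (eS k Y)⁆ - ψ ⁅eS k X, eS k Y⁆) = 0 := by
      rw [map_sub, LieModuleHom.map_lie, hψ', hψ', LieModuleHom.map_lie, sub_self]
    rw [LieSubmodule.Quotient.mk'_apply, LieSubmodule.Quotient.mk_eq_zero'] at h1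
    exact h1

end

theorem main (k : Type) [Field k] [CharZero k] :
    ∃ (A : Type) (_ : NonUnitalNonAssocRing A) (_ : Module k A) (x : Fin 9 → A) (L : Type)
      (_ : LieRing L) (_ : LieAlgebra k L), Pub.IsFreeAlternative k x ∧ Pub.Witness k A L := by
  refine ⟨FreeAlt k (Fin 9), inferInstance, inferInstance, FreeAlt.gen,
    ABG k (FreeAlt k (Fin 9)), inferInstance, inferInstance, free k _, s k _, w k _,
    fun X => sigma k _ (eS k X), fun X => der (sigma k _ (eS k X)), dCE, isABG k _,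
    isAction k _, fun X => isDer k _, isCE k, ?_⟩
  by_contra hcon
  push Not at hcon
  apply not_conj euler Pool.Agent.W378.ABGF.bas k
  intro n h1 h9
  obtain ⟨h2, h3⟩ := hcon n h1 h9
  constructor
  · intro x hx
    by_contra hx0
    exact h2 (trivial_of k _ n x hx0 hx)
  · intro φ
    by_contra h
    exact h3 (adjoint_of k _ n φ h)

end Pool.Agent.W429.ABG.Bridge
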