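import Mathlib
set_option autoImplicit false

/-! The Chevalley-Eilenberg complex `(Λ L, d)` of a Lie algebra `L` over a field, with trivial
coefficients, and derivations of the exterior algebra extending linear endomorphisms of `L`. -/

namespace Pool.Agent.W429.ABG
open Module
attribute [local instance 100] LieRing.ofAssociativeRing

section der
variable {k : Type} [Field k] {L : Type} [AddCommGroup L] [Module k L]

/-- auxiliary bilinear map for `der` -/
noncomputable def derAux (D : Module.End k L) :
    L →ₗ[k] (ExteriorAlgebra k L × ExteriorAlgebra k L) →ₗ[k] ExteriorAlgebra k L :=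
  LinearMap.mk₂ k (fun m p => ExteriorAlgebra.ι k (D m) * p.1 + ExteriorAlgebra.ι k m * p.2)
    (by intro a b p; simp only [map_add, add_mul]; abel)
    (by intro c a p; simp only [map_smul, smul_mul_assoc, smul_add])
    (by intro a p q; simp only [Prod.fst_add, Prod.snd_add, mul_add]; abel)
    (by intro c a p; simp only [Prod.smul_fst, Prod.smul_snd, mul_smul_comm, smul_add])

lemma derAux_cond (D : Module.End k L) (m : L) (x fx : ExteriorAlgebra k L) :
    derAux D m (CliffordAlgebra.ι (0 : QuadraticForm k L) m * x, derAux D m (x, fx)) =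
      (0 : QuadraticForm k L) m • fx := by
  have h1 : ExteriorAlgebra.ι k m * ExteriorAlgebra.ι k m = 0 := ExteriorAlgebra.ι_sq_zero m
  have h2 : ExteriorAlgebra.ι k (D m) * ExteriorAlgebra.ι k m +
    ExteriorAlgebra.ι k m * ExteriorAlgebra.ι k (D m) = 0 := ExteriorAlgebra.ι_add_mul_swap _ _
  show ExteriorAlgebra.ι k (D m) * (ExteriorAlgebra.ι k m * x) +
    ExteriorAlgebra.ι k m * (ExteriorAlgebra.ι k (D m) * x + ExteriorAlgebra.ι k m * fx) = _
  rw [mul_add, ← mul_assoc, ← mul_assoc, ← mul_assoc, ← add_assoc, ← add_mul, h2, h1]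
  simp

/-- The derivation of the exterior algebra `Λ L` which extends the endomorphism `D` of `L`. -/
noncomputable def derOf (D : Module.End k L) : Module.End k (ExteriorAlgebra k L) :=
  CliffordAlgebra.foldr' (0 : QuadraticForm k L) (derAux D) (derAux_cond D) 0

lemma derOf_one (D : Module.End k L) : derOf D 1 = 0 := by
  have h := CliffordAlgebra.foldr'_algebraMap (0 : QuadraticForm k L) (derAux D) (derAux_cond D) 0 1
  rw [map_one, smul_zero] at h
  exact h

lemma derOf_algebraMap (D : Module.End k L) (r : k) :
    derOf D (algebraMap k (ExteriorAlgebra k L) r) = 0 := by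
  rw [Algebra.algebraMap_eq_smul_one, map_smul, derOf_one, smul_zero]

lemma derOf_ι_mul (D : Module.End k L) (m : L) (x : ExteriorAlgebra k L) :
    derOf D (ExteriorAlgebra.ι k m * x) =
      ExteriorAlgebra.ι k (D m) * x + ExteriorAlgebra.ι k m * derOf D x :=
  CliffordAlgebra.foldr'_ι_mul (0 : QuadraticForm k L) (derAux D) (derAux_cond D) 0 m x

lemma derOf_ι (D : Module.End k L) (m : L) :
    derOf D (ExteriorAlgebra.ι k m) = ExteriorAlgebra.ι k (D m) := by
  have h := derOf_ι_mul D m 1
  rw [mul_one, derOf_one, mul_zero, add_zero, mul_one] at h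
  exact h

/-- two linear endomorphisms of `Λ L` agreeing on `1` and propagating along `ι m * _` are equal -/
lemma ext_induction {N : Type} [AddCommGroup N] [Module k N] (f g : ExteriorAlgebra k L →ₗ[k] N)
    (h1 : f 1 = g 1)
    (h2 : ∀ (m : L) (x : ExteriorAlgebra k L), f x = g x →
      f (ExteriorAlgebra.ι k m * x) = g (ExteriorAlgebra.ι k m * x)) : f = g := by
  refine LinearMap.ext fun x => ?_
  induction x using CliffordAlgebra.left_induction with
  | algebraMap r => rw [Algebra.algebraMap_eq_smul_one, map_smul, map_smul, h1]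
  | add x y hx hy => rw [map_add, map_add, hx, hy]
  | ι_mul x m hx => exact h2 _ _ hx

/-- `derOf` as a linear map -/
noncomputable def der : Module.End k L →ₗ[k] Module.End k (ExteriorAlgebra k L) where
  toFun := derOf
  map_add' := by
    intro D E
    apply ext_induction
    · rw [LinearMap.add_apply, derOf_one, derOf_one, derOf_one, add_zero]
    · intro m x hx
      rw [LinearMap.add_apply] at hx ⊢
      rw [derOf_ι_mul, derOf_ι_mul, derOf_ι_mul, hx, LinearMap.add_apply, map_add, add_mul, mul_add]
      abel
  map_smul' := by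
    intro c D
    apply ext_induction
    · rw [LinearMap.smul_apply, derOf_one, derOf_one, smul_zero]
    · intro m x hx
      rw [LinearMap.smul_apply] at hx ⊢
      rw [RingHom.id_apply] at hx ⊢
      rw [derOf_ι_mul, derOf_ι_mul, hx, LinearMap.smul_apply, map_smul, smul_mul_assoc, smul_add,
        mul_smul_comm]

lemma der_one (D : Module.End k L) : der D 1 = 0 := derOf_one D

lemma der_ι_mul (D : Module.End k L) (m : L) (x : ExteriorAlgebra k L) :
    der D (ExteriorAlgebra.ι k m * x) =
      ExteriorAlgebra.ι k (D m) * x + ExteriorAlgebra.ι k m * der D x := derOf_ι_mul D m x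

lemma der_ι (D : Module.End k L) (m : L) :
    der D (ExteriorAlgebra.ι k m) = ExteriorAlgebra.ι k (D m) := derOf_ι D m

lemma der_mul (D : Module.End k L) (x y : ExteriorAlgebra k L) :
    der D (x * y) = der D x * y + x * der D y := by
  induction x using CliffordAlgebra.left_induction with
  | algebraMap r =>
    rw [Algebra.algebraMap_eq_smul_one, smul_mul_assoc, one_mul, map_smul, map_smul, der_one,
      smul_zero, zero_mul, zero_add, smul_mul_assoc, one_mul]
  | add x y hx hy => rw [add_mul, map_add, map_add, hx, hy, add_mul, add_mul]; abel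
  | ι_mul x m hx =>
    rw [mul_assoc]
    have h1 := der_ι_mul D m (x * y)
    have h2 := der_ι_mul D m x
    rw [hx] at h1
    refine h1.trans ?_
    rw [show (CliffordAlgebra.ι (0 : QuadraticForm k L)) m = ExteriorAlgebra.ι k m from rfl, h2,
      add_mul, mul_add, mul_assoc, mul_assoc, mul_assoc]
    abel

lemma der_comm (D E : Module.End k L) :
    der (D * E - E * D) = der D * der E - der E * der D := by
  apply ext_induction
  · rw [der_one, LinearMap.sub_apply, Module.End.mul_apply, Module.End.mul_apply, der_one, der_one,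
      map_zero, map_zero, sub_zero]
  · intro m x hx
    rw [LinearMap.sub_apply, Module.End.mul_apply, Module.End.mul_apply] at hx ⊢
    rw [der_ι_mul, der_ι_mul, der_ι_mul, hx, map_add, map_add, der_ι_mul, der_ι_mul, der_ι_mul,
      der_ι_mul, LinearMap.sub_apply, Module.End.mul_apply, Module.End.mul_apply, map_sub, sub_mul,
      mul_sub]
    abel

/-- `der` as a Lie algebra homomorphism `gl(L) → gl(Λ L)` -/
noncomputable def derLie : Module.End k L →ₗ⁅k⁆ Module.End k (ExteriorAlgebra k L) :=
  { der with
    map_lie' := by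
      intro D E
      exact der_comm D E }

lemma derLie_apply (D : Module.End k L) : derLie D = der D := rfl

end der

section CE
variable {k : Type} [Field k] {L : Type} [LieRing L] [LieAlgebra k L]

/-- The adjoint action of `m` as a linear endomorphism of `L`. -/
noncomputable def adL (m : L) : Module.End k L := LieAlgebra.ad k L m

lemma adL_apply (m x : L) : adL (k := k) m x = ⁅m, x⁆ := rfl

/-- auxiliary bilinear map for `dCE` -/
noncomputable def dAux :
    L →ₗ[k] (ExteriorAlgebra k L × ExteriorAlgebra k L) →ₗ[k] ExteriorAlgebra k L :=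
  LinearMap.mk₂ k (fun m p => der (adL m) p.1 - ExteriorAlgebra.ι k m * p.2)
    (by
      intro a b p
      have : adL (k := k) (a + b) = adL a + adL b := by
        ext x; simp [adL_apply]
      rw [this]
      simp only [map_add, add_mul, LinearMap.add_apply]; abel)
    (by
      intro c a p
      have : adL (k := k) (c • a) = c • adL a := by
        ext x; simp [adL_apply]
      rw [this]
      simp only [map_smul, smul_mul_assoc, smul_sub, LinearMap.smul_apply])
    (by intro a p q; simp only [Prod.fst_add, Prod.snd_add, mul_add, map_add]; abel)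
    (by intro c a p; simp only [Prod.smul_fst, Prod.smul_snd, mul_smul_comm, smul_sub, map_smul])

lemma dAux_cond (m : L) (x fx : ExteriorAlgebra k L) :
    dAux m (CliffordAlgebra.ι (0 : QuadraticForm k L) m * x, dAux m (x, fx)) =
      (0 : QuadraticForm k L) m • fx := by
  have h1 : ExteriorAlgebra.ι k m * ExteriorAlgebra.ι k m = 0 := ExteriorAlgebra.ι_sq_zero m
  show der (adL m) (ExteriorAlgebra.ι k m * x) -
    ExteriorAlgebra.ι k m * (der (adL m) x - ExteriorAlgebra.ι k m * fx) = _
  rw [der_ι_mul, adL_apply, lie_self, map_zero, zero_mul, zero_add, mul_sub, ← mul_assoc, h1]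
  simp

/-- The Chevalley-Eilenberg differential on `Λ L`: `d 1 = 0` and
`d (m ∧ x) = m · x - m ∧ d x`, where `m · x` is the adjoint action extended to `Λ L` by derivations.
On `m₁ ∧ m₂` it is `[m₁, m₂]`; on `m₁ ∧ ⋯ ∧ mₙ` it is
`∑_{i<j} (-1)^(i+j+1) [mᵢ, mⱼ] ∧ m₁ ∧ ⋯ m̂ᵢ ⋯ m̂ⱼ ⋯ ∧ mₙ`. -/
noncomputable def dCE : Module.End k (ExteriorAlgebra k L) :=
  CliffordAlgebra.foldr' (0 : QuadraticForm k L) dAux dAux_cond 0

lemma dCE_one : dCE (1 : ExteriorAlgebra k L) = 0 := by
  have h := CliffordAlgebra.foldr'_algebraMap (0 : QuadraticForm k L) dAux dAux_cond 0 1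
  rw [map_one, smul_zero] at h
  exact h

lemma dCE_ι_mul (m : L) (x : ExteriorAlgebra k L) :
    dCE (ExteriorAlgebra.ι k m * x) = der (adL m) x - ExteriorAlgebra.ι k m * dCE x :=
  CliffordAlgebra.foldr'_ι_mul (0 : QuadraticForm k L) dAux dAux_cond 0 m x

lemma dCE_ι (m : L) : dCE (ExteriorAlgebra.ι k m) = 0 := by
  have h := dCE_ι_mul (k := k) m 1
  rw [mul_one, dCE_one, mul_zero, sub_zero, der_one] at h
  exact h

lemma dCE_ι_ι (m n : L) :
    dCE (ExteriorAlgebra.ι k m * ExteriorAlgebra.ι k n) = ExteriorAlgebra.ι k ⁅m, n⁆ := by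
  rw [dCE_ι_mul, dCE_ι, mul_zero, sub_zero, der_ι, adL_apply]

/-- derivations of `L` commute with `d` -/
lemma der_dCE (D : Module.End k L) (hD : ∀ x y : L, D ⁅x, y⁆ = ⁅D x, y⁆ + ⁅x, D y⁆)
    (x : ExteriorAlgebra k L) : der D (dCE x) = dCE (der D x) := by
  have key : der D * dCE = dCE * der D := by
    apply ext_induction
    · rw [Module.End.mul_apply, Module.End.mul_apply, der_one, dCE_one, map_zero, map_zero]
    · intro m x hx
      rw [Module.End.mul_apply, Module.End.mul_apply] at hx ⊢
      rw [der_ι_mul, map_add, dCE_ι_mul, dCE_ι_mul, dCE_ι_mul, map_sub, der_ι_mul, hx]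
      have h3 : der (D * adL m - adL m * D) = der (adL (k := k) (D m)) := by
        congr 1
        ext y
        rw [LinearMap.sub_apply, Module.End.mul_apply, Module.End.mul_apply, adL_apply, adL_apply,
          adL_apply, hD]
        abel
      rw [der_comm] at h3
      rw [← h3, LinearMap.sub_apply, Module.End.mul_apply, Module.End.mul_apply]
      abel
  exact LinearMap.congr_fun key x

/-- `d ∘ d = 0` -/
theorem dCE_dCE (x : ExteriorAlgebra k L) : dCE (dCE x) = 0 := by
  have key : (dCE * dCE : Module.End k (ExteriorAlgebra k L)) = 0 := by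
    apply ext_induction
    · rw [Module.End.mul_apply, dCE_one, map_zero, LinearMap.zero_apply]
    · intro m x hx
      rw [Module.End.mul_apply, LinearMap.zero_apply] at hx ⊢
      rw [dCE_ι_mul, map_sub, dCE_ι_mul, hx, mul_zero, sub_zero, der_dCE _ _ x, sub_self]
      intro x y
      exact leibniz_lie m x y
  exact LinearMap.congr_fun key x

end CE

end Pool.Agent.W429.ABG
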