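import Pool.Agent.W429.ABG.Stmts
import Pool.Agent.W429.ABG.CE
import Pool.Agent.W429.ABG.Alt
set_option autoImplicit false
set_option linter.unusedSimpArgs false
set_option linter.unusedSectionVars false

/-! The Allison-Benkart-Gao Lie algebra `ABG(A) = (sl₃ ⊗ A) ⊕ B(A)` of an alternative algebra `A`. -/

namespace Pool.Agent.W429.ABG
open Module TensorProduct
open Pool.Agent.Helper805.Nuc.Tens (IsAlt as)
attribute [local instance 100] LieRing.ofAssociativeRing

/-- alternative algebras, as a class -/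
class AltAlg (A : Type) [NonUnitalNonAssocRing A] : Prop where
  isAlt : IsAlt A

section defs
variable (k : Type) [Field k] [CharZero k]
variable (A : Type) [NonUnitalNonAssocRing A] [Module k A] [IsScalarTower k A A] [SMulCommClass k A A]

/-! #### bilinear operations of `A` -/

/-- `p · q = ½ (p q + q p)` as a bilinear map -/
noncomputable def jorB : A →ₗ[k] A →ₗ[k] A :=
  LinearMap.mk₂ k (fun p q => (1 / 2 : k) • (p * q + q * p))
    (by intro a b c; simp only [add_mul, mul_add, smul_add]; abel)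
    (by intro c a b; simp only [smul_mul_assoc, mul_smul_comm, ← smul_add, smul_comm c])
    (by intro a b c; simp only [add_mul, mul_add, smul_add]; abel)
    (by intro c a b; simp only [smul_mul_assoc, mul_smul_comm, ← smul_add, smul_comm c])

/-- `[p, q] = p q - q p` as a bilinear map -/
noncomputable def comB : A →ₗ[k] A →ₗ[k] A :=
  LinearMap.mk₂ k (fun p q => p * q - q * p)
    (by intro a b c; simp only [add_mul, mul_add]; abel)
    (by intro c a b; simp only [smul_mul_assoc, mul_smul_comm, smul_sub])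
    (by intro a b c; simp only [add_mul, mul_add]; abel)
    (by intro c a b; simp only [smul_mul_assoc, mul_smul_comm, smul_sub])

/-- `D_{p,q} = [L_p, L_q] + [R_p, R_q] + [L_p, R_q]` in `End A` -/
noncomputable def Dop (p q : A) : Module.End k A :=
  (LinearMap.mulLeft k p * LinearMap.mulLeft k q - LinearMap.mulLeft k q * LinearMap.mulLeft k p) +
  (LinearMap.mulRight k p * LinearMap.mulRight k q -
    LinearMap.mulRight k q * LinearMap.mulRight k p) +
  (LinearMap.mulLeft k p * LinearMap.mulRight k q - LinearMap.mulRight k q * LinearMap.mulLeft k p)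

variable {A} in
lemma Dop_apply' (p q x : A) : Dop k A p q x =
    (p * (q * x) - q * (p * x)) + ((x * q) * p - (x * p) * q) + (p * (x * q) - (p * x) * q) := rfl

/-- `D_{p,q}` as a bilinear function of `p, q` -/
noncomputable def DopB : A →ₗ[k] A →ₗ[k] Module.End k A :=
  LinearMap.mk₂ k (fun p q => Dop k A p q)
    (by intro a b c; ext x; simp only [Dop_apply', LinearMap.add_apply, add_mul, mul_add]; abel)
    (by intro c a b; ext x
        simp only [Dop_apply', LinearMap.smul_apply, smul_mul_assoc, mul_smul_comm, smul_sub,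
          smul_add])
    (by intro a b c; ext x; simp only [Dop_apply', LinearMap.add_apply, add_mul, mul_add]; abel)
    (by intro c a b; ext x
        simp only [Dop_apply', LinearMap.smul_apply, smul_mul_assoc, mul_smul_comm, smul_sub,
          smul_add])

/-! #### `B(A)` -/

/-- the relations of `B(A)` inside `A ⊗ A`: the `p ⊗ p` (which define `Λ² A`) and the
`pq ⊗ r + qr ⊗ p + rp ⊗ q` -/
noncomputable def relB : Submodule k (A ⊗[k] A) :=
  Submodule.span k ({t | ∃ p : A, t = p ⊗ₜ[k] p} ∪
    {t | ∃ p q r : A, t = (p * q) ⊗ₜ[k] r + (q * r) ⊗ₜ[k] p + (r * p) ⊗ₜ[k] q})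

/-- `B(A) = Λ²(A) / span {pq ∧ r + qr ∧ p + rp ∧ q}` -/
def BA : Type := (A ⊗[k] A) ⧸ relB k A

noncomputable instance : AddCommGroup (BA k A) := inferInstanceAs (AddCommGroup ((A ⊗[k] A) ⧸ relB k A))
noncomputable instance : Module k (BA k A) := inferInstanceAs (Module k ((A ⊗[k] A) ⧸ relB k A))

/-- the projection `A ⊗ A → B(A)` -/
noncomputable def prB : (A ⊗[k] A) →ₗ[k] BA k A := (relB k A).mkQ

variable {A} in
/-- the class `p ∧ q` in `B(A)` -/
noncomputable def wdg (p q : A) : BA k A := prB k A (p ⊗ₜ[k] q)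

/-- `p ∧ q` as a bilinear map -/
noncomputable def wdgB : A →ₗ[k] A →ₗ[k] BA k A := (TensorProduct.mk k A A).compr₂ (prB k A)

/-! #### `sl₃` -/

omit [CharZero k] in
lemma coe_add3 (X Y : sl3 k) : (X + Y).1 = X.1 + Y.1 := rfl
omit [CharZero k] in
lemma coe_smul3 (c : k) (X : sl3 k) : (c • X).1 = c • X.1 := rfl
omit [CharZero k] in
lemma coe_lie3 (X Y : sl3 k) : (⁅X, Y⁆ : sl3 k).1 = X.1 * Y.1 - Y.1 * X.1 := rfl

/-- `{X, Y} = ½ (XY + YX) - ⅓ tr(XY) I` -/
noncomputable def sym3 (X Y : sl3 k) : sl3 k :=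
  ⟨(1 / 2 : k) • (X.1 * Y.1 + Y.1 * X.1) - ((1 / 3 : k) * (X.1 * Y.1).trace) • (1 : Matrix (Fin 3) (Fin 3) k), by
    show Matrix.trace ((1 / 2 : k) • (X.1 * Y.1 + Y.1 * X.1) -
      ((1 / 3 : k) * (X.1 * Y.1).trace) • (1 : Matrix (Fin 3) (Fin 3) k)) = 0
    rw [Matrix.trace_sub, Matrix.trace_smul, Matrix.trace_smul, Matrix.trace_add,
      Matrix.trace_mul_comm Y.1 X.1, Matrix.trace_one]
    simp only [smul_eq_mul, Fintype.card_fin]
    push_cast
    ring⟩

/-- `{X, Y}` as a bilinear map -/
noncomputable def symB : sl3 k →ₗ[k] sl3 k →ₗ[k] sl3 k :=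
  LinearMap.mk₂ k (sym3 k)
    (by intro X X' Y; apply Subtype.ext
        simp only [sym3, coe_add3, add_mul, mul_add, Matrix.trace_add]
        module)
    (by intro c X Y; apply Subtype.ext
        simp only [sym3, coe_smul3, smul_mul_assoc, mul_smul_comm, Matrix.trace_smul,
          smul_eq_mul]
        module)
    (by intro X X' Y; apply Subtype.ext
        simp only [sym3, coe_add3, add_mul, mul_add, Matrix.trace_add]
        module)
    (by intro c X Y; apply Subtype.ext
        simp only [sym3, coe_smul3, smul_mul_assoc, mul_smul_comm, Matrix.trace_smul,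
          smul_eq_mul]
        module)

/-- the Lie bracket of `sl₃` as a bilinear map -/
noncomputable def lieB : sl3 k →ₗ[k] sl3 k →ₗ[k] sl3 k :=
  (LieModule.toEnd k (sl3 k) (sl3 k)).toLinearMap

/-- the trace form `tr(XY)` -/
noncomputable def trB : sl3 k →ₗ[k] sl3 k →ₗ[k] k :=
  LinearMap.mk₂ k (fun X Y => (X.1 * Y.1).trace)
    (by intro X X' Y; simp only [coe_add3, add_mul, Matrix.trace_add])
    (by intro c X Y; simp only [coe_smul3, smul_mul_assoc, Matrix.trace_smul])
    (by intro X X' Y; simp only [coe_add3, mul_add, Matrix.trace_add])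
    (by intro c X Y; simp only [coe_smul3, mul_smul_comm, Matrix.trace_smul])

/-- the `sl₃ ⊗ A`-component of the bracket of two elements of `sl₃ ⊗ A`:
`[X, Y] ⊗ (p · q) + {X, Y} ⊗ [p, q]` -/
noncomputable def br1 : (sl3 k ⊗[k] A) →ₗ[k] (sl3 k ⊗[k] A) →ₗ[k] (sl3 k ⊗[k] A) :=
  TensorProduct.map₂ (lieB k) (jorB k A) + TensorProduct.map₂ (symB k) (comB k A)

/-- the `B(A)`-component of the bracket of two elements of `sl₃ ⊗ A`: `⅓ tr(XY) p ∧ q` -/
noncomputable def ip : (sl3 k ⊗[k] A) →ₗ[k] (sl3 k ⊗[k] A) →ₗ[k] BA k A :=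
  (TensorProduct.map₂ (trB k) (wdgB k A)).compr₂
    ((1 / 3 : k) • (TensorProduct.lid k (BA k A)).toLinearMap)

variable {A}

lemma lieB_apply (X Y : sl3 k) : lieB k X Y = ⁅X, Y⁆ := rfl
lemma symB_apply (X Y : sl3 k) : symB k X Y = sym3 k X Y := rfl
lemma trB_apply (X Y : sl3 k) : trB k X Y = (X.1 * Y.1).trace := rfl
lemma jorB_apply (p q : A) : jorB k A p q = (1 / 2 : k) • (p * q + q * p) := rfl
lemma comB_apply (p q : A) : comB k A p q = p * q - q * p := rfl
lemma wdgB_apply (p q : A) : wdgB k A p q = wdg k p q := rfl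
lemma DopB_apply (p q : A) : DopB k A p q = Dop k A p q := rfl

lemma br1_tmul (X Y : sl3 k) (p q : A) :
    br1 k A (X ⊗ₜ[k] p) (Y ⊗ₜ[k] q) =
      ⁅X, Y⁆ ⊗ₜ[k] ((1 / 2 : k) • (p * q + q * p)) + sym3 k X Y ⊗ₜ[k] (p * q - q * p) := by
  unfold br1
  rw [LinearMap.add_apply, LinearMap.add_apply, TensorProduct.map₂_apply_tmul,
    TensorProduct.map₂_apply_tmul]
  rfl

lemma ip_tmul (X Y : sl3 k) (p q : A) :
    ip k A (X ⊗ₜ[k] p) (Y ⊗ₜ[k] q) = ((1 / 3 : k) * (X.1 * Y.1).trace) • wdg k p q := by
  unfold ip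
  rw [LinearMap.compr₂_apply, TensorProduct.map₂_apply_tmul]
  simp only [LinearMap.smul_apply, LinearEquiv.coe_coe, TensorProduct.map_tmul,
    TensorProduct.lid_tmul, trB_apply, wdgB_apply, mul_smul]

lemma wdg_add_left (p p' q : A) : wdg k (p + p') q = wdg k p q + wdg k p' q := by
  simp only [← wdgB_apply, map_add, LinearMap.add_apply]
lemma wdg_add_right (p q q' : A) : wdg k p (q + q') = wdg k p q + wdg k p q' := by
  simp only [← wdgB_apply, map_add]
lemma wdg_sub_left (p p' q : A) : wdg k (p - p') q = wdg k p q - wdg k p' q := by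
  simp only [← wdgB_apply, map_sub, LinearMap.sub_apply]
lemma wdg_sub_right (p q q' : A) : wdg k p (q - q') = wdg k p q - wdg k p q' := by
  simp only [← wdgB_apply, map_sub]
lemma wdg_neg_left (p q : A) : wdg k (-p) q = - wdg k p q := by
  simp only [← wdgB_apply, map_neg, LinearMap.neg_apply]
lemma wdg_neg_right (p q : A) : wdg k p (-q) = - wdg k p q := by
  simp only [← wdgB_apply, map_neg]
lemma wdg_smul_left (c : k) (p q : A) : wdg k (c • p) q = c • wdg k p q := by
  simp only [← wdgB_apply, map_smul, LinearMap.smul_apply]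
lemma wdg_smul_right (c : k) (p q : A) : wdg k p (c • q) = c • wdg k p q := by
  simp only [← wdgB_apply, map_smul]

lemma wdg_self (p : A) : wdg k p p = 0 :=
  (Submodule.Quotient.mk_eq_zero _).mpr (Submodule.subset_span (Or.inl ⟨p, rfl⟩))

lemma wdg_swap (p q : A) : wdg k p q = - wdg k q p := by
  have h := wdg_self k (p + q)
  rw [wdg_add_left, wdg_add_right, wdg_add_right, wdg_self, wdg_self, zero_add, add_zero] at h
  exact eq_neg_of_add_eq_zero_left h

lemma wdg_cyc (p q r : A) : wdg k (p * q) r + wdg k (q * r) p + wdg k (r * p) q = 0 := by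
  have h : prB k A ((p * q) ⊗ₜ[k] r + (q * r) ⊗ₜ[k] p + (r * p) ⊗ₜ[k] q) = 0 :=
    (Submodule.Quotient.mk_eq_zero _).mpr (Submodule.subset_span (Or.inr ⟨p, q, r, rfl⟩))
  rw [map_add, map_add] at h
  exact h

lemma BA_induction {P : BA k A → Prop} (h0 : ∀ p q : A, P (wdg k p q))
    (hadd : ∀ x y, P x → P y → P (x + y)) (β : BA k A) : P β := by
  obtain ⟨t, rfl⟩ := (relB k A).mkQ_surjective β
  induction t using TensorProduct.induction_on with
  | zero =>
    have := h0 0 0
    rw [wdg_self] at this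
    rw [map_zero]
    exact this
  | tmul p q => exact h0 p q
  | add x y hx hy => rw [map_add]; exact hadd _ _ hx hy

end defs

section alt
variable (k : Type) [Field k] [CharZero k]
variable (A : Type) [NonUnitalNonAssocRing A] [Module k A] [IsScalarTower k A A] [SMulCommClass k A A]
variable [hA : AltAlg A]

variable {A}

omit [CharZero k] [NonUnitalNonAssocRing A] [Module k A] [IsScalarTower k A A]
  [SMulCommClass k A A] [AltAlg A] in
lemma no_two [CharZero k] [NonUnitalNonAssocRing A] [Module k A] (a : A)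
    (h : (2 : ℤ) • a = 0) : a = 0 := by
  have h2 : (2 : k) • a = 0 := by
    rw [← h, ← Int.cast_smul_eq_zsmul k]; norm_num
  exact (smul_eq_zero.mp h2).resolve_left two_ne_zero

lemma Dop_apply (p q x : A) : Dop k A p q x = dd p q x := by
  rw [Dop_apply']
  unfold dd
  have h1 : p * (q * x) = p * q * x - as p q x := by unfold as; abel
  have h2 : q * (p * x) = q * p * x + as p q x := by
    rw [hA.isAlt.as_left p q x]; unfold as; abel
  have h3 : (x * q) * p = x * (q * p) - as p q x := by
    rw [hA.isAlt.as_left p q x, as_cyc hA.isAlt q p x, as_cyc hA.isAlt p x q]; unfold as; abel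
  have h4 : (x * p) * q = x * (p * q) + as p q x := by
    rw [as_cyc hA.isAlt p q x, as_cyc hA.isAlt q x p]; unfold as; abel
  have h5 : p * (x * q) - (p * x) * q = as p q x := by
    rw [hA.isAlt.as_right p q x]; unfold as; abel
  rw [h1, h2, h3, h4, h5, sub_mul, mul_sub]
  abel

lemma Dop_mul (p q x y : A) : Dop k A p q (x * y) = Dop k A p q x * y + x * Dop k A p q y := by
  rw [Dop_apply, Dop_apply, Dop_apply]
  exact dd_mul hA.isAlt (no_two k) p q x y

lemma Dop_self (p : A) : Dop k A p p = 0 := by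
  refine LinearMap.ext fun x => ?_
  rw [Dop_apply, LinearMap.zero_apply]
  unfold dd
  rw [sub_self, zero_mul, mul_zero, as_self12 hA.isAlt]
  simp

lemma Dop_cyc (p q r : A) : Dop k A (p * q) r + Dop k A (q * r) p + Dop k A (r * p) q = 0 := by
  refine LinearMap.ext fun x => ?_
  rw [LinearMap.add_apply, LinearMap.add_apply, Dop_apply, Dop_apply, Dop_apply]
  exact dd_cyc hA.isAlt (no_two k) p q r x

variable (A) in
lemma relB_le_ker : relB k A ≤ LinearMap.ker (TensorProduct.lift (DopB k A)) := by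
  unfold relB
  rw [Submodule.span_le]
  rintro t (⟨p, rfl⟩ | ⟨p, q, r, rfl⟩)
  · show TensorProduct.lift (DopB k A) (p ⊗ₜ[k] p) = 0
    rw [TensorProduct.lift.tmul, DopB_apply, Dop_self]
  · show TensorProduct.lift (DopB k A) _ = 0
    rw [map_add, map_add, TensorProduct.lift.tmul, TensorProduct.lift.tmul,
      TensorProduct.lift.tmul, DopB_apply, DopB_apply, DopB_apply, Dop_cyc]

variable (A) in
/-- the action of `B(A)` on `A`: `p ∧ q` acts as `D_{p,q}` -/
noncomputable def actD : BA k A →ₗ[k] Module.End k A :=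
  (relB k A).liftQ (TensorProduct.lift (DopB k A)) (relB_le_ker k A)

lemma actD_wdg (p q : A) : actD k A (wdg k p q) = Dop k A p q := by
  show (relB k A).liftQ (TensorProduct.lift (DopB k A)) (relB_le_ker k A)
    ((relB k A).mkQ (p ⊗ₜ[k] q)) = _
  rw [Submodule.mkQ_apply, Submodule.liftQ_apply, TensorProduct.lift.tmul, DopB_apply]

lemma actD_mul (β : BA k A) (x y : A) :
    actD k A β (x * y) = actD k A β x * y + x * actD k A β y := by
  induction β using BA_induction with
  | h0 p q => rw [actD_wdg, Dop_mul]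
  | hadd a b ha hb =>
    simp only [map_add, LinearMap.add_apply, ha, hb, add_mul, mul_add]; abel

/-- the endomorphism `δ ⊗ 1 + 1 ⊗ δ` of `A ⊗ A`, followed by the projection to `B(A)` -/
noncomputable def tder (δ : Module.End k A) : (A ⊗[k] A) →ₗ[k] BA k A :=
  prB k A ∘ₗ (TensorProduct.map δ LinearMap.id + TensorProduct.map LinearMap.id δ)

omit hA in
lemma tder_tmul (δ : Module.End k A) (p q : A) :
    tder k δ (p ⊗ₜ[k] q) = wdg k (δ p) q + wdg k p (δ q) := by
  unfold tder
  rw [LinearMap.comp_apply, LinearMap.add_apply, TensorProduct.map_tmul, TensorProduct.map_tmul,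
    map_add]
  rfl

omit hA in
lemma relB_le_tder (δ : Module.End k A) (hδ : ∀ x y, δ (x * y) = δ x * y + x * δ y) :
    relB k A ≤ LinearMap.ker (tder k δ) := by
  unfold relB
  rw [Submodule.span_le]
  rintro t (⟨p, rfl⟩ | ⟨p, q, r, rfl⟩)
  · show tder k δ _ = 0
    rw [tder_tmul, wdg_swap k p (δ p), add_neg_cancel]
  · show tder k δ _ = 0
    rw [map_add, map_add, tder_tmul, tder_tmul, tder_tmul, hδ, hδ, hδ]
    simp only [wdg_add_left]
    have h1 := wdg_cyc k (δ p) q r
    have h2 := wdg_cyc k p (δ q) r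
    have h3 := wdg_cyc k p q (δ r)
    have h4 : (wdg k (δ p * q) r + wdg k (q * r) (δ p) + wdg k (r * δ p) q) +
      (wdg k (p * δ q) r + wdg k (δ q * r) p + wdg k (r * p) (δ q)) +
      (wdg k (p * q) (δ r) + wdg k (q * δ r) p + wdg k (δ r * p) q) = 0 := by
      rw [h1, h2, h3, add_zero, add_zero]
    rw [← h4]
    abel

/-- a derivation `δ` of `A` acts on `B(A)` by `p ∧ q ↦ δ p ∧ q + p ∧ δ q` -/
noncomputable def derB (δ : Module.End k A) (hδ : ∀ x y, δ (x * y) = δ x * y + x * δ y) :
    Module.End k (BA k A) :=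
  (relB k A).liftQ (tder k δ) (relB_le_tder k δ hδ)

omit hA in
lemma derB_wdg (δ : Module.End k A) (hδ : ∀ x y, δ (x * y) = δ x * y + x * δ y) (p q : A) :
    derB k δ hδ (wdg k p q) = wdg k (δ p) q + wdg k p (δ q) := by
  show (relB k A).liftQ (tder k δ) (relB_le_tder k δ hδ) ((relB k A).mkQ (p ⊗ₜ[k] q)) = _
  rw [Submodule.mkQ_apply, Submodule.liftQ_apply, tder_tmul]

omit hA in
lemma BA_hom_ext {N : Type} [AddCommGroup N] [Module k N] {f g : BA k A →ₗ[k] N}
    (h : ∀ p q, f (wdg k p q) = g (wdg k p q)) : f = g := by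
  refine LinearMap.ext fun β => ?_
  induction β using BA_induction with
  | h0 p q => exact h p q
  | hadd a b ha hb => rw [map_add, map_add, ha, hb]

variable (A) in
/-- the bracket on `B(A)`: `[p ∧ q, r ∧ s] = D_{p,q} r ∧ s + r ∧ D_{p,q} s` -/
noncomputable def bb : BA k A →ₗ[k] BA k A →ₗ[k] BA k A where
  toFun β := derB k (actD k A β) (actD_mul k β)
  map_add' := by
    intro β γ
    apply BA_hom_ext
    intro p q
    simp only [LinearMap.add_apply, derB_wdg, map_add, wdg_add_left, wdg_add_right]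
    abel
  map_smul' := by
    intro c β
    apply BA_hom_ext
    intro p q
    simp only [LinearMap.smul_apply, RingHom.id_apply, derB_wdg, map_smul, wdg_smul_left,
      wdg_smul_right, smul_add]

lemma bb_wdg (β : BA k A) (p q : A) :
    bb k A β (wdg k p q) = wdg k (actD k A β p) q + wdg k p (actD k A β q) :=
  derB_wdg k _ (actD_mul k β) p q

end alt

end Pool.Agent.W429.ABG
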