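import Pool.Agent.W429.ABG.Grad
import Pool.Agent.W708.ABG.R2
set_option autoImplicit false
set_option linter.unusedSimpArgs false
set_option linter.unusedSectionVars false

/-! The derived algebra of `ABG(A)` contains `sl₃ ⊗ A²` and `B(A)`. -/

namespace Pool.Agent.W429.ABG
open Module TensorProduct
open Pool.Agent.W708.ABG (e1 e2 e3 f1 f2 f3 e1_val e2_val e3_val f1_val f2_val f3_val h1_val h2_val
  bas coord sum_bas)
attribute [local instance 100] LieRing.ofAssociativeRing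

section
variable (k : Type) [Field k] [CharZero k]

lemma ex_lie (i : Fin 8) : ∃ Y Z : sl3 k, ∃ c : k, ⁅Y, Z⁆ = c • bas k i ∧ c ≠ 0 := by
  fin_cases i
  · exact ⟨h1 k, e1 k, 2, Pool.Agent.W708.ABG.h1e1 k, two_ne_zero⟩
  · exact ⟨h2 k, e2 k, 2, Pool.Agent.W708.ABG.h2e2 k, two_ne_zero⟩
  · exact ⟨h1 k, e3 k, 1, by rw [one_smul]; exact Pool.Agent.W708.ABG.h1e3 k, one_ne_zero⟩
  · refine ⟨f1 k, h1 k, 2, ?_, two_ne_zero⟩
    rw [← lie_skew, Pool.Agent.W708.ABG.h1f1 k]; simp [bas]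
  · refine ⟨f2 k, h2 k, 2, ?_, two_ne_zero⟩
    rw [← lie_skew, Pool.Agent.W708.ABG.h2f2 k]; simp [bas]
  · refine ⟨f3 k, h1 k, 1, ?_, one_ne_zero⟩
    rw [← lie_skew, Pool.Agent.W708.ABG.h1f3 k]; simp [bas]
  · exact ⟨e1 k, f1 k, 1, by rw [one_smul]; exact Pool.Agent.W708.ABG.e1f1 k, one_ne_zero⟩
  · exact ⟨e2 k, f2 k, 1, by rw [one_smul]; exact Pool.Agent.W708.ABG.e2f2 k, one_ne_zero⟩

lemma ex_sym (i : Fin 8) : ∃ Y Z : sl3 k, ∃ c : k, sym3 k Y Z = c • bas k i ∧ c ≠ 0 ∧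
    (Y.1 * Z.1).trace = 0 := by
  have hh : (1 / 2 : k) ≠ 0 := by norm_num
  fin_cases i
  · refine ⟨e3 k, f2 k, 1 / 2, ?_, hh, ?_⟩
    · apply Subtype.ext
      show (1 / 2 : k) • ((e3 k).1 * (f2 k).1 + (f2 k).1 * (e3 k).1) -
        ((1 / 3 : k) * ((e3 k).1 * (f2 k).1).trace) • (1 : Matrix (Fin 3) (Fin 3) k) = (1 / 2 : k) • (e1 k).1
      rw [e3_val, f2_val, e1_val]
      ext i j; fin_cases i <;> fin_cases j <;> simp [Matrix.mul_apply, Fin.sum_univ_three, Matrix.trace]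
    · rw [e3_val, f2_val]; simp [Matrix.mul_apply, Fin.sum_univ_three, Matrix.trace]
  · refine ⟨f1 k, e3 k, 1 / 2, ?_, hh, ?_⟩
    · apply Subtype.ext
      show (1 / 2 : k) • ((f1 k).1 * (e3 k).1 + (e3 k).1 * (f1 k).1) -
        ((1 / 3 : k) * ((f1 k).1 * (e3 k).1).trace) • (1 : Matrix (Fin 3) (Fin 3) k) = (1 / 2 : k) • (e2 k).1
      rw [e3_val, f1_val, e2_val]
      ext i j; fin_cases i <;> fin_cases j <;> simp [Matrix.mul_apply, Fin.sum_univ_three, Matrix.trace]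
    · rw [e3_val, f1_val]; simp [Matrix.mul_apply, Fin.sum_univ_three, Matrix.trace]
  · refine ⟨e1 k, e2 k, 1 / 2, ?_, hh, ?_⟩
    · apply Subtype.ext
      show (1 / 2 : k) • ((e1 k).1 * (e2 k).1 + (e2 k).1 * (e1 k).1) -
        ((1 / 3 : k) * ((e1 k).1 * (e2 k).1).trace) • (1 : Matrix (Fin 3) (Fin 3) k) = (1 / 2 : k) • (e3 k).1
      rw [e3_val, e1_val, e2_val]
      ext i j; fin_cases i <;> fin_cases j <;> simp [Matrix.mul_apply, Fin.sum_univ_three, Matrix.trace]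
    · rw [e1_val, e2_val]; simp [Matrix.mul_apply, Fin.sum_univ_three, Matrix.trace]
  · refine ⟨e2 k, f3 k, 1 / 2, ?_, hh, ?_⟩
    · apply Subtype.ext
      show (1 / 2 : k) • ((e2 k).1 * (f3 k).1 + (f3 k).1 * (e2 k).1) -
        ((1 / 3 : k) * ((e2 k).1 * (f3 k).1).trace) • (1 : Matrix (Fin 3) (Fin 3) k) = (1 / 2 : k) • (f1 k).1
      rw [e2_val, f3_val, f1_val]
      ext i j; fin_cases i <;> fin_cases j <;> simp [Matrix.mul_apply, Fin.sum_univ_three, Matrix.trace]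
    · rw [e2_val, f3_val]; simp [Matrix.mul_apply, Fin.sum_univ_three, Matrix.trace]
  · refine ⟨f3 k, e1 k, 1 / 2, ?_, hh, ?_⟩
    · apply Subtype.ext
      show (1 / 2 : k) • ((f3 k).1 * (e1 k).1 + (e1 k).1 * (f3 k).1) -
        ((1 / 3 : k) * ((f3 k).1 * (e1 k).1).trace) • (1 : Matrix (Fin 3) (Fin 3) k) = (1 / 2 : k) • (f2 k).1
      rw [f3_val, e1_val, f2_val]
      ext i j; fin_cases i <;> fin_cases j <;> simp [Matrix.mul_apply, Fin.sum_univ_three, Matrix.trace]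
    · rw [f3_val, e1_val]; simp [Matrix.mul_apply, Fin.sum_univ_three, Matrix.trace]
  · refine ⟨f2 k, f1 k, 1 / 2, ?_, hh, ?_⟩
    · apply Subtype.ext
      show (1 / 2 : k) • ((f2 k).1 * (f1 k).1 + (f1 k).1 * (f2 k).1) -
        ((1 / 3 : k) * ((f2 k).1 * (f1 k).1).trace) • (1 : Matrix (Fin 3) (Fin 3) k) = (1 / 2 : k) • (f3 k).1
      rw [f3_val, f1_val, f2_val]
      ext i j; fin_cases i <;> fin_cases j <;> simp [Matrix.mul_apply, Fin.sum_univ_three, Matrix.trace]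
    · rw [f1_val, f2_val]; simp [Matrix.mul_apply, Fin.sum_univ_three, Matrix.trace]
  · refine ⟨h1 k, h1 k + (2 : k) • h2 k, 1, ?_, one_ne_zero, ?_⟩
    · apply Subtype.ext
      show (1 / 2 : k) • ((h1 k).1 * ((h1 k).1 + (2 : k) • (h2 k).1) +
        ((h1 k).1 + (2 : k) • (h2 k).1) * (h1 k).1) -
        ((1 / 3 : k) * ((h1 k).1 * ((h1 k).1 + (2 : k) • (h2 k).1)).trace) •
          (1 : Matrix (Fin 3) (Fin 3) k) = (1 : k) • (h1 k).1
      rw [h1_val, h2_val]
      ext i j; fin_cases i <;> fin_cases j <;>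
        simp [Matrix.mul_apply, Fin.sum_univ_three, Matrix.trace] <;> norm_num
    · show ((h1 k).1 * ((h1 k).1 + (2 : k) • (h2 k).1)).trace = 0
      rw [h1_val, h2_val]; simp [Matrix.mul_apply, Fin.sum_univ_three, Matrix.trace]; try norm_num
  · refine ⟨h2 k, (-2 : k) • h1 k + (-1 : k) • h2 k, 1, ?_, one_ne_zero, ?_⟩
    · apply Subtype.ext
      show (1 / 2 : k) • ((h2 k).1 * ((-2 : k) • (h1 k).1 + (-1 : k) • (h2 k).1) +
        ((-2 : k) • (h1 k).1 + (-1 : k) • (h2 k).1) * (h2 k).1) -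
        ((1 / 3 : k) * ((h2 k).1 * ((-2 : k) • (h1 k).1 + (-1 : k) • (h2 k).1)).trace) •
          (1 : Matrix (Fin 3) (Fin 3) k) = (1 : k) • (h2 k).1
      rw [h1_val, h2_val]
      ext i j; fin_cases i <;> fin_cases j <;>
        simp [Matrix.mul_apply, Fin.sum_univ_three, Matrix.trace] <;> norm_num
    · show ((h2 k).1 * ((-2 : k) • (h1 k).1 + (-1 : k) • (h2 k).1)).trace = 0
      rw [h1_val, h2_val]; simp [Matrix.mul_apply, Fin.sum_univ_three, Matrix.trace]; try norm_num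

variable {A : Type} [NonUnitalNonAssocRing A] [Module k A] [IsScalarTower k A A] [SMulCommClass k A A]
variable [hA : AltAlg A]

lemma inS_zero : inS k (0 : sl3 k ⊗[k] A) = 0 := rfl

lemma inS_sum {ι : Type} (s : Finset ι) (f : ι → sl3 k ⊗[k] A) :
    inS k (∑ i ∈ s, f i) = ∑ i ∈ s, inS k (f i) := by
  classical
  induction s using Finset.induction_on with
  | empty => rw [Finset.sum_empty, Finset.sum_empty]; rfl
  | insert a s ha ih => rw [Finset.sum_insert ha, Finset.sum_insert ha, inS_add, ih]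

/-- `sl₃ ⊗ A²` is in the derived algebra -/
lemma tmul_mul_mem_LL (X : sl3 k) (p q : A) : inS k (X ⊗ₜ[k] (p * q)) ∈ LL k A := by
  have hb : ∀ i, inS k (bas k i ⊗ₜ[k] (p * q)) ∈ LL k A := by
    intro i
    obtain ⟨Y, Z, c, h1, h2⟩ := ex_lie k i
    obtain ⟨Y', Z', c', h1', h2', h3'⟩ := ex_sym k i
    have m1 := jor_mem_LL (k := k) Y Z p q
    have m2 := com_mem_LL (k := k) Y' Z' h3' p q
    rw [h1, ← TensorProduct.smul_tmul', inS_smul] at m1
    rw [h1', ← TensorProduct.smul_tmul', inS_smul] at m2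
    have e : inS k (bas k i ⊗ₜ[k] (p * q)) =
        (1 / 2 : k) • (c⁻¹ • (c • inS k (bas k i ⊗ₜ[k] (p * q + q * p)))) +
        (1 / 2 : k) • (c'⁻¹ • (c' • inS k (bas k i ⊗ₜ[k] (p * q - q * p)))) := by
      rw [inv_smul_smul₀ h2, inv_smul_smul₀ h2', ← inS_smul, ← inS_smul, ← inS_add,
        ← TensorProduct.tmul_smul, ← TensorProduct.tmul_smul, ← TensorProduct.tmul_add]
      congr 2
      rw [← smul_add]
      have : p * q + q * p + (p * q - q * p) = (2 : k) • (p * q) := by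
        rw [two_smul]; abel
      rw [this, smul_smul]
      norm_num
    rw [e]
    exact Submodule.add_mem _ (Submodule.smul_mem _ _ (Submodule.smul_mem _ _ m1))
      (Submodule.smul_mem _ _ (Submodule.smul_mem _ _ m2))
  rw [← sum_bas k X, TensorProduct.sum_tmul, inS_sum]
  refine Submodule.sum_mem _ fun i _ => ?_
  rw [← TensorProduct.smul_tmul', inS_smul]
  exact Submodule.smul_mem _ _ (hb i)

lemma tmul_mem_LL (X : sl3 k) (p : A)
    (hp : p ∈ Submodule.span k {x | ∃ a b : A, x = a * b}) : inS k (X ⊗ₜ[k] p) ∈ LL k A := by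
  induction hp using Submodule.span_induction with
  | mem z hz => obtain ⟨a, b, rfl⟩ := hz; exact tmul_mul_mem_LL k X a b
  | zero => rw [TensorProduct.tmul_zero]; exact Submodule.zero_mem _
  | add x y _ _ hx hy => rw [TensorProduct.tmul_add, inS_add]; exact Submodule.add_mem _ hx hy
  | smul c x _ hx => rw [TensorProduct.tmul_smul, inS_smul]; exact Submodule.smul_mem _ _ hx

/-- `B(A)` is in the derived algebra -/
lemma wdg_mem_LL (p q : A) : inB k (wdg k p q) ∈ LL k A := by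
  have h := lie_tmul_tmul k (e1 k) (f1 k) p q
  have ht : ((e1 k).1 * (f1 k).1).trace = 1 := by
    rw [e1_val, f1_val]; simp [Matrix.mul_apply, Fin.sum_univ_three, Matrix.trace]
  rw [ht, mul_one, inS_add, inB_smul] at h
  have e : inB k (wdg k p q) = (3 : k) • ((⁅inS k (e1 k ⊗ₜ[k] p), inS k (f1 k ⊗ₜ[k] q)⁆ : ABG k A) -
      inS k (⁅e1 k, f1 k⁆ ⊗ₜ[k] ((1 / 2 : k) • (p * q + q * p))) -
      inS k (sym3 k (e1 k) (f1 k) ⊗ₜ[k] (p * q - q * p))) := by
    rw [h]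
    have : ∀ a b c : ABG k A, a + b + c - a - b = c := by intros; abel
    rw [this, smul_smul]
    norm_num
  rw [e]
  refine Submodule.smul_mem _ _ (Submodule.sub_mem _ (Submodule.sub_mem _ (lie_mem_LL _ _) ?_) ?_)
  · rw [smul_add, TensorProduct.tmul_add, TensorProduct.tmul_smul, TensorProduct.tmul_smul, inS_add,
      inS_smul, inS_smul]
    exact Submodule.add_mem _ (Submodule.smul_mem _ _ (tmul_mul_mem_LL k _ _ _))
      (Submodule.smul_mem _ _ (tmul_mul_mem_LL k _ _ _))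
  · rw [TensorProduct.tmul_sub, inS_sub]
    exact Submodule.sub_mem _ (tmul_mul_mem_LL k _ _ _) (tmul_mul_mem_LL k _ _ _)

end
end Pool.Agent.W429.ABG
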