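import Pool.Agent.W429.ABG.Hom
set_option autoImplicit false
set_option linter.unusedSimpArgs false
set_option linter.unusedSectionVars false

/-! Derivations of `ABG(A)` induced by derivations of `A`, and the derived algebra of `ABG(A)`. -/

namespace Pool.Agent.W429.ABG
open Module TensorProduct
attribute [local instance 100] LieRing.ofAssociativeRing

section
variable (k : Type) [Field k] [CharZero k]
variable {A : Type} [NonUnitalNonAssocRing A] [Module k A] [IsScalarTower k A A] [SMulCommClass k A A]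
variable [hA : AltAlg A]
variable (δ : Module.End k A) (hδ : ∀ x y, δ (x * y) = δ x * y + x * δ y)

lemma Dop_der (hδ : ∀ x y, δ (x * y) = δ x * y + x * δ y) (p q x : A) :
    Dop k A (δ p) q x + Dop k A p (δ q) x = δ (Dop k A p q x) - Dop k A p q (δ x) := by
  simp only [Dop_apply', hδ, map_add, map_sub, add_mul, mul_add, sub_mul, mul_sub]
  abel

lemma actD_derB (β : BA k A) (x : A) :
    actD k A (derB k δ hδ β) x = δ (actD k A β x) - actD k A β (δ x) := by
  induction β using BA_induction with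
  | hadd a b ha hb => simp only [map_add, LinearMap.add_apply, ha, hb]; abel
  | h0 p q =>
    rw [derB_wdg, map_add, actD_wdg, actD_wdg, actD_wdg, LinearMap.add_apply]
    exact Dop_der k δ hδ p q x

lemma derB_bb (α β : BA k A) :
    derB k δ hδ (bb k A α β) = bb k A (derB k δ hδ α) β + bb k A α (derB k δ hδ β) := by
  induction β using BA_induction with
  | hadd a b ha hb => simp only [map_add, LinearMap.add_apply, ha, hb]; abel
  | h0 p q =>
    simp only [bb_wdg, derB_wdg, map_add, actD_derB, wdg_sub_left, wdg_sub_right]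
    abel

/-- `id ⊗ δ` on `sl₃ ⊗ A` -/
noncomputable def lT : Module.End k (sl3 k ⊗[k] A) := LinearMap.lTensor (sl3 k) δ

omit hA in
lemma lT_tmul (X : sl3 k) (p : A) : lT k δ (X ⊗ₜ[k] p) = X ⊗ₜ[k] δ p := rfl

include hδ in
lemma lT_br1 (u v : sl3 k ⊗[k] A) :
    lT k δ (br1 k A u v) = br1 k A (lT k δ u) v + br1 k A u (lT k δ v) := by
  induction u using TensorProduct.induction_on with
  | zero => simp
  | add x y hx hy => simp only [map_add, LinearMap.add_apply, hx, hy]; abel
  | tmul X p =>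
    induction v using TensorProduct.induction_on with
    | zero => simp
    | add x y hx hy => simp only [map_add, hx, hy]; abel
    | tmul Y q =>
      rw [br1_tmul, map_add, lT_tmul, lT_tmul, lT_tmul, lT_tmul, br1_tmul, br1_tmul]
      simp only [map_smul, map_add, map_sub, hδ, TensorProduct.tmul_add,
        TensorProduct.tmul_sub, TensorProduct.tmul_smul, smul_add]
      abel

lemma derB_ip (u v : sl3 k ⊗[k] A) :
    derB k δ hδ (ip k A u v) = ip k A (lT k δ u) v + ip k A u (lT k δ v) := by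
  induction u using TensorProduct.induction_on with
  | zero => simp
  | add x y hx hy => simp only [map_add, LinearMap.add_apply, hx, hy]; abel
  | tmul X p =>
    induction v using TensorProduct.induction_on with
    | zero => simp
    | add x y hx hy => simp only [map_add, hx, hy]; abel
    | tmul Y q =>
      rw [ip_tmul, map_smul, derB_wdg, lT_tmul, lT_tmul, ip_tmul, ip_tmul, smul_add]

lemma lT_actT (β : BA k A) (u : sl3 k ⊗[k] A) :
    lT k δ (actT k A β u) = actT k A (derB k δ hδ β) u + actT k A β (lT k δ u) := by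
  induction u using TensorProduct.induction_on with
  | zero => simp
  | add x y hx hy => simp only [map_add, hx, hy]; abel
  | tmul X p =>
    rw [actT_tmul, lT_tmul, lT_tmul, actT_tmul, actT_tmul, actD_derB, TensorProduct.tmul_sub]
    abel

/-- the derivation of `ABG(A)` induced by a derivation `δ` of `A` -/
noncomputable def Delta : Module.End k (ABG k A) :=
  (LinearMap.prodMap (lT k δ) (derB k δ hδ) : Module.End k ((sl3 k ⊗[k] A) × BA k A))

lemma Delta_fst (x : ABG k A) : (Delta k δ hδ x).1 = lT k δ x.1 := rfl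
lemma Delta_snd (x : ABG k A) : (Delta k δ hδ x).2 = derB k δ hδ x.2 := rfl

lemma Delta_der (x y : ABG k A) :
    Delta k δ hδ ⁅x, y⁆ = ⁅Delta k δ hδ x, y⁆ + ⁅x, Delta k δ hδ y⁆ := by
  apply abg_ext
  · rw [fst_add', Delta_fst, lie_fst, lie_fst, lie_fst]
    simp only [Delta_fst, Delta_snd, map_add, map_sub, lT_br1 k δ hδ, lT_actT k δ hδ]
    abel
  · rw [snd_add', Delta_snd, lie_snd, lie_snd, lie_snd]
    simp only [Delta_fst, Delta_snd, map_add, derB_ip k δ hδ, derB_bb k δ hδ]
    abel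

lemma Delta_sigma (X : sl3 k) (x : ABG k A) :
    Delta k δ hδ (sigma k A X x) = sigma k A X (Delta k δ hδ x) := by
  apply abg_ext
  · rw [Delta_fst]
    show lT k δ (adT k A X x.1) = adT k A X (lT k δ x.1)
    induction x.1 using TensorProduct.induction_on with
    | zero => simp
    | add x y hx hy => simp only [map_add, hx, hy]
    | tmul Y p => rw [adT_tmul, lT_tmul, lT_tmul, adT_tmul]
  · rw [Delta_snd]
    show derB k δ hδ 0 = 0
    rw [map_zero]

/-! ### The derived algebra -/

variable (A) in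
/-- the span of all brackets -/
noncomputable def LL : Submodule k (ABG k A) :=
  Submodule.span k {z | ∃ x y : ABG k A, z = ⁅x, y⁆}

variable {k}

lemma lie_mem_LL (x y : ABG k A) : ⁅x, y⁆ ∈ LL k A := Submodule.subset_span ⟨x, y, rfl⟩

lemma LL_ι {z : ABG k A} (hz : z ∈ LL k A) :
    ExteriorAlgebra.ι k z ∈ (⋀[k]^2 (ABG k A)).map (dCE : Module.End k (Lam k A)) := by
  unfold LL at hz
  induction hz using Submodule.span_induction with
  | mem z hz =>
    obtain ⟨x, y, rfl⟩ := hz
    refine ⟨ExteriorAlgebra.ι k x * ExteriorAlgebra.ι k y, ?_, dCE_ι_ι x y⟩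
    show _ ∈ LinearMap.range (ExteriorAlgebra.ι k) ^ 2
    rw [pow_two]
    exact Submodule.mul_mem_mul ⟨_, rfl⟩ ⟨_, rfl⟩
  | zero => rw [map_zero]; exact Submodule.zero_mem _
  | add x y _ _ hx hy => rw [map_add]; exact Submodule.add_mem _ hx hy
  | smul c x _ hx => rw [map_smul]; exact Submodule.smul_mem _ _ hx

variable (k) in
omit hA in
lemma inS_add (u v : sl3 k ⊗[k] A) : inS k (u + v) = inS k u + inS k v :=
  abg_ext k rfl (add_zero 0).symm
variable (k) in
omit hA in
lemma inS_smul (c : k) (u : sl3 k ⊗[k] A) : inS k (c • u) = c • inS k u :=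
  abg_ext k rfl (smul_zero c).symm
variable (k) in
omit hA in
lemma inS_sub (u v : sl3 k ⊗[k] A) : inS k (u - v) = inS k u - inS k v :=
  abg_ext k rfl (sub_zero 0).symm
variable (k) in
omit hA in
lemma inB_add (u v : BA k A) : inB k (u + v) = inB k u + inB k v :=
  abg_ext k (add_zero 0).symm rfl
variable (k) in
omit hA in
lemma inB_smul (c : k) (u : BA k A) : inB k (c • u) = c • inB k u :=
  abg_ext k (smul_zero c).symm rfl
variable (k) in
omit hA in
lemma inB_neg (u : BA k A) : inB k (- u) = - inB k u :=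
  abg_ext k neg_zero.symm rfl

/-- `[Y, Z] ⊗ (p q + q p)` is in the derived algebra -/
lemma jor_mem_LL (Y Z : sl3 k) (p q : A) : inS k (⁅Y, Z⁆ ⊗ₜ[k] (p * q + q * p)) ∈ LL k A := by
  have h1 := lie_tmul_tmul k Y Z p q
  have h2 := lie_tmul_tmul k Y Z q p
  have e : inS k (⁅Y, Z⁆ ⊗ₜ[k] (p * q + q * p)) =
      (⁅inS k (Y ⊗ₜ[k] p), inS k (Z ⊗ₜ[k] q)⁆ : ABG k A) + ⁅inS k (Y ⊗ₜ[k] q), inS k (Z ⊗ₜ[k] p)⁆ := by
    rw [h1, h2, add_comm (q * p) (p * q), wdg_swap k q p, smul_neg, inB_neg, ← neg_sub (p * q) (q * p),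
      TensorProduct.tmul_neg, TensorProduct.tmul_smul]
    have : ⁅Y, Z⁆ ⊗ₜ[k] (p * q + q * p) = (1 / 2 : k) • (⁅Y, Z⁆ ⊗ₜ[k] (p * q + q * p)) +
      (1 / 2 : k) • (⁅Y, Z⁆ ⊗ₜ[k] (p * q + q * p)) := by
      rw [← add_smul]; norm_num
    nth_rewrite 1 [this]
    simp only [inS_add]
    have e2 : inS k (-(sym3 k Y Z ⊗ₜ[k] (p * q - q * p))) = - inS k (sym3 k Y Z ⊗ₜ[k] (p * q - q * p)) :=
      abg_ext k rfl neg_zero.symm
    rw [e2]
    abel
  rw [e]
  exact Submodule.add_mem _ (lie_mem_LL _ _) (lie_mem_LL _ _)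

/-- `{Y, Z} ⊗ [p, q]` is in the derived algebra if `tr(YZ) = 0` -/
lemma com_mem_LL (Y Z : sl3 k) (ht : (Y.1 * Z.1).trace = 0) (p q : A) :
    inS k (sym3 k Y Z ⊗ₜ[k] (p * q - q * p)) ∈ LL k A := by
  have h1 := lie_tmul_tmul k Y Z p q
  rw [ht, mul_zero, zero_smul] at h1
  have h0 : inB k (0 : BA k A) = 0 := rfl
  rw [h0, add_zero, TensorProduct.tmul_smul, inS_add, inS_smul] at h1
  have h2 : inS k (sym3 k Y Z ⊗ₜ[k] (p * q - q * p)) =
      (⁅inS k (Y ⊗ₜ[k] p), inS k (Z ⊗ₜ[k] q)⁆ : ABG k A) -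
      (1 / 2 : k) • inS k (⁅Y, Z⁆ ⊗ₜ[k] (p * q + q * p)) := by
    rw [h1]; abel
  rw [h2]
  exact Submodule.sub_mem _ (lie_mem_LL _ _) (Submodule.smul_mem _ _ (jor_mem_LL _ _ _ _))

end

end Pool.Agent.W429.ABG
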