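import Pool.Agent.W429.ABG.Defs
set_option autoImplicit false

/-! Second batch of statements for the disproof of Shang's conjecture, and the definition of
no trivial component and no adjoint component. -/

namespace Pool.Agent.W429.ABG
open Module TensorProduct
open Pool.Agent.Helper805.Nuc.Free (FreeAlt)
attribute [local instance 100] LieRing.ofAssociativeRing

/-- `M` contains no trivial component: there is no nonzero homomorphism of `sl₃`-modules from the
trivial module `k` to `M`. -/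
def NoTrivial (k : Type) [Field k] (M : Type) [AddCommGroup M] [LieRingModule (sl3 k) M] : Prop :=
  ∀ x : M, (∀ X : sl3 k, ⁅X, x⁆ = 0) → x = 0

/-- `M` contains no adjoint component: there is no nonzero homomorphism of `sl₃`-modules from `sl₃`
to `M`. -/
def NoAdjoint (k : Type) [Field k] (M : Type) [AddCommGroup M] [Module k M]
    [LieRingModule (sl3 k) M] [LieModule k (sl3 k) M] : Prop :=
  ∀ φ : sl3 k →ₗ⁅k, sl3 k⁆ M, φ = 0


/-! ### Second batch of statements -/

/-- E: Euler characteristic of a finite complex of `sl₃`-modules whose homology vanishes in degrees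
`0, 1` and has neither trivial nor adjoint components in degrees `≥ 2`. -/
def S_E : Prop := ∀ (k : Type) [Field k] [CharZero k] (Λ : Type) [AddCommGroup Λ] [Module k Λ]
    [LieRingModule (sl3 k) Λ] [LieModule k (sl3 k) Λ] (d : Λ →ₗ⁅k, sl3 k⁆ Λ)
    (C Z B : ℕ → LieSubmodule k (sl3 k) Λ) (m : ℕ),
    (∀ x ∈ C 0, d x = 0) → (∀ n, ∀ x ∈ C (n + 1), d x ∈ C n) → (∀ x, d (d x) = 0) →
    (∀ n, m < n → C n = ⊥) → (∀ n, FiniteDimensional k (C n)) →
    (∀ n, (⨆ μ : ℤ × ℤ, wt k (C n) μ) = ⊤) →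
    (∀ n x, x ∈ Z n ↔ x ∈ C n ∧ d x = 0) → (∀ n x, x ∈ B n ↔ ∃ y ∈ C (n + 1), d y = x) →
    (∀ n < 2, ∀ x ∈ Z n, x ∈ B n) →
    (∀ n, 2 ≤ n → NoTrivial k (↥(Z n) ⧸ (B n).comap (Z n).incl) ∧
      NoAdjoint k (↥(Z n) ⧸ (B n).comap (Z n).incl)) →
    altsum (fun μ => ∑ n ∈ Finset.range (m + 1), (-1) ^ n * (finrank k (wt k (C n) μ) : ℤ)) = 0 ∧
    altsum (chiConv (fun μ =>
      ∑ n ∈ Finset.range (m + 1), (-1) ^ n * (finrank k (wt k (C n) μ) : ℤ))) = 0

/-- the weights of the adjoint module `sl₃`, with multiplicities -/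
def w8 : Fin 8 → ℤ × ℤ := ![(0, 0), (0, 0), (2, -1), (-2, 1), (-1, 2), (1, -2), (1, 1), (-1, -1)]

open Classical in
/-- Rec: consequence of `S_C` and `S_N`. -/
def S_Rec : Prop := ∀ (JA JB : Type) (𝒥A : Finset JA) (𝒥B : Finset JB) (UA : JA → Finset (Fin 9))
    (UB : JB → Finset (Fin 9)),
    (∀ j ∈ 𝒥A, (UA j).Nonempty) → (∀ j ∈ 𝒥B, (UB j).Nonempty) →
    (∀ i, (𝒥A.filter (fun j => UA j = {i})).card = 1) →
    (∀ i, (𝒥B.filter (fun j => UB j = {i})).card = 0) →
    (∀ S : Finset (Fin 9), 2 ≤ S.card →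
      altsum (cnt (((Finset.univ : Finset (Fin 8)) ×ˢ 𝒥A).disjSum 𝒥B)
        (Sum.elim (fun p => UA p.2) UB) (Sum.elim (fun p => w8 p.1) (fun _ => 0)) S) = 0 ∧
      altsum (chiConv (cnt (((Finset.univ : Finset (Fin 8)) ×ˢ 𝒥A).disjSum 𝒥B)
        (Sum.elim (fun p => UA p.2) UB) (Sum.elim (fun p => w8 p.1) (fun _ => 0)) S)) = 0) →
    (𝒥A.filter (fun j => UA j = Finset.univ)).card = 336364

/-- Ext: diagonal operators on the exterior algebra, and the graded pieces. `c j` is the joint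
eigenvalue of the basis vector `b j`. -/
def S_Ext : Prop := ∀ (k : Type) [Field k] [CharZero k] (L J : Type) [AddCommGroup L] [Module k L]
    [LinearOrder J] (b : Basis J k L),
    (∀ (D : Module.End k L) (c : J → k), (∀ j, D (b j) = c j • b j) → ∀ T : Finset J,
      der D (b.ExteriorAlgebra T) = (∑ j ∈ T, c j) • b.ExteriorAlgebra T) ∧
    (∀ T : Finset J, b.ExteriorAlgebra T ∈ ⋀[k]^T.card L) ∧
    (∀ n : ℕ, (⋀[k]^n L : Submodule k (ExteriorAlgebra k L)) =
      Submodule.span k (b.ExteriorAlgebra '' {T | T.card = n}))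

/-- WB: joint eigenspaces of operators diagonal in a basis. -/
def S_WB : Prop := ∀ (k : Type) [Field k] [CharZero k] (M ι J : Type) [AddCommGroup M] [Module k M]
    (T : ι → Module.End k M) (b : Basis J k M) (c : J → ι → ℤ),
    (∀ i j, T i (b j) = ((c j i : ℤ) : k) • b j) → ∀ γ : ι → ℤ,
      (⨅ i, (T i).eigenspace ((γ i : ℤ) : k)) = Submodule.span k (b '' {j | c j = γ}) ∧
      ({j | c j = γ}.Finite → finrank k ↥(⨅ i, (T i).eigenspace ((γ i : ℤ) : k)) =
        {j | c j = γ}.ncard)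

/-- Bas: homogeneous bases of the free alternative algebra `A` and of `B(A)`. -/
def S_Bas : Prop := ∀ (k : Type) [Field k] [CharZero k] (n : ℕ),
    ∃ δ : Fin n → Module.End k (FreeAlt k (Fin n)),
    (∀ i a b, δ i (a * b) = δ i a * b + a * δ i b) ∧
    ∃ (JA : Type) (bA : Basis JA k (FreeAlt k (Fin n))) (dA : JA → Fin n → ℕ)
      (JB : Type) (bB : Basis JB k (BA k (FreeAlt k (Fin n)))) (pB : JB → JA × JA),
      (∀ i j, δ i (bA j) = ((dA j i : ℕ) : k) • bA j) ∧
      (∀ j, dA j ≠ 0) ∧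
      (∀ γ, {j | dA j = γ}.Finite) ∧
      (∀ i, {j | dA j = Pi.single i 1}.ncard = 1) ∧
      (1 ≤ n → n.factorial ≤ {j | dA j = fun _ => 1}.ncard) ∧
      (∀ j, 2 ≤ ∑ i, dA j i → bA j ∈ Submodule.span k {x | ∃ a b : FreeAlt k (Fin n), x = a * b}) ∧
      (∀ j, bB j = wdg k (bA (pB j).1) (bA (pB j).2)) ∧
      Function.Injective pB

end Pool.Agent.W429.ABG
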