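import Pool.Agent.W429.ABG.Lie
import Pool.Agent.W429.ABG.Stmts2
set_option autoImplicit false
set_option linter.unusedSimpArgs false
set_option linter.unusedSectionVars false

/-! The Lie algebra `ABG(A)`, the action of `sl₃` on it, and its homology as an `sl₃`-module. -/

namespace Pool.Agent.W429.ABG
open Module TensorProduct
open Pool.Agent.Helper805.Nuc.Tens (IsAlt as)
open Pool.Agent.Helper805.Nuc.Free (FreeAlt)
attribute [local instance 100] LieRing.ofAssociativeRing

section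
variable (k : Type) [Field k] [CharZero k]
variable (A : Type) [NonUnitalNonAssocRing A] [Module k A] [IsScalarTower k A A] [SMulCommClass k A A]

/-- The Allison-Benkart-Gao Lie algebra `ABG(A) = (sl₃ ⊗ A) ⊕ B(A)`. -/
def ABG : Type := (sl3 k ⊗[k] A) × BA k A

noncomputable instance : AddCommGroup (ABG k A) :=
  inferInstanceAs (AddCommGroup ((sl3 k ⊗[k] A) × BA k A))
noncomputable instance : Module k (ABG k A) :=
  inferInstanceAs (Module k ((sl3 k ⊗[k] A) × BA k A))

variable [hA : AltAlg A]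

variable {A} in
/-- the bracket of `ABG(A)`; see `lie_tmul_tmul`, `lie_wdg_tmul`, `lie_wdg_wdg` for the three rules
defining it -/
noncomputable def lieFun (x y : ABG k A) : ABG k A :=
  (br1 k A x.1 y.1 + (actT k A x.2 y.1 - actT k A y.2 x.1), ip k A x.1 y.1 + bb k A x.2 y.2)

noncomputable instance : Bracket (ABG k A) (ABG k A) := ⟨lieFun k⟩

variable {A}

lemma lie_fst (x y : ABG k A) : (⁅x, y⁆ : ABG k A).1 =
    br1 k A x.1 y.1 + (actT k A x.2 y.1 - actT k A y.2 x.1) := rfl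
lemma lie_snd (x y : ABG k A) : (⁅x, y⁆ : ABG k A).2 = ip k A x.1 y.1 + bb k A x.2 y.2 := rfl

omit [CharZero k] hA [IsScalarTower k A A] [SMulCommClass k A A] in
lemma abg_ext {x y : ABG k A} (h1 : x.1 = y.1) (h2 : x.2 = y.2) : x = y := Prod.ext h1 h2

omit [CharZero k] hA [IsScalarTower k A A] [SMulCommClass k A A] in
lemma fst_add' (x y : ABG k A) : (x + y).1 = x.1 + y.1 := rfl
omit [CharZero k] hA [IsScalarTower k A A] [SMulCommClass k A A] in
lemma snd_add' (x y : ABG k A) : (x + y).2 = x.2 + y.2 := rfl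
omit [CharZero k] hA [IsScalarTower k A A] [SMulCommClass k A A] in
lemma fst_smul' (c : k) (x : ABG k A) : (c • x).1 = c • x.1 := rfl
omit [CharZero k] hA [IsScalarTower k A A] [SMulCommClass k A A] in
lemma snd_smul' (c : k) (x : ABG k A) : (c • x).2 = c • x.2 := rfl

lemma lie_add_left (x y z : ABG k A) : (⁅x + y, z⁆ : ABG k A) = ⁅x, z⁆ + ⁅y, z⁆ := by
  apply abg_ext
  · simp only [lie_fst, fst_add', snd_add', map_add, LinearMap.add_apply]; abel
  · simp only [lie_snd, fst_add', snd_add', map_add, LinearMap.add_apply]; abel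

lemma lie_add_right (x y z : ABG k A) : (⁅x, y + z⁆ : ABG k A) = ⁅x, y⁆ + ⁅x, z⁆ := by
  apply abg_ext
  · simp only [lie_fst, fst_add', snd_add', map_add, LinearMap.add_apply]; abel
  · simp only [lie_snd, fst_add', snd_add', map_add, LinearMap.add_apply]; abel

lemma lie_self_zero (x : ABG k A) : (⁅x, x⁆ : ABG k A) = 0 := by
  apply abg_ext
  · show br1 k A x.1 x.1 + (actT k A x.2 x.1 - actT k A x.2 x.1) = 0
    rw [sub_self, add_zero]
    apply no_two' k
    have h := br1_skew k x.1 x.1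
    rw [two_smul]
    exact eq_neg_iff_add_eq_zero.mp h
  · show ip k A x.1 x.1 + bb k A x.2 x.2 = 0
    apply no_two' k
    have h := ip_skew k x.1 x.1
    have h' := bb_skew k x.2 x.2
    rw [two_smul]
    have e : ip k A x.1 x.1 + bb k A x.2 x.2 + (ip k A x.1 x.1 + bb k A x.2 x.2) =
      (ip k A x.1 x.1 + ip k A x.1 x.1) + (bb k A x.2 x.2 + bb k A x.2 x.2) := by abel
    rw [e, eq_neg_iff_add_eq_zero.mp h, eq_neg_iff_add_eq_zero.mp h', add_zero]

/-- the Jacobi identity -/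
lemma lie_jacobi_abg (x y z : ABG k A) :
    (⁅x, ⁅y, z⁆⁆ : ABG k A) = ⁅⁅x, y⁆, z⁆ + ⁅y, ⁅x, z⁆⁆ := by
  apply abg_ext
  · simp only [lie_fst, lie_snd, fst_add', map_add, map_sub, LinearMap.add_apply,
      LinearMap.sub_apply, actT_bb, actT_br1]
    have h := br1_jac k x.1 y.1 z.1
    have e1 : br1 k A x.1 (br1 k A y.1 z.1) = br1 k A (br1 k A x.1 y.1) z.1 +
        actT k A (ip k A x.1 y.1) z.1 +
        (br1 k A y.1 (br1 k A x.1 z.1) - actT k A (ip k A x.1 z.1) y.1) +
        actT k A (ip k A y.1 z.1) x.1 := by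
      rw [← h]; abel
    rw [e1]
    have s1 : br1 k A (actT k A x.2 y.1) z.1 = - br1 k A z.1 (actT k A x.2 y.1) := br1_skew k _ _
    have s2 : br1 k A (actT k A y.2 x.1) z.1 = - br1 k A z.1 (actT k A y.2 x.1) := br1_skew k _ _
    have s3 : br1 k A (actT k A z.2 x.1) y.1 = - br1 k A y.1 (actT k A z.2 x.1) := br1_skew k _ _
    have s4 : br1 k A x.1 (actT k A y.2 z.1) = - br1 k A (actT k A y.2 z.1) x.1 := br1_skew k _ _
    have s5 : br1 k A (actT k A z.2 y.1) x.1 = - br1 k A x.1 (actT k A z.2 y.1) := br1_skew k _ _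
    rw [s1, s2, s3, s4]
    have s6 : br1 k A (actT k A y.2 x.1) z.1 = - br1 k A z.1 (actT k A y.2 x.1) := br1_skew k _ _
    have s7 : br1 k A (actT k A x.2 z.1) y.1 = - br1 k A y.1 (actT k A x.2 z.1) := br1_skew k _ _
    have s8 : br1 k A z.1 (actT k A x.2 y.1) = - br1 k A (actT k A x.2 y.1) z.1 := br1_skew k _ _
    simp only [s3, s5, s6, s7, s8, neg_neg, br1_skew k (actT k A y.2 z.1) x.1]
    abel
  · simp only [lie_fst, lie_snd, snd_add', map_add, map_sub, LinearMap.add_apply,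
      LinearMap.sub_apply, bb_ip]
    rw [ip_jac k x.1 y.1 z.1, bb_jac k x.2 y.2 z.2]
    have b1 : bb k A (ip k A x.1 y.1) z.2 = - (ip k A (actT k A z.2 x.1) y.1 +
        ip k A x.1 (actT k A z.2 y.1)) := by rw [bb_skew, bb_ip]
    rw [b1]
    have s1 : ip k A y.1 (actT k A z.2 x.1) = - ip k A (actT k A z.2 x.1) y.1 := ip_skew k _ _
    have s2 : ip k A (actT k A y.2 x.1) z.1 = - ip k A z.1 (actT k A y.2 x.1) := ip_skew k _ _
    rw [s1]
    abel

lemma lie_smul_right (c : k) (x y : ABG k A) : (⁅x, c • y⁆ : ABG k A) = c • ⁅x, y⁆ := by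
  apply abg_ext
  · simp only [lie_fst, fst_smul', snd_smul', map_smul, LinearMap.smul_apply, smul_add, smul_sub]
  · simp only [lie_snd, fst_smul', snd_smul', map_smul, LinearMap.smul_apply, smul_add, smul_sub]

variable (A)

noncomputable instance : LieRing (ABG k A) where
  add_lie := lie_add_left k
  lie_add := lie_add_right k
  lie_self := lie_self_zero k
  leibniz_lie := lie_jacobi_abg k

noncomputable instance : LieAlgebra k (ABG k A) where
  lie_smul := lie_smul_right k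

/-! ### The three rules for the bracket -/
section rules
variable {A}

/-- `X ⊗ p` in `ABG(A)` -/
noncomputable def inS (u : sl3 k ⊗[k] A) : ABG k A := (u, 0)
/-- an element of `B(A)` in `ABG(A)` -/
noncomputable def inB (β : BA k A) : ABG k A := (0, β)

lemma lie_tmul_tmul (X Y : sl3 k) (p q : A) :
    (⁅inS k (X ⊗ₜ[k] p), inS k (Y ⊗ₜ[k] q)⁆ : ABG k A) =
      inS k (⁅X, Y⁆ ⊗ₜ[k] ((1 / 2 : k) • (p * q + q * p)) + sym3 k X Y ⊗ₜ[k] (p * q - q * p)) +
      inB k (((1 / 3 : k) * (X.1 * Y.1).trace) • wdg k p q) := by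
  apply abg_ext
  · rw [lie_fst, fst_add']
    show br1 k A (X ⊗ₜ[k] p) (Y ⊗ₜ[k] q) + (actT k A 0 (Y ⊗ₜ[k] q) - actT k A 0 (X ⊗ₜ[k] p)) = _
    rw [map_zero, br1_tmul]
    simp [inS, inB]
  · rw [lie_snd, snd_add']
    show ip k A (X ⊗ₜ[k] p) (Y ⊗ₜ[k] q) + bb k A 0 0 = _
    rw [map_zero, ip_tmul]
    simp [inS, inB]

lemma lie_wdg_tmul (p q r : A) (X : sl3 k) :
    (⁅inB k (wdg k p q), inS k (X ⊗ₜ[k] r)⁆ : ABG k A) = inS k (X ⊗ₜ[k] Dop k A p q r) := by
  apply abg_ext
  · rw [lie_fst]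
    show br1 k A 0 (X ⊗ₜ[k] r) + (actT k A (wdg k p q) (X ⊗ₜ[k] r) - actT k A 0 0) = _
    rw [actT_tmul, actD_wdg]
    simp [inS]
  · rw [lie_snd]
    show ip k A 0 (X ⊗ₜ[k] r) + bb k A (wdg k p q) 0 = _
    simp [inS]

lemma lie_wdg_wdg (p q r s : A) :
    (⁅inB k (wdg k p q), inB k (wdg k r s)⁆ : ABG k A) =
      inB k (wdg k (Dop k A p q r) s + wdg k r (Dop k A p q s)) := by
  apply abg_ext
  · rw [lie_fst]
    show br1 k A 0 0 + (actT k A (wdg k p q) 0 - actT k A (wdg k r s) 0) = _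
    simp [inB]
  · rw [lie_snd]
    show ip k A 0 0 + bb k A (wdg k p q) (wdg k r s) = _
    rw [bb_wdg, actD_wdg]
    simp [inB]

end rules

/-! ### The action of `sl₃` -/

/-- `X ↦ ad X ⊗ id` on `sl₃ ⊗ A` -/
noncomputable def adT (X : sl3 k) : Module.End k (sl3 k ⊗[k] A) :=
  LinearMap.rTensor A (lieB k X)

omit hA in
variable {A} in
lemma adT_tmul (X Y : sl3 k) (p : A) : adT k A X (Y ⊗ₜ[k] p) = ⁅X, Y⁆ ⊗ₜ[k] p := rfl

/-- The action of `X ∈ sl₃` on `ABG(A)`: adjoint on the factor `sl₃`, trivial on `A` and `B(A)`. -/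
noncomputable def sigma (X : sl3 k) : Module.End k (ABG k A) :=
  (LinearMap.prodMap (adT k A X) 0 : Module.End k ((sl3 k ⊗[k] A) × BA k A))

omit hA in
variable {A} in
lemma sigma_apply (X : sl3 k) (x : ABG k A) : sigma k A X x = (adT k A X x.1, 0) := rfl

omit hA in
lemma sigma_add (X Y : sl3 k) : sigma k A (X + Y) = sigma k A X + sigma k A Y := by
    refine LinearMap.ext fun x => abg_ext k ?_ ?_
    · show adT k A (X + Y) x.1 = adT k A X x.1 + adT k A Y x.1
      unfold adT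
      rw [map_add, LinearMap.rTensor_add, LinearMap.add_apply]
    · show (0 : BA k A) = 0 + 0
      rw [add_zero]

omit hA in
lemma sigma_smul (c : k) (X : sl3 k) : sigma k A (c • X) = c • sigma k A X := by
    refine LinearMap.ext fun x => abg_ext k ?_ ?_
    · show adT k A (c • X) x.1 = c • adT k A X x.1
      unfold adT
      rw [map_smul, LinearMap.rTensor_smul, LinearMap.smul_apply]
    · show (0 : BA k A) = c • 0
      rw [smul_zero]

omit hA in
lemma sigma_lie (X Y : sl3 k) : sigma k A ⁅X, Y⁆ = ⁅sigma k A X, sigma k A Y⁆ := by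
    refine LinearMap.ext fun x => abg_ext k ?_ ?_
    · show adT k A ⁅X, Y⁆ x.1 = adT k A X (adT k A Y x.1) - adT k A Y (adT k A X x.1)
      induction x.1 using TensorProduct.induction_on with
      | zero => simp
      | add x y hx hy => simp only [map_add, hx, hy]; abel
      | tmul Z p =>
        rw [adT_tmul, adT_tmul, adT_tmul, adT_tmul, adT_tmul, ← TensorProduct.sub_tmul, lie_lie]
    · show (0 : BA k A) = 0 - 0
      rw [sub_zero]

/-- the action as a homomorphism of Lie algebras -/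
noncomputable def sigmaHom : sl3 k →ₗ⁅k⁆ Module.End k (ABG k A) where
  toFun := sigma k A
  map_add' := sigma_add k A
  map_smul' := sigma_smul k A
  map_lie' := sigma_lie k A _ _

omit hA in
lemma sym3_der (X Y Z : sl3 k) : ⁅X, sym3 k Y Z⁆ = sym3 k ⁅X, Y⁆ Z + sym3 k Y ⁅X, Z⁆ := by
  apply Subtype.ext
  have ht : ((⁅X, Y⁆ : sl3 k).1 * Z.1).trace + (Y.1 * (⁅X, Z⁆ : sl3 k).1).trace = 0 := by
    rw [coe_lie3, coe_lie3, mul_sub, sub_mul, Matrix.trace_sub, Matrix.trace_sub,
      ← mul_assoc Y.1 X.1 Z.1, ← mul_assoc Y.1 Z.1 X.1, Matrix.trace_mul_cycle X.1 Y.1 Z.1,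
      Matrix.trace_mul_cycle Z.1 X.1 Y.1]
    ring
  rw [coe_add3, coe_lie3]
  show X.1 * ((1 / 2 : k) • (Y.1 * Z.1 + Z.1 * Y.1) -
      ((1 / 3 : k) * (Y.1 * Z.1).trace) • (1 : Matrix (Fin 3) (Fin 3) k)) -
      ((1 / 2 : k) • (Y.1 * Z.1 + Z.1 * Y.1) -
      ((1 / 3 : k) * (Y.1 * Z.1).trace) • (1 : Matrix (Fin 3) (Fin 3) k)) * X.1 =
    ((1 / 2 : k) • ((⁅X, Y⁆ : sl3 k).1 * Z.1 + Z.1 * (⁅X, Y⁆ : sl3 k).1) -
      ((1 / 3 : k) * ((⁅X, Y⁆ : sl3 k).1 * Z.1).trace) • (1 : Matrix (Fin 3) (Fin 3) k)) +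
    ((1 / 2 : k) • (Y.1 * (⁅X, Z⁆ : sl3 k).1 + (⁅X, Z⁆ : sl3 k).1 * Y.1) -
      ((1 / 3 : k) * (Y.1 * (⁅X, Z⁆ : sl3 k).1).trace) • (1 : Matrix (Fin 3) (Fin 3) k))
  have ht' : ((⁅X, Y⁆ : sl3 k).1 * Z.1).trace = - (Y.1 * (⁅X, Z⁆ : sl3 k).1).trace :=
    eq_neg_of_add_eq_zero_left ht
  rw [ht', coe_lie3, coe_lie3]
  simp only [mul_sub, sub_mul, mul_add, add_mul, mul_smul_comm, smul_mul_assoc, mul_one, one_mul,
    mul_assoc]
  module

variable {A} in
lemma adT_br1 (X : sl3 k) (u v : sl3 k ⊗[k] A) :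
    adT k A X (br1 k A u v) = br1 k A (adT k A X u) v + br1 k A u (adT k A X v) := by
  induction u using TensorProduct.induction_on with
  | zero => simp
  | add x y hx hy => simp only [map_add, LinearMap.add_apply, hx, hy]; abel
  | tmul Y p =>
    induction v using TensorProduct.induction_on with
    | zero => simp
    | add x y hx hy => simp only [map_add, hx, hy]; abel
    | tmul Z q =>
      rw [br1_tmul, map_add, adT_tmul, adT_tmul, adT_tmul, adT_tmul, br1_tmul, br1_tmul, sym3_der,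
        leibniz_lie X Y Z, TensorProduct.add_tmul, TensorProduct.add_tmul]
      abel

variable {A} in
lemma adT_actT (X : sl3 k) (β : BA k A) (u : sl3 k ⊗[k] A) :
    adT k A X (actT k A β u) = actT k A β (adT k A X u) := by
  induction u using TensorProduct.induction_on with
  | zero => simp
  | add x y hx hy => simp only [map_add, hx, hy]
  | tmul Y p => rw [actT_tmul, adT_tmul, adT_tmul, actT_tmul]

variable {A} in
lemma adT_ip (X : sl3 k) (u v : sl3 k ⊗[k] A) :
    ip k A (adT k A X u) v + ip k A u (adT k A X v) = 0 := by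
  induction u using TensorProduct.induction_on with
  | zero => simp
  | add x y hx hy =>
    simp only [map_add, LinearMap.add_apply]
    rw [add_add_add_comm, hx, hy, add_zero]
  | tmul Y p =>
    induction v using TensorProduct.induction_on with
    | zero => simp
    | add x y hx hy =>
      simp only [map_add]
      rw [add_add_add_comm, hx, hy, add_zero]
    | tmul Z q =>
      rw [adT_tmul, adT_tmul, ip_tmul, ip_tmul, ← add_smul]
      have ht : ((⁅X, Y⁆ : sl3 k).1 * Z.1).trace + (Y.1 * (⁅X, Z⁆ : sl3 k).1).trace = 0 := by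
        rw [coe_lie3, coe_lie3, mul_sub, sub_mul, Matrix.trace_sub, Matrix.trace_sub,
          ← mul_assoc Y.1 X.1 Z.1, ← mul_assoc Y.1 Z.1 X.1, Matrix.trace_mul_cycle X.1 Y.1 Z.1,
          Matrix.trace_mul_cycle Z.1 X.1 Y.1]
        ring
      rw [← mul_add, ht, mul_zero, zero_smul]

/-- `sl₃` acts on `ABG(A)` by derivations -/
lemma sigma_der (X : sl3 k) (x y : ABG k A) :
    sigma k A X ⁅x, y⁆ = ⁅sigma k A X x, y⁆ + ⁅x, sigma k A X y⁆ := by
  apply abg_ext
  · rw [fst_add', lie_fst, lie_fst]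
    show adT k A X (br1 k A x.1 y.1 + (actT k A x.2 y.1 - actT k A y.2 x.1)) =
      br1 k A (adT k A X x.1) y.1 + (actT k A 0 y.1 - actT k A y.2 (adT k A X x.1)) +
      (br1 k A x.1 (adT k A X y.1) + (actT k A x.2 (adT k A X y.1) - actT k A 0 x.1))
    rw [map_add, map_sub, adT_br1, adT_actT, adT_actT, map_zero, LinearMap.zero_apply,
      LinearMap.zero_apply]
    abel
  · rw [snd_add', lie_snd, lie_snd]
    show (0 : BA k A) = ip k A (adT k A X x.1) y.1 + bb k A 0 y.2 +
      (ip k A x.1 (adT k A X y.1) + bb k A x.2 0)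
    rw [map_zero, map_zero, LinearMap.zero_apply, add_zero, add_zero, adT_ip]

/-! ### Homology of `ABG(A)` as an `sl₃`-module -/

/-- the exterior algebra `Λ ABG(A)`, underlying the Chevalley-Eilenberg complex -/
abbrev Lam : Type := ExteriorAlgebra k (ABG k A)

/-- `sl₃` acts on `Λ ABG(A)` by derivations extending its action on `ABG(A)` -/
noncomputable instance : LieRingModule (sl3 k) (Lam k A) :=
  LieRingModule.compLieHom (Lam k A) (derLie.comp (sigmaHom k A))

instance : LieModule k (sl3 k) (Lam k A) :=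
  LieModule.compLieHom (Lam k A) (derLie.comp (sigmaHom k A))

lemma lie_Lam (X : sl3 k) (w : Lam k A) : ⁅X, w⁆ = der (sigma k A X) w := rfl

end

section gen
variable {k : Type} [Field k]

lemma der_mem {L : Type} [AddCommGroup L] [Module k L] (D : Module.End k L) {n : ℕ}
    {w : ExteriorAlgebra k L} (hw : w ∈ ⋀[k]^n L) : der D w ∈ ⋀[k]^n L := by
  induction hw using Submodule.pow_induction_on_left' with
  | algebraMap r =>
    rw [Algebra.algebraMap_eq_smul_one, map_smul, der_one, smul_zero]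
    exact Submodule.zero_mem _
  | add x y i hx hy ihx ihy => rw [map_add]; exact Submodule.add_mem _ ihx ihy
  | mem_mul m hm i x hx ih =>
    obtain ⟨m, rfl⟩ := hm
    rw [der_ι_mul]
    refine Submodule.add_mem _ ?_ ?_
    · show _ ∈ LinearMap.range (ExteriorAlgebra.ι k) ^ (i + 1)
      rw [pow_succ']
      exact Submodule.mul_mem_mul ⟨_, rfl⟩ hx
    · show _ ∈ LinearMap.range (ExteriorAlgebra.ι k) ^ (i + 1)
      rw [pow_succ']
      exact Submodule.mul_mem_mul ⟨_, rfl⟩ ih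

lemma dCE_mem {L : Type} [LieRing L] [LieAlgebra k L] {n : ℕ}
    {w : ExteriorAlgebra k L} (hw : w ∈ ⋀[k]^n L) :
    dCE w ∈ ⋀[k]^(n - 1) L ∧ (n = 0 → dCE w = 0) := by
  induction hw using Submodule.pow_induction_on_left' with
  | algebraMap r =>
    rw [Algebra.algebraMap_eq_smul_one, map_smul, dCE_one, smul_zero]
    exact ⟨Submodule.zero_mem _, fun _ => rfl⟩
  | add x y i hx hy ihx ihy =>
    rw [map_add]
    refine ⟨Submodule.add_mem _ ihx.1 ihy.1, fun h => ?_⟩
    rw [ihx.2 h, ihy.2 h, add_zero]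
  | mem_mul m hm i x hx ih =>
    obtain ⟨m, rfl⟩ := hm
    refine ⟨?_, fun h => absurd h (Nat.succ_ne_zero _)⟩
    rw [dCE_ι_mul]
    refine Submodule.sub_mem _ (der_mem _ hx) ?_
    rcases Nat.eq_zero_or_pos i with h0 | h0
    · subst h0
      rw [ih.2 rfl, mul_zero]
      exact Submodule.zero_mem _
    · obtain ⟨j, rfl⟩ := Nat.exists_eq_succ_of_ne_zero h0.ne'
      show _ ∈ LinearMap.range (ExteriorAlgebra.ι k) ^ (j + 1)
      rw [pow_succ']
      exact Submodule.mul_mem_mul ⟨_, rfl⟩ ih.1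

end gen

section homology
variable (k : Type) [Field k] [CharZero k]
variable (A : Type) [NonUnitalNonAssocRing A] [Module k A] [IsScalarTower k A A] [SMulCommClass k A A]
variable [hA : AltAlg A]

lemma Zn_lie (n : ℕ) (X : sl3 k) (w : Lam k A)
    (hw : w ∈ (⋀[k]^n (ABG k A) ⊓ LinearMap.ker (dCE : Module.End k (Lam k A)) :
      Submodule k (Lam k A))) :
    ⁅X, w⁆ ∈ (⋀[k]^n (ABG k A) ⊓ LinearMap.ker (dCE : Module.End k (Lam k A)) :
      Submodule k (Lam k A)) := by
  obtain ⟨h1, h2⟩ := hw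
  refine ⟨der_mem _ h1, ?_⟩
  show dCE (der (sigma k A X) w) = 0
  rw [← der_dCE _ (sigma_der k A X), show dCE w = 0 from h2, map_zero]

lemma Bn_lie (n : ℕ) (X : sl3 k) (w : Lam k A)
    (hw : w ∈ (⋀[k]^(n + 1) (ABG k A)).map (dCE : Module.End k (Lam k A))) :
    ⁅X, w⁆ ∈ (⋀[k]^(n + 1) (ABG k A)).map (dCE : Module.End k (Lam k A)) := by
  obtain ⟨v, hv, rfl⟩ := hw
  exact ⟨der (sigma k A X) v, der_mem _ hv, (der_dCE _ (sigma_der k A X) v).symm⟩

/-- `n`-cycles of the Chevalley-Eilenberg complex of `ABG(A)`, as an `sl₃`-module -/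
noncomputable def Zn (n : ℕ) : LieSubmodule k (sl3 k) (Lam k A) where
  __ := ⋀[k]^n (ABG k A) ⊓ LinearMap.ker (dCE : Module.End k (Lam k A))
  lie_mem := Zn_lie k A n _ _

/-- `n`-boundaries of the Chevalley-Eilenberg complex of `ABG(A)`, as an `sl₃`-module -/
noncomputable def Bn (n : ℕ) : LieSubmodule k (sl3 k) (Lam k A) where
  __ := (⋀[k]^(n + 1) (ABG k A)).map (dCE : Module.End k (Lam k A))
  lie_mem := Bn_lie k A n _ _

/-- The `n`-th homology `H_n(ABG(A), k)` with trivial coefficients, as an `sl₃`-module: cycles modulo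
boundaries. -/
abbrev Hn (n : ℕ) : Type := ↥(Zn k A n) ⧸ (Bn k A n).comap (Zn k A n).incl

end homology

/-! ### The free alternative algebra and Shang's conjecture -/

instance (k : Type) [Field k] (X : Type) : AltAlg (FreeAlt k X) := ⟨FreeAlt.isAlt⟩

end Pool.Agent.W429.ABG
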