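import Pool.Agent.W429.ABG.Mat
set_option autoImplicit false
set_option linter.unusedSimpArgs false
set_option linter.unusedSectionVars false

/-! `ABG(A)` is a Lie algebra. -/

namespace Pool.Agent.W429.ABG
open Module TensorProduct
open Pool.Agent.Helper805.Nuc.Tens (IsAlt as)
attribute [local instance 100] LieRing.ofAssociativeRing

section
variable (k : Type) [Field k] [CharZero k]
variable {A : Type} [NonUnitalNonAssocRing A] [Module k A] [IsScalarTower k A A] [SMulCommClass k A A]
variable [hA : AltAlg A]

omit hA in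
lemma sym3_comm (X Y : sl3 k) : sym3 k X Y = sym3 k Y X := by
  apply Subtype.ext
  show (1 / 2 : k) • (X.1 * Y.1 + Y.1 * X.1) - _ = (1 / 2 : k) • (Y.1 * X.1 + X.1 * Y.1) - _
  rw [add_comm (X.1 * Y.1), Matrix.trace_mul_comm X.1 Y.1]

omit hA in
lemma br1_skew (u v : sl3 k ⊗[k] A) : br1 k A u v = - br1 k A v u := by
  induction u using TensorProduct.induction_on with
  | zero => simp
  | add x y hx hy => simp only [map_add, LinearMap.add_apply, hx, hy]; abel
  | tmul X p =>
    induction v using TensorProduct.induction_on with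
    | zero => simp
    | add x y hx hy => simp only [map_add, LinearMap.add_apply, hx, hy]; abel
    | tmul Y q =>
      rw [br1_tmul, br1_tmul, ← lie_skew Y X, sym3_comm k Y X, add_comm (q * p), neg_add,
        ← TensorProduct.neg_tmul, neg_neg, ← TensorProduct.tmul_neg, neg_sub]

omit hA in
lemma ip_skew (u v : sl3 k ⊗[k] A) : ip k A u v = - ip k A v u := by
  induction u using TensorProduct.induction_on with
  | zero => simp
  | add x y hx hy => simp only [map_add, LinearMap.add_apply, hx, hy]; abel
  | tmul X p =>
    induction v using TensorProduct.induction_on with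
    | zero => simp
    | add x y hx hy => simp only [map_add, LinearMap.add_apply, hx, hy]; abel
    | tmul Y q =>
      rw [ip_tmul, ip_tmul, wdg_swap k p q, Matrix.trace_mul_comm X.1 Y.1, smul_neg]

/-- relation for commutators in `B(A)` -/
lemma wdg_com (a b c : A) :
    wdg k (a * b - b * a) c + wdg k (b * c - c * b) a + wdg k (c * a - a * c) b = 0 := by
  have h1 := wdg_cyc k a b c
  have h2 := wdg_cyc k b a c
  simp only [wdg_sub_left]
  have : wdg k (a * b) c - wdg k (b * a) c + (wdg k (b * c) a - wdg k (c * b) a) +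
    (wdg k (c * a) b - wdg k (a * c) b) = (wdg k (a * b) c + wdg k (b * c) a + wdg k (c * a) b) -
    (wdg k (b * a) c + wdg k (a * c) b + wdg k (c * b) a) := by abel
  rw [this, h1, h2, sub_zero]

lemma wdg_G (a b c d : A) :
    wdg k (as a b c) d + wdg k (c * d) (a * b) + wdg k (d * (a * b)) c - wdg k ((b * c) * d) a -
      wdg k (d * a) (b * c) = 0 := by
  have h1 := wdg_cyc k (a * b) c d
  have h2 := wdg_cyc k a (b * c) d
  unfold as
  rw [wdg_sub_left]
  have : wdg k (a * b * c) d - wdg k (a * (b * c)) d + wdg k (c * d) (a * b) + wdg k (d * (a * b)) c -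
      wdg k ((b * c) * d) a - wdg k (d * a) (b * c) =
      (wdg k (a * b * c) d + wdg k (c * d) (a * b) + wdg k (d * (a * b)) c) -
      (wdg k (a * (b * c)) d + wdg k ((b * c) * d) a + wdg k (d * a) (b * c)) := by abel
  rw [this, h1, h2, sub_zero]

lemma no_two' {M : Type} [AddCommGroup M] [Module k M] (a : M) (h : (2 : ℤ) • a = 0) : a = 0 := by
  have h2 : (2 : k) • a = 0 := by
    rw [← h, ← Int.cast_smul_eq_zsmul k]; norm_num
  exact (smul_eq_zero.mp h2).resolve_left two_ne_zero

lemma wdg_E (p q r s : A) :
    wdg k (as p q r) s - wdg k (as q r s) p + wdg k (as r s p) q - wdg k (as s p q) r = 0 := by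
  apply no_two' k
  have g1 := wdg_G k p q r s
  have g2 := wdg_G k q r s p
  have g3 := wdg_G k r s p q
  have g4 := wdg_G k s p q r
  have e1 : wdg k (r * s) (p * q) = - wdg k (p * q) (r * s) := wdg_swap k _ _
  have e2 : wdg k (s * p) (q * r) = - wdg k (q * r) (s * p) := wdg_swap k _ _
  have f1 : wdg k (as s p q) r = wdg k (s * p * q) r - wdg k (s * (p * q)) r := by
    unfold as; rw [wdg_sub_left]
  have f2 : wdg k (as q r s) p = wdg k (q * r * s) p - wdg k (q * (r * s)) p := by
    unfold as; rw [wdg_sub_left]
  have f3 : wdg k (as p q r) s = wdg k (p * q * r) s - wdg k (p * (q * r)) s := by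
    unfold as; rw [wdg_sub_left]
  have f4 : wdg k (as r s p) q = wdg k (r * s * p) q - wdg k (r * (s * p)) q := by
    unfold as; rw [wdg_sub_left]
  have key : (wdg k (as p q r) s + wdg k (r * s) (p * q) + wdg k (s * (p * q)) r -
      wdg k ((q * r) * s) p - wdg k (s * p) (q * r)) -
      (wdg k (as q r s) p + wdg k (s * p) (q * r) + wdg k (p * (q * r)) s -
      wdg k ((r * s) * p) q - wdg k (p * q) (r * s)) +
      (wdg k (as r s p) q + wdg k (p * q) (r * s) + wdg k (q * (r * s)) p -
      wdg k ((s * p) * q) r - wdg k (q * r) (s * p)) -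
      (wdg k (as s p q) r + wdg k (q * r) (s * p) + wdg k (r * (s * p)) q -
      wdg k ((p * q) * r) s - wdg k (r * s) (p * q)) = 0 := by
    rw [g1, g2, g3, g4]; simp
  rw [e1, e2] at key
  rw [f1, f2, f3, f4] at key ⊢
  rw [← key]
  abel

lemma Dop_wdg_skew (p q r s : A) :
    wdg k (dd p q r) s + wdg k r (dd p q s) + (wdg k (dd r s p) q + wdg k p (dd r s q)) = 0 := by
  unfold dd
  have k1 := wdg_com k (p * q - q * p) r s
  have k2 := wdg_com k (r * s - s * r) p q
  have e := wdg_E k p q r s
  have c1 : as p q s = as s p q := by rw [as_cyc hA.isAlt s p q]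
  have c2 : as r s q = as q r s := by rw [as_cyc hA.isAlt q r s]
  have z : ∀ (x y : A), wdg k ((3 : ℤ) • x) y = (3 : ℤ) • wdg k x y := by
    intro x y; rw [← wdgB_apply, ← wdgB_apply, map_zsmul, LinearMap.smul_apply]
  have z' : ∀ (x y : A), wdg k x ((3 : ℤ) • y) = (3 : ℤ) • wdg k x y := by
    intro x y; rw [← wdgB_apply, ← wdgB_apply, map_zsmul]
  generalize p * q - q * p = c at *
  generalize r * s - s * r = d at *
  rw [c1, c2]
  simp only [wdg_sub_left, wdg_sub_right, z, z'] at k1 k2 ⊢
  have s1 : wdg k r (c * s) = - wdg k (c * s) r := wdg_swap k _ _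
  have s2 : wdg k r (s * c) = - wdg k (s * c) r := wdg_swap k _ _
  have s3 : wdg k p (d * q) = - wdg k (d * q) p := wdg_swap k _ _
  have s4 : wdg k p (q * d) = - wdg k (q * d) p := wdg_swap k _ _
  have s5 : wdg k r (as s p q) = - wdg k (as s p q) r := wdg_swap k _ _
  have s6 : wdg k p (as q r s) = - wdg k (as q r s) p := wdg_swap k _ _
  have s7 : wdg k d c = - wdg k c d := wdg_swap k _ _
  rw [s1, s2, s3, s4, s5, s6]
  rw [s7] at k1
  have key : (wdg k (c * r) s - wdg k (r * c) s + -wdg k c d + (wdg k (s * c) r - wdg k (c * s) r)) +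
    (wdg k (d * p) q - wdg k (p * d) q + wdg k c d + (wdg k (q * d) p - wdg k (d * q) p)) -
    (3 : ℤ) • (wdg k (as p q r) s - wdg k (as q r s) p + wdg k (as r s p) q - wdg k (as s p q) r) = 0 := by
    rw [e, k1, k2]; simp
  rw [← key]
  simp only [smul_sub, smul_add, smul_neg]
  abel


lemma bb_skew (α β : BA k A) : bb k A α β = - bb k A β α := by
  induction α using BA_induction with
  | hadd a b ha hb => simp only [map_add, LinearMap.add_apply, ha, hb]; abel
  | h0 p q =>
    induction β using BA_induction with
    | hadd a b ha hb => simp only [map_add, LinearMap.add_apply, ha, hb]; abel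
    | h0 r s =>
      rw [bb_wdg, bb_wdg, actD_wdg, actD_wdg, Dop_apply, Dop_apply, Dop_apply, Dop_apply]
      exact eq_neg_of_add_eq_zero_left (Dop_wdg_skew k p q r s)

lemma actD_bb (α β : BA k A) (x : A) :
    actD k A (bb k A α β) x = actD k A α (actD k A β x) - actD k A β (actD k A α x) := by
  induction β using BA_induction with
  | hadd a b ha hb => simp only [map_add, LinearMap.add_apply, ha, hb]; abel
  | h0 r s =>
    rw [bb_wdg, map_add, actD_wdg, actD_wdg, actD_wdg, LinearMap.add_apply]
    simp only [Dop_apply', actD_mul, map_add, map_sub, add_mul, mul_add, sub_mul, mul_sub]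
    abel

lemma bb_jac (α β γ : BA k A) :
    bb k A α (bb k A β γ) = bb k A (bb k A α β) γ + bb k A β (bb k A α γ) := by
  induction γ using BA_induction with
  | hadd a b ha hb => simp only [map_add, LinearMap.add_apply, ha, hb]; abel
  | h0 p q =>
    simp only [bb_wdg, map_add, actD_bb, wdg_sub_left, wdg_sub_right]
    abel

variable (A) in
/-- the action of `B(A)` on `sl₃ ⊗ A`: `[p ∧ q, X ⊗ r] = X ⊗ D_{p,q}(r)` -/
noncomputable def actT : BA k A →ₗ[k] Module.End k (sl3 k ⊗[k] A) :=
  (LinearMap.lTensorHom (sl3 k) : Module.End k A →ₗ[k] _) ∘ₗ actD k A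

lemma actT_tmul (β : BA k A) (X : sl3 k) (r : A) :
    actT k A β (X ⊗ₜ[k] r) = X ⊗ₜ[k] actD k A β r := rfl

lemma actT_br1 (β : BA k A) (u v : sl3 k ⊗[k] A) :
    actT k A β (br1 k A u v) = br1 k A (actT k A β u) v + br1 k A u (actT k A β v) := by
  induction u using TensorProduct.induction_on with
  | zero => simp
  | add x y hx hy => simp only [map_add, LinearMap.add_apply, hx, hy]; abel
  | tmul X p =>
    induction v using TensorProduct.induction_on with
    | zero => simp
    | add x y hx hy => simp only [map_add, hx, hy]; abel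
    | tmul Y q =>
      rw [br1_tmul, map_add, actT_tmul, actT_tmul, actT_tmul, actT_tmul, br1_tmul, br1_tmul]
      simp only [map_smul, map_add, map_sub, actD_mul, TensorProduct.tmul_add,
        TensorProduct.tmul_sub, TensorProduct.tmul_smul, smul_add]
      abel

lemma bb_ip (β : BA k A) (u v : sl3 k ⊗[k] A) :
    bb k A β (ip k A u v) = ip k A (actT k A β u) v + ip k A u (actT k A β v) := by
  induction u using TensorProduct.induction_on with
  | zero => simp
  | add x y hx hy => simp only [map_add, LinearMap.add_apply, hx, hy]; abel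
  | tmul X p =>
    induction v using TensorProduct.induction_on with
    | zero => simp
    | add x y hx hy => simp only [map_add, hx, hy]; abel
    | tmul Y q =>
      rw [ip_tmul, map_smul, bb_wdg, actT_tmul, actT_tmul, ip_tmul, ip_tmul, smul_add]

lemma actT_bb (α β : BA k A) (u : sl3 k ⊗[k] A) :
    actT k A (bb k A α β) u = actT k A α (actT k A β u) - actT k A β (actT k A α u) := by
  induction u using TensorProduct.induction_on with
  | zero => simp
  | add x y hx hy => simp only [map_add, hx, hy]; abel
  | tmul X p => rw [actT_tmul, actT_tmul, actT_tmul, actT_tmul, actT_tmul, actD_bb,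
      TensorProduct.tmul_sub]

/-- the invariant form: `ip (br u v) w` is cyclic -/
lemma ip_jac (u v w : sl3 k ⊗[k] A) :
    ip k A u (br1 k A v w) = ip k A (br1 k A u v) w + ip k A v (br1 k A u w) := by
  induction u using TensorProduct.induction_on with
  | zero => simp
  | add x y hx hy => simp only [map_add, LinearMap.add_apply, hx, hy]; abel
  | tmul X p =>
    induction v using TensorProduct.induction_on with
    | zero => simp
    | add x y hx hy => simp only [map_add, LinearMap.add_apply, hx, hy]; abel
    | tmul Y q =>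
      induction w using TensorProduct.induction_on with
      | zero => simp
      | add x y hx hy => simp only [map_add, hx, hy]; abel
      | tmul Z r =>
        simp only [br1_tmul, map_add, LinearMap.add_apply, ip_tmul]
        have t1 : (X.1 * (⁅Y, Z⁆ : sl3 k).1).trace = ((⁅X, Y⁆ : sl3 k).1 * Z.1).trace := by
          rw [coe_lie3, coe_lie3, mul_sub, sub_mul, Matrix.trace_sub, Matrix.trace_sub,
            mul_assoc X.1 Y.1 Z.1, ← mul_assoc X.1 Z.1 Y.1, Matrix.trace_mul_comm (X.1 * Z.1) Y.1,
            mul_assoc Y.1 X.1 Z.1]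
        have t2 : (Y.1 * (⁅X, Z⁆ : sl3 k).1).trace = - ((⁅X, Y⁆ : sl3 k).1 * Z.1).trace := by
          rw [coe_lie3, coe_lie3, mul_sub, sub_mul, Matrix.trace_sub, Matrix.trace_sub,
            ← mul_assoc Y.1 X.1 Z.1, ← mul_assoc Y.1 Z.1 X.1, Matrix.trace_mul_comm (Y.1 * Z.1) X.1,
            ← mul_assoc]
          ring
        have s0 : ∀ V W : sl3 k, ∀ U : sl3 k, (U.1 * (sym3 k V W).1).trace =
            (1 / 2) * ((U.1 * V.1 * W.1).trace + (U.1 * W.1 * V.1).trace) := by
          intro V W U
          have hU : Matrix.trace U.1 = 0 := U.2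
          unfold sym3
          rw [mul_sub, Matrix.trace_sub, mul_smul_comm, mul_smul_comm, mul_one, Matrix.trace_smul,
            Matrix.trace_smul, hU, smul_zero, sub_zero, mul_add, Matrix.trace_add, smul_eq_mul,
            mul_assoc, mul_assoc]
        have s1 : (X.1 * (sym3 k Y Z).1).trace = ((sym3 k X Y).1 * Z.1).trace := by
          rw [Matrix.trace_mul_comm (sym3 k X Y).1 Z.1, s0, s0, Matrix.trace_mul_cycle Z.1 X.1 Y.1,
            Matrix.trace_mul_cycle Z.1 Y.1 X.1, Matrix.trace_mul_cycle Y.1 Z.1 X.1]
        have s2 : (Y.1 * (sym3 k X Z).1).trace = ((sym3 k X Y).1 * Z.1).trace := by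
          rw [← s1, s0, s0, Matrix.trace_mul_cycle Y.1 X.1 Z.1, Matrix.trace_mul_cycle Z.1 Y.1 X.1,
            Matrix.trace_mul_cycle Y.1 Z.1 X.1]
          ring
        rw [t1, t2, s1, s2]
        generalize ((⁅X, Y⁆ : sl3 k).1 * Z.1).trace = a
        generalize ((sym3 k X Y).1 * Z.1).trace = b
        have c1 : wdg k p (q * r + r * q) = wdg k (p * q + q * p) r - wdg k q (p * r + r * p) := by
          have h1 := wdg_cyc k p q r
          have h2 := wdg_cyc k q p r
          have e1 := wdg_swap k p (q * r)
          have e2 := wdg_swap k p (r * q)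
          have e3 := wdg_swap k q (p * r)
          have e4 := wdg_swap k q (r * p)
          simp only [wdg_add_left, wdg_add_right]
          rw [e1, e2, e3, e4]
          rw [← sub_eq_zero]
          have : -wdg k (q * r) p + -wdg k (r * q) p - (wdg k (p * q) r + wdg k (q * p) r -
            (-wdg k (p * r) q + -wdg k (r * p) q)) = -((wdg k (p * q) r + wdg k (q * r) p + wdg k (r * p) q) +
            (wdg k (q * p) r + wdg k (p * r) q + wdg k (r * q) p)) := by abel
          rw [this, h1, h2]; simp
        have c2 : wdg k p (q * r - r * q) = wdg k (p * q - q * p) r + wdg k q (p * r - r * p) := by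
          have h1 := wdg_com k p q r
          have e1 := wdg_swap k p (q * r - r * q)
          have e3 := wdg_swap k q (p * r - r * p)
          rw [e1, e3, ← sub_eq_zero]
          have : -wdg k (q * r - r * q) p - (wdg k (p * q - q * p) r + -wdg k (p * r - r * p) q) =
            - (wdg k (p * q - q * p) r + wdg k (q * r - r * q) p + wdg k (r * p - p * r) q) := by
            have : wdg k (r * p - p * r) q = - wdg k (p * r - r * p) q := by
              rw [← wdg_neg_left, neg_sub]
            rw [this]; abel
          rw [this, h1, neg_zero]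
        simp only [wdg_smul_left, wdg_smul_right]
        rw [c1, c2]
        module

/-- the main identity -/
lemma br1_jac (u v w : sl3 k ⊗[k] A) :
    br1 k A u (br1 k A v w) - actT k A (ip k A v w) u =
      br1 k A (br1 k A u v) w + actT k A (ip k A u v) w +
      (br1 k A v (br1 k A u w) - actT k A (ip k A u w) v) := by
  induction u using TensorProduct.induction_on with
  | zero => simp
  | add x y hx hy =>
    simp only [map_add, LinearMap.add_apply]
    linear_combination (norm := abel) hx + hy
  | tmul X p =>
    induction v using TensorProduct.induction_on with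
    | zero => simp
    | add x y hx hy =>
      simp only [map_add, LinearMap.add_apply]
      linear_combination (norm := abel) hx + hy
    | tmul Y q =>
      induction w using TensorProduct.induction_on with
      | zero => simp
      | add x y hx hy =>
        simp only [map_add, LinearMap.add_apply]
        linear_combination (norm := abel) hx + hy
      | tmul Z r =>
        have key : br1 k A (X ⊗ₜ[k] p) (br1 k A (Y ⊗ₜ[k] q) (Z ⊗ₜ[k] r)) -
            actT k A (ip k A (Y ⊗ₜ[k] q) (Z ⊗ₜ[k] r)) (X ⊗ₜ[k] p) -
            (br1 k A (br1 k A (X ⊗ₜ[k] p) (Y ⊗ₜ[k] q)) (Z ⊗ₜ[k] r) +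
            actT k A (ip k A (X ⊗ₜ[k] p) (Y ⊗ₜ[k] q)) (Z ⊗ₜ[k] r) +
            (br1 k A (Y ⊗ₜ[k] q) (br1 k A (X ⊗ₜ[k] p) (Z ⊗ₜ[k] r)) -
            actT k A (ip k A (X ⊗ₜ[k] p) (Z ⊗ₜ[k] r)) (Y ⊗ₜ[k] q))) =
            cf0 k X Y Z ⊗ₜ[k] ((p * q) * r) + cf1 k X Y Z ⊗ₜ[k] ((p * r) * q) +
            cf2 k X Y Z ⊗ₜ[k] ((q * p) * r) + cf3 k X Y Z ⊗ₜ[k] ((q * r) * p) +
            cf4 k X Y Z ⊗ₜ[k] ((r * p) * q) + cf5 k X Y Z ⊗ₜ[k] ((r * q) * p) +
            cf6 k X Y Z ⊗ₜ[k] (as p q r) := by
          have r1 : p * (q * r) = p * q * r - as p q r := by unfold as; abel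
          have r2 : p * (r * q) = p * r * q + as p q r := by
            rw [hA.isAlt.as_right p q r]; unfold as; abel
          have r3 : q * (p * r) = q * p * r + as p q r := by
            rw [hA.isAlt.as_left p q r]; unfold as; abel
          have r4 : q * (r * p) = q * r * p - as p q r := by
            rw [as_cyc hA.isAlt p q r]; unfold as; abel
          have r5 : r * (p * q) = r * p * q - as p q r := by
            rw [← as_cyc hA.isAlt r p q]; unfold as; abel
          have r6 : r * (q * p) = r * q * p + as p q r := by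
            rw [← as_cyc hA.isAlt r p q, hA.isAlt.as_right r p q]; unfold as; abel
          have d1 : as q r p = as p q r := (as_cyc hA.isAlt p q r).symm
          have d2 : as p r q = - as p q r := hA.isAlt.as_right p r q
          simp only [br1_tmul, map_add, LinearMap.add_apply, ip_tmul, map_smul,
            LinearMap.smul_apply, actT_tmul, actD_wdg, Dop_apply, dd, d1, d2]
          simp only [mul_add, add_mul, mul_sub, sub_mul, smul_mul_assoc, mul_smul_comm, r1, r2, r3,
            r4, r5, r6, TensorProduct.tmul_add, TensorProduct.tmul_sub, TensorProduct.tmul_smul,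
            smul_add, smul_sub, smul_neg, TensorProduct.tmul_neg]
          simp only [cf0, cf1, cf2, cf3, cf4, cf5, cf6, TensorProduct.add_tmul,
            ← TensorProduct.smul_tmul']
          module
        rw [← sub_eq_zero, key, cf0_eq, cf1_eq, cf2_eq, cf3_eq, cf4_eq, cf5_eq, cf6_eq]
        simp only [TensorProduct.zero_tmul, add_zero]

end

end Pool.Agent.W429.ABG
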