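import Pool.Agent.W429.ABG.Defs
set_option autoImplicit false
set_option linter.unusedSimpArgs false
set_option linter.unusedSectionVars false

/-! Matrix identities in `sl₃` behind the Jacobi identity of `ABG(A)`. -/

namespace Pool.Agent.W429.ABG
attribute [local instance 100] LieRing.ofAssociativeRing

section
variable (k : Type) [Field k]

/-- traceless matrices: the last diagonal entry -/
lemma tr_zero' (x : Matrix (Fin 3) (Fin 3) k) (h : x.trace = 0) : x 2 2 = - x 0 0 - x 1 1 := by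
  rw [Matrix.trace, Fin.sum_univ_three] at h
  simp only [Matrix.diag_apply] at h
  linear_combination h

/-- polarized Cayley-Hamilton identity for traceless `3 × 3` matrices -/
lemma CH (x y z : Matrix (Fin 3) (Fin 3) k) (hx : x.trace = 0) (hy : y.trace = 0)
    (hz : z.trace = 0) :
    x * (y * z) + x * (z * y) + y * (x * z) + y * (z * x) + z * (x * y) + z * (y * x) =
      (x * y).trace • z + (y * z).trace • x + (x * z).trace • y +
      ((x * (y * z)).trace + (x * (z * y)).trace) • (1 : Matrix (Fin 3) (Fin 3) k) := by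
  have hX := tr_zero' k x hx
  have hY := tr_zero' k y hy
  have hZ := tr_zero' k z hz
  ext i j
  fin_cases i <;> fin_cases j <;>
  · simp [Matrix.mul_apply, Fin.sum_univ_three, Matrix.trace]
    simp only [hX, hY, hZ]
    ring

variable [CharZero k]

lemma sym3_val (X Y : sl3 k) : (sym3 k X Y).1 = (1 / 2 : k) • (X.1 * Y.1 + Y.1 * X.1) -
    ((1 / 3 : k) * (X.1 * Y.1).trace) • (1 : Matrix (Fin 3) (Fin 3) k) := rfl

/-- coefficient of `(p * q) * r` -/
noncomputable def cf0 (X Y Z : sl3 k) : sl3 k :=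
    (1 / 4 : k) • ⁅X, ⁅Y, Z⁆⁆ +
    (1 / 2 : k) • sym3 k X ⁅Y, Z⁆ +
    (1 / 2 : k) • ⁅X, sym3 k Y Z⁆ +
    (1 : k) • sym3 k X (sym3 k Y Z) +
    ((1 / 3 : k) * (Y.1 * Z.1).trace) • X +
    (-1 / 4 : k) • ⁅⁅X, Y⁆, Z⁆ +
    (-1 / 2 : k) • sym3 k ⁅X, Y⁆ Z +
    (-1 / 2 : k) • ⁅sym3 k X Y, Z⁆ +
    (-1 : k) • sym3 k (sym3 k X Y) Z +
    ((-1 / 3 : k) * (X.1 * Y.1).trace) • Z

lemma cf0_eq (X Y Z : sl3 k) : cf0 k X Y Z = 0 := by
  have hX : Matrix.trace X.1 = 0 := X.2
  have hY : Matrix.trace Y.1 = 0 := Y.2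
  have hZ : Matrix.trace Z.1 = 0 := Z.2
  apply Subtype.ext
  show (cf0 k X Y Z).1 = 0
  unfold cf0
  simp only [coe_add3, coe_smul3, coe_lie3, sym3_val]
  generalize X.1 = x at *
  generalize Y.1 = y at *
  generalize Z.1 = z at *
  have c1 : (y * x).trace = (x * y).trace := Matrix.trace_mul_comm _ _
  have c2 : (z * x).trace = (x * z).trace := Matrix.trace_mul_comm _ _
  have c3 : (z * y).trace = (y * z).trace := Matrix.trace_mul_comm _ _
  have d1 : (y * (z * x)).trace = (x * (y * z)).trace := by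
    rw [← mul_assoc, Matrix.trace_mul_comm]
  have d2 : (z * (x * y)).trace = (x * (y * z)).trace := by
    rw [← mul_assoc, Matrix.trace_mul_comm, ← mul_assoc, Matrix.trace_mul_comm]
  have d3 : (z * (y * x)).trace = (x * (z * y)).trace := by
    rw [← mul_assoc, Matrix.trace_mul_comm]
  have d4 : (y * (x * z)).trace = (x * (z * y)).trace := by
    rw [← mul_assoc, Matrix.trace_mul_comm, ← mul_assoc, Matrix.trace_mul_comm]
  have hCH := CH k x y z hX hY hZ
  have hCH' : z * (y * x) = (x * y).trace • z + (y * z).trace • x + (x * z).trace • y +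
      ((x * (y * z)).trace + (x * (z * y)).trace) • (1 : Matrix (Fin 3) (Fin 3) k) -
      (x * (y * z) + x * (z * y) + y * (x * z) + y * (z * x) + z * (x * y)) := by
    rw [← hCH]; abel
  simp only [mul_sub, sub_mul, mul_add, add_mul, smul_mul_assoc, mul_smul_comm, mul_one, one_mul,
    mul_assoc, smul_add, smul_sub, Matrix.trace_add, Matrix.trace_sub, Matrix.trace_smul, hX, hY, hZ,
    c1, c2, c3, d1, d2, d3, d4, smul_eq_mul, mul_zero, sub_zero]
  module

/-- coefficient of `(p * r) * q` -/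
noncomputable def cf1 (X Y Z : sl3 k) : sl3 k :=
    (1 / 4 : k) • ⁅X, ⁅Y, Z⁆⁆ +
    (1 / 2 : k) • sym3 k X ⁅Y, Z⁆ +
    (-1 / 2 : k) • ⁅X, sym3 k Y Z⁆ +
    (-1 : k) • sym3 k X (sym3 k Y Z) +
    ((-1 / 3 : k) * (Y.1 * Z.1).trace) • X +
    (-1 / 4 : k) • ⁅Y, ⁅X, Z⁆⁆ +
    (1 / 2 : k) • sym3 k Y ⁅X, Z⁆ +
    (-1 / 2 : k) • ⁅Y, sym3 k X Z⁆ +
    (1 : k) • sym3 k Y (sym3 k X Z) +
    ((1 / 3 : k) * (X.1 * Z.1).trace) • Y

lemma cf1_eq (X Y Z : sl3 k) : cf1 k X Y Z = 0 := by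
  have hX : Matrix.trace X.1 = 0 := X.2
  have hY : Matrix.trace Y.1 = 0 := Y.2
  have hZ : Matrix.trace Z.1 = 0 := Z.2
  apply Subtype.ext
  show (cf1 k X Y Z).1 = 0
  unfold cf1
  simp only [coe_add3, coe_smul3, coe_lie3, sym3_val]
  generalize X.1 = x at *
  generalize Y.1 = y at *
  generalize Z.1 = z at *
  have c1 : (y * x).trace = (x * y).trace := Matrix.trace_mul_comm _ _
  have c2 : (z * x).trace = (x * z).trace := Matrix.trace_mul_comm _ _
  have c3 : (z * y).trace = (y * z).trace := Matrix.trace_mul_comm _ _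
  have d1 : (y * (z * x)).trace = (x * (y * z)).trace := by
    rw [← mul_assoc, Matrix.trace_mul_comm]
  have d2 : (z * (x * y)).trace = (x * (y * z)).trace := by
    rw [← mul_assoc, Matrix.trace_mul_comm, ← mul_assoc, Matrix.trace_mul_comm]
  have d3 : (z * (y * x)).trace = (x * (z * y)).trace := by
    rw [← mul_assoc, Matrix.trace_mul_comm]
  have d4 : (y * (x * z)).trace = (x * (z * y)).trace := by
    rw [← mul_assoc, Matrix.trace_mul_comm, ← mul_assoc, Matrix.trace_mul_comm]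
  have hCH := CH k x y z hX hY hZ
  have hCH' : z * (y * x) = (x * y).trace • z + (y * z).trace • x + (x * z).trace • y +
      ((x * (y * z)).trace + (x * (z * y)).trace) • (1 : Matrix (Fin 3) (Fin 3) k) -
      (x * (y * z) + x * (z * y) + y * (x * z) + y * (z * x) + z * (x * y)) := by
    rw [← hCH]; abel
  simp only [mul_sub, sub_mul, mul_add, add_mul, smul_mul_assoc, mul_smul_comm, mul_one, one_mul,
    mul_assoc, smul_add, smul_sub, Matrix.trace_add, Matrix.trace_sub, Matrix.trace_smul, hX, hY, hZ,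
    c1, c2, c3, d1, d2, d3, d4, smul_eq_mul, mul_zero, sub_zero]
  module

/-- coefficient of `(q * p) * r` -/
noncomputable def cf2 (X Y Z : sl3 k) : sl3 k :=
    (-1 / 4 : k) • ⁅⁅X, Y⁆, Z⁆ +
    (-1 / 2 : k) • sym3 k ⁅X, Y⁆ Z +
    (1 / 2 : k) • ⁅sym3 k X Y, Z⁆ +
    (1 : k) • sym3 k (sym3 k X Y) Z +
    ((1 / 3 : k) * (X.1 * Y.1).trace) • Z +
    (-1 / 4 : k) • ⁅Y, ⁅X, Z⁆⁆ +
    (-1 / 2 : k) • sym3 k Y ⁅X, Z⁆ +
    (-1 / 2 : k) • ⁅Y, sym3 k X Z⁆ +
    (-1 : k) • sym3 k Y (sym3 k X Z) +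
    ((-1 / 3 : k) * (X.1 * Z.1).trace) • Y

lemma cf2_eq (X Y Z : sl3 k) : cf2 k X Y Z = 0 := by
  have hX : Matrix.trace X.1 = 0 := X.2
  have hY : Matrix.trace Y.1 = 0 := Y.2
  have hZ : Matrix.trace Z.1 = 0 := Z.2
  apply Subtype.ext
  show (cf2 k X Y Z).1 = 0
  unfold cf2
  simp only [coe_add3, coe_smul3, coe_lie3, sym3_val]
  generalize X.1 = x at *
  generalize Y.1 = y at *
  generalize Z.1 = z at *
  have c1 : (y * x).trace = (x * y).trace := Matrix.trace_mul_comm _ _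
  have c2 : (z * x).trace = (x * z).trace := Matrix.trace_mul_comm _ _
  have c3 : (z * y).trace = (y * z).trace := Matrix.trace_mul_comm _ _
  have d1 : (y * (z * x)).trace = (x * (y * z)).trace := by
    rw [← mul_assoc, Matrix.trace_mul_comm]
  have d2 : (z * (x * y)).trace = (x * (y * z)).trace := by
    rw [← mul_assoc, Matrix.trace_mul_comm, ← mul_assoc, Matrix.trace_mul_comm]
  have d3 : (z * (y * x)).trace = (x * (z * y)).trace := by
    rw [← mul_assoc, Matrix.trace_mul_comm]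
  have d4 : (y * (x * z)).trace = (x * (z * y)).trace := by
    rw [← mul_assoc, Matrix.trace_mul_comm, ← mul_assoc, Matrix.trace_mul_comm]
  have hCH := CH k x y z hX hY hZ
  have hCH' : z * (y * x) = (x * y).trace • z + (y * z).trace • x + (x * z).trace • y +
      ((x * (y * z)).trace + (x * (z * y)).trace) • (1 : Matrix (Fin 3) (Fin 3) k) -
      (x * (y * z) + x * (z * y) + y * (x * z) + y * (z * x) + z * (x * y)) := by
    rw [← hCH]; abel
  simp only [mul_sub, sub_mul, mul_add, add_mul, smul_mul_assoc, mul_smul_comm, mul_one, one_mul,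
    mul_assoc, smul_add, smul_sub, Matrix.trace_add, Matrix.trace_sub, Matrix.trace_smul, hX, hY, hZ,
    c1, c2, c3, d1, d2, d3, d4, smul_eq_mul, mul_zero, sub_zero]
  module

/-- coefficient of `(q * r) * p` -/
noncomputable def cf3 (X Y Z : sl3 k) : sl3 k :=
    (1 / 4 : k) • ⁅X, ⁅Y, Z⁆⁆ +
    (-1 / 2 : k) • sym3 k X ⁅Y, Z⁆ +
    (1 / 2 : k) • ⁅X, sym3 k Y Z⁆ +
    (-1 : k) • sym3 k X (sym3 k Y Z) +
    ((-1 / 3 : k) * (Y.1 * Z.1).trace) • X +
    (-1 / 4 : k) • ⁅Y, ⁅X, Z⁆⁆ +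
    (-1 / 2 : k) • sym3 k Y ⁅X, Z⁆ +
    (1 / 2 : k) • ⁅Y, sym3 k X Z⁆ +
    (1 : k) • sym3 k Y (sym3 k X Z) +
    ((1 / 3 : k) * (X.1 * Z.1).trace) • Y

lemma cf3_eq (X Y Z : sl3 k) : cf3 k X Y Z = 0 := by
  have hX : Matrix.trace X.1 = 0 := X.2
  have hY : Matrix.trace Y.1 = 0 := Y.2
  have hZ : Matrix.trace Z.1 = 0 := Z.2
  apply Subtype.ext
  show (cf3 k X Y Z).1 = 0
  unfold cf3
  simp only [coe_add3, coe_smul3, coe_lie3, sym3_val]
  generalize X.1 = x at *
  generalize Y.1 = y at *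
  generalize Z.1 = z at *
  have c1 : (y * x).trace = (x * y).trace := Matrix.trace_mul_comm _ _
  have c2 : (z * x).trace = (x * z).trace := Matrix.trace_mul_comm _ _
  have c3 : (z * y).trace = (y * z).trace := Matrix.trace_mul_comm _ _
  have d1 : (y * (z * x)).trace = (x * (y * z)).trace := by
    rw [← mul_assoc, Matrix.trace_mul_comm]
  have d2 : (z * (x * y)).trace = (x * (y * z)).trace := by
    rw [← mul_assoc, Matrix.trace_mul_comm, ← mul_assoc, Matrix.trace_mul_comm]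
  have d3 : (z * (y * x)).trace = (x * (z * y)).trace := by
    rw [← mul_assoc, Matrix.trace_mul_comm]
  have d4 : (y * (x * z)).trace = (x * (z * y)).trace := by
    rw [← mul_assoc, Matrix.trace_mul_comm, ← mul_assoc, Matrix.trace_mul_comm]
  have hCH := CH k x y z hX hY hZ
  have hCH' : z * (y * x) = (x * y).trace • z + (y * z).trace • x + (x * z).trace • y +
      ((x * (y * z)).trace + (x * (z * y)).trace) • (1 : Matrix (Fin 3) (Fin 3) k) -
      (x * (y * z) + x * (z * y) + y * (x * z) + y * (z * x) + z * (x * y)) := by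
    rw [← hCH]; abel
  simp only [mul_sub, sub_mul, mul_add, add_mul, smul_mul_assoc, mul_smul_comm, mul_one, one_mul,
    mul_assoc, smul_add, smul_sub, Matrix.trace_add, Matrix.trace_sub, Matrix.trace_smul, hX, hY, hZ,
    c1, c2, c3, d1, d2, d3, d4, smul_eq_mul, mul_zero, sub_zero]
  module

/-- coefficient of `(r * p) * q` -/
noncomputable def cf4 (X Y Z : sl3 k) : sl3 k :=
    (-1 / 4 : k) • ⁅⁅X, Y⁆, Z⁆ +
    (1 / 2 : k) • sym3 k ⁅X, Y⁆ Z +
    (-1 / 2 : k) • ⁅sym3 k X Y, Z⁆ +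
    (1 : k) • sym3 k (sym3 k X Y) Z +
    ((1 / 3 : k) * (X.1 * Y.1).trace) • Z +
    (-1 / 4 : k) • ⁅Y, ⁅X, Z⁆⁆ +
    (1 / 2 : k) • sym3 k Y ⁅X, Z⁆ +
    (1 / 2 : k) • ⁅Y, sym3 k X Z⁆ +
    (-1 : k) • sym3 k Y (sym3 k X Z) +
    ((-1 / 3 : k) * (X.1 * Z.1).trace) • Y

lemma cf4_eq (X Y Z : sl3 k) : cf4 k X Y Z = 0 := by
  have hX : Matrix.trace X.1 = 0 := X.2
  have hY : Matrix.trace Y.1 = 0 := Y.2
  have hZ : Matrix.trace Z.1 = 0 := Z.2
  apply Subtype.ext
  show (cf4 k X Y Z).1 = 0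
  unfold cf4
  simp only [coe_add3, coe_smul3, coe_lie3, sym3_val]
  generalize X.1 = x at *
  generalize Y.1 = y at *
  generalize Z.1 = z at *
  have c1 : (y * x).trace = (x * y).trace := Matrix.trace_mul_comm _ _
  have c2 : (z * x).trace = (x * z).trace := Matrix.trace_mul_comm _ _
  have c3 : (z * y).trace = (y * z).trace := Matrix.trace_mul_comm _ _
  have d1 : (y * (z * x)).trace = (x * (y * z)).trace := by
    rw [← mul_assoc, Matrix.trace_mul_comm]
  have d2 : (z * (x * y)).trace = (x * (y * z)).trace := by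
    rw [← mul_assoc, Matrix.trace_mul_comm, ← mul_assoc, Matrix.trace_mul_comm]
  have d3 : (z * (y * x)).trace = (x * (z * y)).trace := by
    rw [← mul_assoc, Matrix.trace_mul_comm]
  have d4 : (y * (x * z)).trace = (x * (z * y)).trace := by
    rw [← mul_assoc, Matrix.trace_mul_comm, ← mul_assoc, Matrix.trace_mul_comm]
  have hCH := CH k x y z hX hY hZ
  have hCH' : z * (y * x) = (x * y).trace • z + (y * z).trace • x + (x * z).trace • y +
      ((x * (y * z)).trace + (x * (z * y)).trace) • (1 : Matrix (Fin 3) (Fin 3) k) -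
      (x * (y * z) + x * (z * y) + y * (x * z) + y * (z * x) + z * (x * y)) := by
    rw [← hCH]; abel
  simp only [mul_sub, sub_mul, mul_add, add_mul, smul_mul_assoc, mul_smul_comm, mul_one, one_mul,
    mul_assoc, smul_add, smul_sub, Matrix.trace_add, Matrix.trace_sub, Matrix.trace_smul, hX, hY, hZ,
    c1, c2, c3, d1, d2, d3, d4, smul_eq_mul, mul_zero, sub_zero]
  module

/-- coefficient of `(r * q) * p` -/
noncomputable def cf5 (X Y Z : sl3 k) : sl3 k :=
    (1 / 4 : k) • ⁅X, ⁅Y, Z⁆⁆ +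
    (-1 / 2 : k) • sym3 k X ⁅Y, Z⁆ +
    (-1 / 2 : k) • ⁅X, sym3 k Y Z⁆ +
    (1 : k) • sym3 k X (sym3 k Y Z) +
    ((1 / 3 : k) * (Y.1 * Z.1).trace) • X +
    (-1 / 4 : k) • ⁅⁅X, Y⁆, Z⁆ +
    (1 / 2 : k) • sym3 k ⁅X, Y⁆ Z +
    (1 / 2 : k) • ⁅sym3 k X Y, Z⁆ +
    (-1 : k) • sym3 k (sym3 k X Y) Z +
    ((-1 / 3 : k) * (X.1 * Y.1).trace) • Z

lemma cf5_eq (X Y Z : sl3 k) : cf5 k X Y Z = 0 := by
  have hX : Matrix.trace X.1 = 0 := X.2
  have hY : Matrix.trace Y.1 = 0 := Y.2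
  have hZ : Matrix.trace Z.1 = 0 := Z.2
  apply Subtype.ext
  show (cf5 k X Y Z).1 = 0
  unfold cf5
  simp only [coe_add3, coe_smul3, coe_lie3, sym3_val]
  generalize X.1 = x at *
  generalize Y.1 = y at *
  generalize Z.1 = z at *
  have c1 : (y * x).trace = (x * y).trace := Matrix.trace_mul_comm _ _
  have c2 : (z * x).trace = (x * z).trace := Matrix.trace_mul_comm _ _
  have c3 : (z * y).trace = (y * z).trace := Matrix.trace_mul_comm _ _
  have d1 : (y * (z * x)).trace = (x * (y * z)).trace := by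
    rw [← mul_assoc, Matrix.trace_mul_comm]
  have d2 : (z * (x * y)).trace = (x * (y * z)).trace := by
    rw [← mul_assoc, Matrix.trace_mul_comm, ← mul_assoc, Matrix.trace_mul_comm]
  have d3 : (z * (y * x)).trace = (x * (z * y)).trace := by
    rw [← mul_assoc, Matrix.trace_mul_comm]
  have d4 : (y * (x * z)).trace = (x * (z * y)).trace := by
    rw [← mul_assoc, Matrix.trace_mul_comm, ← mul_assoc, Matrix.trace_mul_comm]
  have hCH := CH k x y z hX hY hZ
  have hCH' : z * (y * x) = (x * y).trace • z + (y * z).trace • x + (x * z).trace • y +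
      ((x * (y * z)).trace + (x * (z * y)).trace) • (1 : Matrix (Fin 3) (Fin 3) k) -
      (x * (y * z) + x * (z * y) + y * (x * z) + y * (z * x) + z * (x * y)) := by
    rw [← hCH]; abel
  simp only [mul_sub, sub_mul, mul_add, add_mul, smul_mul_assoc, mul_smul_comm, mul_one, one_mul,
    mul_assoc, smul_add, smul_sub, Matrix.trace_add, Matrix.trace_sub, Matrix.trace_smul, hX, hY, hZ,
    c1, c2, c3, d1, d2, d3, d4, smul_eq_mul, mul_zero, sub_zero]
  module

/-- coefficient of `as p q r` -/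
noncomputable def cf6 (X Y Z : sl3 k) : sl3 k :=
    (-1 : k) • ⁅X, sym3 k Y Z⁆ +
    (-2 : k) • sym3 k X (sym3 k Y Z) +
    ((1 / 3 : k) * (Y.1 * Z.1).trace) • X +
    (1 : k) • ⁅sym3 k X Y, Z⁆ +
    (-2 : k) • sym3 k (sym3 k X Y) Z +
    ((1 / 3 : k) * (X.1 * Y.1).trace) • Z +
    (-1 : k) • ⁅Y, sym3 k X Z⁆ +
    (-2 : k) • sym3 k Y (sym3 k X Z) +
    ((1 / 3 : k) * (X.1 * Z.1).trace) • Y

lemma cf6_eq (X Y Z : sl3 k) : cf6 k X Y Z = 0 := by
  have hX : Matrix.trace X.1 = 0 := X.2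
  have hY : Matrix.trace Y.1 = 0 := Y.2
  have hZ : Matrix.trace Z.1 = 0 := Z.2
  apply Subtype.ext
  show (cf6 k X Y Z).1 = 0
  unfold cf6
  simp only [coe_add3, coe_smul3, coe_lie3, sym3_val]
  generalize X.1 = x at *
  generalize Y.1 = y at *
  generalize Z.1 = z at *
  have c1 : (y * x).trace = (x * y).trace := Matrix.trace_mul_comm _ _
  have c2 : (z * x).trace = (x * z).trace := Matrix.trace_mul_comm _ _
  have c3 : (z * y).trace = (y * z).trace := Matrix.trace_mul_comm _ _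
  have d1 : (y * (z * x)).trace = (x * (y * z)).trace := by
    rw [← mul_assoc, Matrix.trace_mul_comm]
  have d2 : (z * (x * y)).trace = (x * (y * z)).trace := by
    rw [← mul_assoc, Matrix.trace_mul_comm, ← mul_assoc, Matrix.trace_mul_comm]
  have d3 : (z * (y * x)).trace = (x * (z * y)).trace := by
    rw [← mul_assoc, Matrix.trace_mul_comm]
  have d4 : (y * (x * z)).trace = (x * (z * y)).trace := by
    rw [← mul_assoc, Matrix.trace_mul_comm, ← mul_assoc, Matrix.trace_mul_comm]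
  have hCH := CH k x y z hX hY hZ
  have hCH' : z * (y * x) = (x * y).trace • z + (y * z).trace • x + (x * z).trace • y +
      ((x * (y * z)).trace + (x * (z * y)).trace) • (1 : Matrix (Fin 3) (Fin 3) k) -
      (x * (y * z) + x * (z * y) + y * (x * z) + y * (z * x) + z * (x * y)) := by
    rw [← hCH]; abel
  simp only [mul_sub, sub_mul, mul_add, add_mul, smul_mul_assoc, mul_smul_comm, mul_one, one_mul,
    mul_assoc, smul_add, smul_sub, Matrix.trace_add, Matrix.trace_sub, Matrix.trace_smul, hX, hY, hZ,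
    c1, c2, c3, d1, d2, d3, d4, smul_eq_mul, mul_zero, sub_zero]
  rw [hCH']
  module

end
end Pool.Agent.W429.ABG
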