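import Mathlib
set_option autoImplicit false

/-! Definitions for the statement of the disproof of Shang's conjecture on the homology of the
Allison-Benkart-Gao Lie algebra of a free alternative algebra. -/

namespace Pool.Agent.W429.ABG.Pub
open TensorProduct

/-! ### Free alternative algebras -/

section
variable (k : Type) [Field k] (A : Type) [NonUnitalNonAssocRing A] [Module k A]

/-- `A` is an alternative `k`-algebra: the product is `k`-bilinear, `(pp)q = p(pq)` and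
`(qp)p = q(pp)`. -/
def IsAlternative : Prop :=
  (∀ (c : k) (p q : A), (c • p) * q = c • (p * q) ∧ p * (c • q) = c • (p * q)) ∧
  ∀ p q : A, (p * p) * q = p * (p * q) ∧ (q * p) * p = q * (p * p)

variable {A}

/-- If `C` is an alternative algebra, every map `c` from the index set to `C` extends to a unique
homomorphism of `k`-algebras `A → C` with `x i ↦ c i`. -/
def LiftsTo {ι : Type} (x : ι → A) (C : Type) [NonUnitalNonAssocRing C] [Module k C] : Prop :=
  IsAlternative k C → ∀ c : ι → C, ∃! f : A →ₙₐ[k] C, ∀ i, f (x i) = c i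

/-- `A` is the free (non-unital) alternative `k`-algebra on the elements `x i`. -/
def IsFreeAlternative {ι : Type} (x : ι → A) : Prop :=
  IsAlternative k A ∧ ∀ (C : Type) [NonUnitalNonAssocRing C] [Module k C], LiftsTo k x C

end

/-! ### The Allison-Benkart-Gao Lie algebra -/

section
variable {k : Type} [Field k]

variable (k) in
/-- The space `sl₃` of traceless `3 × 3` matrices. -/
abbrev S3 : Submodule k (Matrix (Fin 3) (Fin 3) k) :=
  LinearMap.ker (Matrix.traceLinearMap (Fin 3) k k)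

lemma brS_mem (X Y : S3 k) : X.1 * Y.1 - Y.1 * X.1 ∈ S3 k := by
  show Matrix.trace (X.1 * Y.1 - Y.1 * X.1) = 0
  rw [Matrix.trace_sub, Matrix.trace_mul_comm, sub_self]

/-- `[X, Y] = XY - YX` in `sl₃`. -/
def brS (X Y : S3 k) : S3 k := ⟨X.1 * Y.1 - Y.1 * X.1, brS_mem X Y⟩

lemma symS_mem [CharZero k] (X Y : S3 k) :
    (1 / 2 : k) • (X.1 * Y.1 + Y.1 * X.1) -
      ((1 / 3 : k) * (X.1 * Y.1).trace) • (1 : Matrix (Fin 3) (Fin 3) k) ∈ S3 k := by
  show Matrix.trace ((1 / 2 : k) • (X.1 * Y.1 + Y.1 * X.1) -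
    ((1 / 3 : k) * (X.1 * Y.1).trace) • (1 : Matrix (Fin 3) (Fin 3) k)) = 0
  rw [Matrix.trace_sub, Matrix.trace_smul, Matrix.trace_smul, Matrix.trace_add,
    Matrix.trace_mul_comm Y.1 X.1, Matrix.trace_one]
  simp only [smul_eq_mul, Fintype.card_fin]
  push_cast
  ring

/-- `{X, Y} = ½ (XY + YX) - ⅓ tr(XY) I` in `sl₃`. -/
noncomputable def symS [CharZero k] (X Y : S3 k) : S3 k :=
  ⟨(1 / 2 : k) • (X.1 * Y.1 + Y.1 * X.1) -
    ((1 / 3 : k) * (X.1 * Y.1).trace) • (1 : Matrix (Fin 3) (Fin 3) k), symS_mem X Y⟩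

variable {A : Type} [NonUnitalNonAssocRing A]

/-- `D_{p,q} = [L_p, L_q] + [R_p, R_q] + [L_p, R_q]`, applied to `r`. -/
def D (p q r : A) : A :=
  (p * (q * r) - q * (p * r)) + ((r * q) * p - (r * p) * q) + (p * (r * q) - (p * r) * q)

variable [Module k A]

variable (k A) in
/-- The relations of `B(A)` inside `A ⊗ A`: the `p ⊗ p` (which define `Λ² A`) and the
`pq ⊗ r + qr ⊗ p + rp ⊗ q`. -/
def relB : Submodule k (A ⊗[k] A) :=
  Submodule.span k ({t | ∃ p : A, t = p ⊗ₜ[k] p} ∪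
    {t | ∃ p q r : A, t = (p * q) ⊗ₜ[k] r + (q * r) ⊗ₜ[k] p + (r * p) ⊗ₜ[k] q})

variable (k A) in
/-- `B(A) = Λ²(A) / span {pq ∧ r + qr ∧ p + rp ∧ q}`. -/
abbrev B : Type := (A ⊗[k] A) ⧸ relB k A

variable {L : Type}

/-- `L = (sl₃ ⊗ A) ⊕ B(A)` as a vector space, in such a way that `s X p` corresponds to `X ⊗ p` and
`w p q` corresponds to the class `p ∧ q` in `B(A)`. -/
def IsSpace [AddCommGroup L] [Module k L] (s : S3 k → A → L) (w : A → A → L) : Prop :=
  ∃ e : ((S3 k ⊗[k] A) × B k A) ≃ₗ[k] L,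
    (∀ (X : S3 k) (p : A), e (X ⊗ₜ[k] p, 0) = s X p) ∧
    ∀ p q : A, e (0, Submodule.Quotient.mk (p ⊗ₜ[k] q)) = w p q

/-- The Lie algebra `L` is `ABG(A)`: its underlying space is `(sl₃ ⊗ A) ⊕ B(A)`, where `s X p` is
`X ⊗ p` and `w p q` is `p ∧ q`, and its bracket is given by the three defining rules. -/
structure IsABG [CharZero k] [LieRing L] [LieAlgebra k L] (s : S3 k → A → L) (w : A → A → L) :
    Prop where
  space : IsSpace s w
  rule1 : ∀ (X Y : S3 k) (p q : A), ⁅s X p, s Y q⁆ =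
    s (brS X Y) ((1 / 2 : k) • (p * q + q * p)) + s (symS X Y) (p * q - q * p) +
      ((1 / 3 : k) * (X.1 * Y.1).trace) • w p q
  rule2 : ∀ (p q : A) (X : S3 k) (r : A), ⁅w p q, s X r⁆ = s X (D p q r)
  rule3 : ∀ p q r t : A, ⁅w p q, w r t⁆ = w (D p q r) t + w r (D p q t)

/-- `σ X` is the action of `X ∈ sl₃` on `L = (sl₃ ⊗ A) ⊕ B(A)`: adjoint on the factor `sl₃`, trivial
on `A` and on `B(A)`. -/
def IsAction [AddCommGroup L] [Module k L] (s : S3 k → A → L) (w : A → A → L)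
    (σ : S3 k → Module.End k L) : Prop :=
  ∀ X : S3 k, (∀ (Y : S3 k) (p : A), σ X (s Y p) = s (brS X Y) p) ∧ ∀ p q : A, σ X (w p q) = 0

end

/-! ### Chevalley-Eilenberg homology with trivial coefficients -/

section
variable {k : Type} [Field k] {L : Type}

/-- `δ` is the derivation of the exterior algebra `Λ L` which extends the map `f : L → L`. -/
def IsDer [AddCommGroup L] [Module k L] (f : L → L) (δ : Module.End k (ExteriorAlgebra k L)) :
    Prop :=
  δ 1 = 0 ∧ ∀ (y : L) (v : ExteriorAlgebra k L),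
    δ (ExteriorAlgebra.ι k y * v) = ExteriorAlgebra.ι k (f y) * v + ExteriorAlgebra.ι k y * δ v

/-- `d` is the Chevalley-Eilenberg differential on `Λ L`: `d(1) = 0` and
`d(x ∧ v) = ad_x(v) - x ∧ d(v)`, where `ad_x` is extended to `Λ L` as a derivation. -/
def IsCE [LieRing L] [LieAlgebra k L] (d : Module.End k (ExteriorAlgebra k L)) : Prop :=
  d 1 = 0 ∧ ∀ x : L, ∃ δ : Module.End k (ExteriorAlgebra k L), IsDer (fun y => ⁅x, y⁆) δ ∧
    ∀ v : ExteriorAlgebra k L, d (ExteriorAlgebra.ι k x * v) = δ v - ExteriorAlgebra.ι k x * d v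

variable [AddCommGroup L] [Module k L]

/-- The `n`-cycles of the complex `(Λ L, d)`. -/
def Zn (d : Module.End k (ExteriorAlgebra k L)) (n : ℕ) : Submodule k (ExteriorAlgebra k L) :=
  ⋀[k]^n L ⊓ LinearMap.ker d

/-- The `n`-boundaries of the complex `(Λ L, d)`. -/
def Bn (d : Module.End k (ExteriorAlgebra k L)) (n : ℕ) : Submodule k (ExteriorAlgebra k L) :=
  (⋀[k]^(n + 1) L).map d

/-- `H_n = Zn / Bn` has a nonzero `sl₃`-invariant vector (the class of `z`); `ρ X` is the action of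
`X ∈ sl₃` on `Λ L`. -/
def HasTrivial (d : Module.End k (ExteriorAlgebra k L))
    (ρ : S3 k → Module.End k (ExteriorAlgebra k L)) (n : ℕ) : Prop :=
  ∃ z ∈ Zn d n, z ∉ Bn d n ∧ ∀ X : S3 k, ρ X z ∈ Bn d n

/-- There is a nonzero homomorphism of `sl₃`-modules from the adjoint module `sl₃` to
`H_n = Zn / Bn` (which sends `Y` to the class of `φ Y`); `ρ X` is the action of `X ∈ sl₃` on `Λ L`. -/
def HasAdjoint (d : Module.End k (ExteriorAlgebra k L))
    (ρ : S3 k → Module.End k (ExteriorAlgebra k L)) (n : ℕ) : Prop :=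
  ∃ φ : S3 k →ₗ[k] ExteriorAlgebra k L, (∀ Y : S3 k, φ Y ∈ Zn d n) ∧ (∃ Y : S3 k, φ Y ∉ Bn d n) ∧
    ∀ X Y : S3 k, ρ X (φ Y) - φ (brS X Y) ∈ Bn d n

end

/-! ### The negated form of the conjecture -/

section
variable (k : Type) [Field k] [CharZero k]

/-- The Lie algebra `L` is `ABG(A)`, and for some `n` with `2 ≤ n ≤ 9` the `sl₃`-module `H_n(L, k)`
has a trivial or an adjoint component. -/
def Witness (A : Type) [NonUnitalNonAssocRing A] [Module k A] (L : Type) [LieRing L]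
    [LieAlgebra k L] : Prop :=
  ∃ (s : S3 k → A → L) (w : A → A → L) (σ : S3 k → Module.End k L)
    (ρ : S3 k → Module.End k (ExteriorAlgebra k L)) (d : Module.End k (ExteriorAlgebra k L)),
    IsABG s w ∧ IsAction s w σ ∧ (∀ X : S3 k, IsDer (σ X) (ρ X)) ∧ IsCE d ∧
    ∃ n : ℕ, 2 ≤ n ∧ n ≤ 9 ∧ (HasTrivial d ρ n ∨ HasAdjoint d ρ n)

end

end Pool.Agent.W429.ABG.Pub
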