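import Pool.Agent.Helper805.Nuc.Free
set_option autoImplicit false

/-! Statements of the leaf results for the disproof of Shang's conjecture on the homology of the
Allison-Benkart-Gao Lie algebra of a free alternative algebra. -/

namespace Pool.Agent.W429.ABG
open Module
open Pool.Agent.Helper805.Nuc.Tens (IsAlt)
open Pool.Agent.Helper805.Nuc.Free (FreeAlt)
attribute [local instance 100] LieRing.ofAssociativeRing

/-! ### The Lie algebra `sl₃` and weights -/

/-- The Lie algebra `sl₃` over `k`. -/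
abbrev sl3 (k : Type) [Field k] : LieSubalgebra k (Matrix (Fin 3) (Fin 3) k) :=
  LieAlgebra.SpecialLinear.sl (Fin 3) k

/-- `h₁ = E₁₁ - E₂₂`. -/
noncomputable def h1 (k : Type) [Field k] : sl3 k :=
  LieAlgebra.SpecialLinear.singleSubSingle (0 : Fin 3) 1 (1 : k)

/-- `h₂ = E₂₂ - E₃₃`. -/
noncomputable def h2 (k : Type) [Field k] : sl3 k :=
  LieAlgebra.SpecialLinear.singleSubSingle (1 : Fin 3) 2 (1 : k)

/-- The weight space of weight `μ` (eigenvalue `μ.1` of `h₁` and `μ.2` of `h₂`). -/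
noncomputable def wt (k : Type) [Field k] (N : Type) [AddCommGroup N] [Module k N]
    [LieRingModule (sl3 k) N] [LieModule k (sl3 k) N] (μ : ℤ × ℤ) : Submodule k N :=
  (LieModule.toEnd k (sl3 k) N (h1 k)).eigenspace ((μ.1 : ℤ) : k) ⊓
  (LieModule.toEnd k (sl3 k) N (h2 k)).eigenspace ((μ.2 : ℤ) : k)

/-- Multiplicity of the trivial module in a character. -/
def altsum (f : ℤ × ℤ → ℤ) : ℤ :=
  f (0, 0) - f (2, -1) - f (-1, 2) + f (3, 0) + f (0, 3) - f (2, 2)

/-- Multiplication of a character with the character of the adjoint module. -/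
def chiConv (f : ℤ × ℤ → ℤ) : ℤ × ℤ → ℤ := fun μ =>
  2 * f μ + f (μ + (2, -1)) + f (μ + (-2, 1)) + f (μ + (-1, 2)) + f (μ + (1, -2)) +
    f (μ + (1, 1)) + f (μ + (-1, -1))

/-- R1: a finite-dimensional weight module over `sl₃` without nonzero invariants has `altsum = 0`. -/
def S_R1 : Prop := ∀ (k : Type) [Field k] [CharZero k] (N : Type) [AddCommGroup N] [Module k N]
    [LieRingModule (sl3 k) N] [LieModule k (sl3 k) N] [FiniteDimensional k N],
    (⨆ μ : ℤ × ℤ, wt k N μ) = ⊤ →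
    (∀ x : N, (∀ X : sl3 k, ⁅X, x⁆ = 0) → x = 0) →
    altsum (fun μ => (finrank k (wt k N μ) : ℤ)) = 0

/-- R2: a finite-dimensional weight module over `sl₃` without nonzero homomorphisms from the adjoint
module has `altsum (chiConv _) = 0`. -/
def S_R2 : Prop := ∀ (k : Type) [Field k] [CharZero k] (N : Type) [AddCommGroup N] [Module k N]
    [LieRingModule (sl3 k) N] [LieModule k (sl3 k) N] [FiniteDimensional k N],
    (⨆ μ : ℤ × ℤ, wt k N μ) = ⊤ →
    (∀ φ : sl3 k →ₗ⁅k, sl3 k⁆ N, φ = 0) →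
    altsum (chiConv (fun μ => (finrank k (wt k N μ) : ℤ))) = 0

/-! ### Numerics -/

/-- N: the recursion determines `a univ`. -/
def S_N : Prop := ∀ (a b : Finset (Fin 9) → ℤ) (F : Finset (Fin 9) → ℤ × ℤ → ℤ),
    (∀ μ, F ∅ μ = if μ = 0 then 1 else 0) →
    (∀ S : Finset (Fin 9), ∀ s ∈ S, ∀ μ, F S μ =
      - ∑ U ∈ S.powerset.filter (fun U => s ∈ U),
          (a U * chiConv (F (S \ U)) μ + b U * F (S \ U) μ)) →
    (∀ i, a {i} = 1 ∧ b {i} = 0) →
    (∀ S : Finset (Fin 9), 2 ≤ S.card → altsum (F S) = 0 ∧ altsum (chiConv (F S)) = 0) →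
    a Finset.univ = 336364

/-! ### Counting -/

open Classical in
/-- signed number of finite sets `T ⊆ 𝒥` whose `U j`, `j ∈ T`, form a partition of `S` and whose total
weight is `μ`. -/
noncomputable def cnt {J : Type} {n : ℕ} (𝒥 : Finset J) (U : J → Finset (Fin n)) (w : J → ℤ × ℤ)
    (S : Finset (Fin n)) (μ : ℤ × ℤ) : ℤ :=
  ∑ T ∈ 𝒥.powerset.filter
    (fun T : Finset J => (T : Set J).PairwiseDisjoint U ∧ T.biUnion U = S ∧ ∑ j ∈ T, w j = μ), (-1) ^ T.card

open Classical in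
/-- C: recursion for `cnt` -/
def S_C : Prop := ∀ (J : Type) (n : ℕ) (𝒥 : Finset J) (U : J → Finset (Fin n))
    (w : J → ℤ × ℤ), (∀ j ∈ 𝒥, (U j).Nonempty) →
    (∀ μ, cnt 𝒥 U w ∅ μ = if μ = 0 then 1 else 0) ∧
    ∀ S : Finset (Fin n), ∀ s ∈ S, ∀ μ, cnt 𝒥 U w S μ =
      - ∑ j ∈ 𝒥.filter (fun j => s ∈ U j ∧ U j ⊆ S), cnt 𝒥 U w (S \ U j) (μ - w j)

/-! ### The free alternative algebra -/

/-- joint eigenspace of the operators `δ i` with eigenvalues `γ i` -/
noncomputable def homog {k : Type} [Field k] {M : Type} [AddCommGroup M] [Module k M] {n : ℕ}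
    (δ : Fin n → Module.End k M) (γ : Fin n → ℕ) : Submodule k M :=
  ⨅ i, (δ i).eigenspace ((γ i : ℕ) : k)

/-- F: the multigrading of the free alternative algebra -/
def S_F : Prop := ∀ (k : Type) [Field k] [CharZero k] (n : ℕ),
    ∃ δ : Fin n → Module.End k (FreeAlt k (Fin n)),
      (∀ i a b, δ i (a * b) = δ i a * b + a * δ i b) ∧
      (∀ i j, δ i (FreeAlt.gen j) = if i = j then FreeAlt.gen j else 0) ∧
      (⨆ γ ∈ {γ : Fin n → ℕ | γ ≠ 0}, homog δ γ) = ⊤ ∧
      (∀ γ, FiniteDimensional k (homog δ γ)) ∧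
      (∀ i, finrank k (homog δ (Pi.single i 1)) = 1) ∧
      (1 ≤ n → n.factorial ≤ finrank k (homog δ (fun _ => 1)))

end Pool.Agent.W429.ABG
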